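import Pool.Agent.N504.TG.HomDef
import Pool.Agent.W461.SG.NIL
import Pool.Agent.TH652.JoinL2

/-!
# Residual chains and products
-/

set_option autoImplicit false

namespace Pool.Agent.N504.TG

open Pool.Agent.W907.SG
open Pool.Agent.TH652.Join (join ordSum)

/-- A residual chain: a decreasing sequence of normal subgroups of finite index of the right-angled Coxeter group of
`J` with trivial intersection, all of which are contained in the kernel of the canonical map to `(ℤ/2)^V` (which acts
freely on the Davis complex and is torsion-free). -/
structure Chain {V : Type} (J : SimpleGraph V) (K : ℕ → Subgroup (W J)) : Prop where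
  /-- decreasing -/
  anti : Antitone K
  /-- normal -/
  nor : ∀ i, (K i).Normal
  /-- of finite index -/
  fin : ∀ i, (K i).FiniteIndex
  /-- contained in the kernel of the map to `(ℤ/2)^V` -/
  ker : ∀ i, K i ≤ (Pool.Agent.W461.SGN.th J).ker
  /-- trivial intersection -/
  bot : ∀ g, (∀ i, g ∈ K i) → g = 1

/-- the order of the torsion subgroup of the `k`-th integral homology group of the quotient of the Davis complex of
the right-angled Coxeter group of the join `G * H` by `K` (the vertices of `G` come first in the order of the vertices
of the join) -/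
noncomputable def torsJ {V U : Type} [Fintype V] [LinearOrder V] [Fintype U] [LinearOrder U] (G : SimpleGraph V)
    (H : SimpleGraph U) (K : Subgroup (W (join G H))) (k : ℕ) : ℕ :=
  @tors (V ⊕ U) _ (ordSum V U) (join G H) K k

/-- the normalized logarithm of the order of the torsion of the `k`-th integral homology of the `i`-th covering space
in the tower given by the chain `K` of subgroups of the right-angled Coxeter group of the join `G * H` -/
noncomputable def rate {V U : Type} [Fintype V] [LinearOrder V] [Fintype U] [LinearOrder U] (G : SimpleGraph V)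
    (H : SimpleGraph U) (K : ℕ → Subgroup (W (join G H))) (k i : ℕ) : ℝ :=
  Real.log (torsJ G H (K i) k) / (K i).relIndex (K 0)

theorem rate_ge {V U : Type} [Fintype V] [LinearOrder V] [Fintype U] [LinearOrder U] (G : SimpleGraph V)
    (H : SimpleGraph U) {K : ℕ → Subgroup (W (join G H))} (hK : Chain _ K) (k i : ℕ) (c : ℝ)
    (h : c * (K i).index ≤ Real.log (torsJ G H (K i) k)) : c * (K 0).index ≤ rate G H K k i := by
  have hidx := Subgroup.relIndex_mul_index (hK.anti (Nat.zero_le i))
  have hpos : 0 < (K i).relIndex (K 0) := by
    refine Nat.pos_of_ne_zero fun h0 => (hK.fin i).index_ne_zero ?_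
    rw [← hidx, h0, zero_mul]
  have hpr : (0 : ℝ) < ((K i).relIndex (K 0) : ℕ) := by exact_mod_cast hpos
  unfold rate
  rw [le_div_iff₀ hpr]
  refine le_trans (le_of_eq ?_) h
  rw [← hidx]
  push_cast
  ring

theorem not_tendsto_rate {V U : Type} [Fintype V] [LinearOrder V] [Fintype U] [LinearOrder U] (G : SimpleGraph V)
    (H : SimpleGraph U) {K : ℕ → Subgroup (W (join G H))} (hK : Chain _ K) (k : ℕ) (c : ℝ) (hc : 0 < c)
    (h : ∀ᶠ i in Filter.atTop, c * (K 0).index ≤ rate G H K k i) :
    ¬ Filter.Tendsto (rate G H K k) Filter.atTop (nhds 0) := by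
  intro hlim
  have h0 : (0 : ℝ) < (K 0).index := by
    exact_mod_cast Nat.pos_of_ne_zero (hK.fin 0).index_ne_zero
  have h1 := hlim.eventually (gt_mem_nhds (mul_pos hc h0))
  obtain ⟨i, h2, h3⟩ := (h.and h1).exists
  linarith

end Pool.Agent.N504.TG
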