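import Pool.Agent.W907.SG.All
import Pool.Agent.Y132.SI.Betti

/-!
# Subgroups of finite index whose quotients have no elements of order `p`
-/

set_option autoImplicit false

namespace Pool.Agent.N504.TG

open Pool.Agent.W907.SG Pool.Agent.W461.SGN

variable {V : Type} (G : SimpleGraph V)

/-- normal subgroups of finite index, consisting of elements with trivial image in `(ℤ/2)^V`, in which
every element has a power with exponent `2 q^k` -/
structure QQ (q : ℕ) (H : Subgroup (W G)) : Prop where
  nor : H.Normal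
  fin : H.FiniteIndex
  ker : H ≤ (th G).ker
  pow : ∀ g : W G, ∃ k : ℕ, g ^ (2 * q ^ k) ∈ H

variable {G}

theorem QQ.inf {q : ℕ} {H K : Subgroup (W G)} (h1 : QQ G q H) (h2 : QQ G q K) : QQ G q (H ⊓ K) := by
  haveI := h1.nor
  haveI := h2.nor
  haveI := h1.fin
  haveI := h2.fin
  refine ⟨inferInstance, inferInstance, inf_le_left.trans h1.ker, fun g => ?_⟩
  obtain ⟨k, hk⟩ := h1.pow g
  obtain ⟨l, hl⟩ := h2.pow g
  refine ⟨k + l, ?_, ?_⟩
  · have : g ^ (2 * q ^ (k + l)) = (g ^ (2 * q ^ k)) ^ (q ^ l) := by rw [← pow_mul]; congr 1; ring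
    rw [this]
    exact H.pow_mem hk _
  · have : g ^ (2 * q ^ (k + l)) = (g ^ (2 * q ^ l)) ^ (q ^ k) := by rw [← pow_mul]; congr 1; ring
    rw [this]
    exact K.pow_mem hl _

theorem wp_surj (g : W G) : ∃ l : List V, wp G l = g := by
  obtain ⟨l, hl⟩ := (cox G).toCoxeterSystem.wordProd_surjective g
  exact ⟨l, hl⟩

theorem wp_append (l l' : List V) : wp G (l ++ l') = wp G l * wp G l' := by
  unfold wp
  rw [List.map_append, List.prod_append]

theorem even_double (l : List V) : EvenWord (l ++ l) := by
  intro χ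
  rw [List.map_append, List.prod_append]
  exact Int.units_mul_self _

theorem qq_exists [Finite V] (q : ℕ) [Fact q.Prime] (hq : q ≠ 2) (E : Finset (W G)) (hE : (1 : W G) ∉ E) :
    ∃ H : Subgroup (W G), QQ G q H ∧ ∀ g ∈ E, g ∉ H := by
  obtain ⟨Y, _, _, P, ev, e1, e2, e3, e4⟩ := nilp q V G E hq hE
  have hinv : ∀ g y, ev (ev y g) g⁻¹ = y := fun g y => by rw [← e2, mul_inv_cancel, e1]
  have hinv' : ∀ g y, ev (ev y g⁻¹) g = y := fun g y => by rw [← e2, inv_mul_cancel, e1]
  let φ : W G →* Equiv.Perm Y :=
    { toFun := fun g => ⟨fun y => ev y g⁻¹, fun y => ev y g, fun y => hinv' g y, fun y => hinv g y⟩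
      map_one' := by
        ext y
        show ev y (1 : W G)⁻¹ = y
        rw [inv_one, e1]
      map_mul' := fun g h => by
        ext y
        show ev y (g * h)⁻¹ = ev (ev y h⁻¹) g⁻¹
        rw [mul_inv_rev, e2] }
  have hφ : ∀ g, g ∈ φ.ker ↔ ∀ y, ev y g = y := by
    intro g
    rw [MonoidHom.mem_ker]
    constructor
    · intro h y
      have h1 : ev y g⁻¹ = y := congrArg (fun σ : Equiv.Perm Y => σ y) h
      conv_lhs => rw [← h1]
      exact hinv' g y
    · intro h
      ext y
      show ev y g⁻¹ = y
      conv_lhs => rw [← h y]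
      exact hinv g y
  haveI : Finite (Equiv.Perm Y) := inferInstance
  haveI : φ.ker.FiniteIndex := inferInstance
  haveI : Finite (V → ℤˣ) := inferInstance
  haveI : (th G).ker.FiniteIndex := inferInstance
  refine ⟨φ.ker ⊓ (th G).ker, ⟨inferInstance, inferInstance, inf_le_right, fun g => ?_⟩, ?_⟩
  · obtain ⟨l, rfl⟩ := wp_surj g
    have he := even_double l
    obtain ⟨k, hk⟩ := P.ptype (l ++ l).reverse (even_reverse _ he)
    have hev : ∀ (l : List V) (y : Y), ev y (wp G l) = l.reverse.foldr P.a y := by
      intro l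
      induction l with
      | nil => intro y; simp [wp, e1]
      | cons s l ih =>
        intro y
        have : wp G (s :: l) = (cox G).simple s * wp G l := by simp [wp]
        rw [this, e2, e3, ih, List.reverse_cons, List.foldr_append]
        rfl
    refine ⟨k, Subgroup.mem_inf.2 ⟨(hφ _).2 ?_, MonoidHom.mem_ker.2 ?_⟩⟩
    · intro y
      have h1 : ∀ (n : ℕ) (y : Y), ev y (wp G (l ++ l) ^ n) = (fun y => (l ++ l).reverse.foldr P.a y)^[n] y := by
        intro n
        induction n with
        | zero => intro y; simp [e1]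
        | succ n ih => intro y; rw [pow_succ', e2, ih, hev, Function.iterate_succ_apply]
      have h2 : wp G l ^ (2 * q ^ k) = wp G (l ++ l) ^ (q ^ k) := by
        rw [wp_append, pow_mul, pow_two]
      rw [h2, h1, hk]
    · have h2 : wp G l ^ (2 * q ^ k) = wp G (l ++ l) ^ (q ^ k) := by
        rw [wp_append, pow_mul, pow_two]
      rw [h2, map_pow, th_even G _ he, one_pow]
  · intro g hg hmem
    have h1 := (hφ g).1 (Subgroup.mem_inf.1 hmem).1
    have y : Y := Classical.arbitrary Y
    exact e4 g hg y (h1 y)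

theorem countable_W [Finite V] : Countable (W G) := by
  haveI : Countable (List V) := inferInstance
  exact (Function.Surjective.countable (f := fun l : List V => wp G l) wp_surj)

/-- residual chains -/
theorem chain_exists (G : SimpleGraph V) [Finite V] (q : ℕ) [Fact q.Prime] (hq : q ≠ 2) :
    ∃ H : ℕ → Subgroup (W G), Antitone H ∧ (∀ n, QQ G q (H n)) ∧
      ∀ E : Finset (W G), (1 : W G) ∉ E → ∃ n, ∀ m, n ≤ m → ∀ g ∈ E, g ∉ H m := by
  classical
  haveI := countable_W (G := G)
  obtain ⟨f, hf⟩ := exists_surjective_nat (W G)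
  have h1 : ∀ i, ∃ K : Subgroup (W G), QQ G q K ∧ (f i ≠ 1 → f i ∉ K) := by
    intro i
    by_cases hi : f i = 1
    · obtain ⟨K, hK, -⟩ := qq_exists (G := G) q hq ∅ (Finset.notMem_empty _)
      exact ⟨K, hK, fun h => absurd hi h⟩
    · obtain ⟨K, hK, h⟩ := qq_exists (G := G) q hq {f i} (by simpa using Ne.symm hi)
      exact ⟨K, hK, fun _ => h _ (Finset.mem_singleton_self _)⟩
  choose K hK1 hK2 using h1
  let H : ℕ → Subgroup (W G) := fun n => Nat.rec (K 0) (fun n A => A ⊓ K (n + 1)) n
  have hH : ∀ n, H (n + 1) = H n ⊓ K (n + 1) := fun n => rfl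
  have hanti : Antitone H := antitone_nat_of_succ_le fun n => by rw [hH]; exact inf_le_left
  have hHK : ∀ n, H n ≤ K n := by
    intro n
    rcases n with _ | n
    · exact le_rfl
    · rw [hH]; exact inf_le_right
  refine ⟨H, hanti, fun n => ?_, fun E hE => ?_⟩
  · induction n with
    | zero => exact hK1 0
    | succ n ih => rw [hH]; exact ih.inf (hK1 _)
  · choose i hi using fun g => hf g
    refine ⟨E.sup i, fun m hm g hg hgm => ?_⟩
    have h2 : i g ≤ m := (Finset.le_sup hg).trans hm
    have h3 : f (i g) ≠ 1 := by rw [hi]; exact fun e => hE (e ▸ hg)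
    exact hK2 (i g) h3 (by rw [hi]; exact hHK _ (hanti h2 hgm))

/-- two generators which are not adjacent generate an infinite dihedral group -/
theorem inf_order (s t : V) (hst : s ≠ t) (hna : ¬ G.Adj s t) (j : ℕ) (hj : 0 < j) :
    ((cox G).simple s * (cox G).simple t) ^ j ≠ 1 := by
  classical
  let f : V → DihedralGroup 0 := fun v => if v = s then DihedralGroup.sr 0 else if v = t then DihedralGroup.sr 1 else 1
  have hf : (cox G).IsLiftable f := by
    refine liftable G f ?_ ?_
    · intro v
      simp only [f]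
      split_ifs
      · rw [DihedralGroup.sr_mul_sr, sub_self, DihedralGroup.one_def]
      · rw [DihedralGroup.sr_mul_sr, sub_self, DihedralGroup.one_def]
      · rw [one_mul]
    · intro u v huv
      simp only [f]
      by_cases h1 : u = s
      · by_cases h2 : v = s
        · rw [h1, h2] at huv; exact absurd rfl huv.ne
        · by_cases h3 : v = t
          · rw [h1, h3] at huv; exact absurd huv hna
          · simp [h2, h3]
      · by_cases h2 : u = t
        · by_cases h3 : v = s
          · rw [h2, h3] at huv; exact absurd huv.symm hna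
          · by_cases h4 : v = t
            · rw [h2, h4] at huv; exact absurd rfl huv.ne
            · simp [h3, h4]
        · simp [h1, h2]
  let π : W G →* DihedralGroup 0 := (cox G).toCoxeterSystem.lift ⟨f, hf⟩
  have hπ : ∀ v, π ((cox G).simple v) = f v := fun v => CoxeterSystem.lift_apply_simple _ _ _
  intro h
  have h1 := congrArg π h
  rw [map_pow, map_mul, hπ, hπ, map_one] at h1
  simp only [f, if_true, if_neg (Ne.symm hst)] at h1
  rw [DihedralGroup.sr_mul_sr, sub_zero, DihedralGroup.r_one_pow, DihedralGroup.one_def] at h1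
  have h2 : ((j : ℕ) : ZMod 0) = 0 := DihedralGroup.r.inj h1
  have h3 : ((j : ℕ) : ℤ) = 0 := h2
  omega

end Pool.Agent.N504.TG
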