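import Pool.Agent.R782.Bal.CsDef

/-!
# Octahedralizations in coloured complexes
-/

set_option autoImplicit false

namespace Pool.Agent.N504.TG

/-- `L` is a graph with a proper colouring `κ` (of the simplices in the support of `z`) by `d + 1` colours, `z` is a
nonzero `d`-cycle modulo `p` of the flag complex of `L`, and `e` is an injective map of the vertices `u^±` of the
octahedralization `OL` to the vertices of the complex `X`, which maps the edges of `OL` to edges of `X` and respects
the colours. A `d`-simplex of the flag complex of `L` (whose vertices have all the colours) is given by the function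
`w` which maps every colour to the vertex of this colour; with the orientations of the simplices given by the order of
the colours, `z` is a cycle if and only if, for all `w` and all the colours `i`, the sum of the coefficients of the
simplices which agree with `w` outside of the colour `i` is zero. -/
structure OctIn (p d : ℕ) {N n : ℕ} (X : Finset (Finset (Fin N))) (col : Fin N → Fin (d + 1))
    (L : SimpleGraph (Fin n)) (κ : Fin n → Fin (d + 1)) (e : Fin n → Bool → Fin N)
    (z : (Fin (d + 1) → Fin n) → ZMod p) : Prop where
  /-- different vertices of `OL` are mapped to different vertices -/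
  inj : ∀ u b u' b', e u b = e u' b' → u = u' ∧ b = b'
  /-- the colours agree -/
  colour : ∀ u b, col (e u b) = κ u
  /-- the vertices of `OL` are mapped to vertices of `X` -/
  vertex : ∀ u b, {e u b} ∈ X
  /-- the edges of `OL` are mapped to edges of `X` -/
  edge : ∀ u u', L.Adj u u' → ∀ b b', {e u b, e u' b'} ∈ X
  /-- `z` is supported on the `d`-simplices of the flag complex of `L` -/
  supp : ∀ w, z w ≠ 0 → (∀ i, κ (w i) = i) ∧ ∀ i j, i ≠ j → L.Adj (w i) (w j)
  /-- `z` is a cycle -/
  cyc : ∀ w i, ∑ u, z (Function.update w i u) = 0
  /-- `z` is not zero -/
  ne : ∃ w, z w ≠ 0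

/-- `X` is a finite simplicial complex, its vertices are coloured by `d + 1` colours, every monochromatic simplex has
at most two vertices, and `X` is embedded in the sphere of dimension `2 d` in the sense of `EmbX`. -/
structure ColX (d : ℕ) {N : ℕ} (X : Finset (Finset (Fin N))) (col : Fin N → Fin (d + 1)) : Prop where
  /-- the faces of simplices are simplices -/
  down : ∀ σ ∈ X, ∀ τ : Finset (Fin N), τ ⊆ σ → τ ∈ X
  /-- monochromatic simplices have at most two vertices -/
  mono : ∀ σ ∈ X, ∀ c, (∀ v ∈ σ, col v = c) → σ.card ≤ 2
  /-- `X` is embedded in the sphere of dimension `2 d` -/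
  emb : Pool.Agent.R782.Bal.EmbX d X col

end Pool.Agent.N504.TG
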