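import Pool.Agent.W290.SG.HODR
import Pool.Agent.W907.SG.All

/-!
# Integral chains and torsion
-/

set_option autoImplicit false

namespace Pool.Agent.N504.TG

open Module Pool.Agent.W907.SG
open Pool.Agent.W334.SG (Hyp Phi Phi_apply Phi_mem Phi_surj ee ee_anti XI)

section defs
variable {V X : Type} [Fintype V] [LinearOrder V]

/-- the integral boundary operator -/
def bdZ : (Finset V → X → ℤ) →ₗ[ℤ] (Finset V → X → ℤ) where
  toFun c T := ∑ v ∈ Tᶜ, sg v T • c (insert v T)
  map_add' c d := by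
    funext T
    simp [Finset.sum_add_distrib]
  map_smul' a c := by
    funext T
    simp only [Pi.smul_apply, RingHom.id_apply, Finset.smul_sum]
    refine Finset.sum_congr rfl fun v _ => ?_
    exact smul_comm _ _ _

theorem bdZ_apply (c : Finset V → X → ℤ) (T : Finset V) :
    bdZ c T = ∑ v ∈ Tᶜ, sg v T • c (insert v T) := rfl

/-- the integral `i`-chains on a set with an action -/
def CZ (G : SimpleGraph V) (a : V → X → X) (i : ℕ) : Submodule ℤ (Finset V → X → ℤ) where
  carrier := {c | (∀ T : Finset V, ¬ (G.IsClique (T : Set V) ∧ T.card = i) → c T = 0) ∧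
      ∀ (T : Finset V) (t : V), t ∈ T → ∀ x, c T (a t x) = - c T x}
  add_mem' := by
    rintro c d ⟨h1, h2⟩ ⟨h3, h4⟩
    refine ⟨fun T hT => by simp [h1 T hT, h3 T hT], fun T t ht x => ?_⟩
    simp only [Pi.add_apply, h2 T t ht, h4 T t ht]; ring
  zero_mem' := ⟨fun _ _ => rfl, fun _ _ _ _ => by simp⟩
  smul_mem' := by
    rintro m c ⟨h1, h2⟩
    refine ⟨fun T hT => by simp [h1 T hT], fun T t ht x => ?_⟩
    simp only [Pi.smul_apply, h2 T t ht, smul_neg]

omit [Fintype V] [LinearOrder V] in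
theorem mem_CZ {G : SimpleGraph V} {a : V → X → X} {i : ℕ} {c : Finset V → X → ℤ} : c ∈ CZ G a i ↔
    (∀ T : Finset V, ¬ (G.IsClique (T : Set V) ∧ T.card = i) → c T = 0) ∧
      ∀ (T : Finset V) (t : V), t ∈ T → ∀ x, c T (a t x) = - c T x := Iff.rfl

omit [Fintype V] [LinearOrder V] in
theorem CZ_pure {G : SimpleGraph V} {a : V → X → X} {i : ℕ} {c : Finset V → X → ℤ} {m : ℤ} (hm : m ≠ 0)
    (h : m • c ∈ CZ G a i) : c ∈ CZ G a i := by
  obtain ⟨h1, h2⟩ := h
  refine ⟨fun T hT => ?_, fun T t ht x => ?_⟩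
  · funext x
    have := congrFun (h1 T hT) x
    exact (smul_eq_zero.1 this).resolve_left hm
  · have := h2 T t ht x
    simp only [Pi.smul_apply, smul_eq_mul] at this
    have h3 : m * (c T (a t x) + c T x) = 0 := by linear_combination this
    linarith [(mul_eq_zero.1 h3).resolve_left hm]

theorem bdZ_mem {G : SimpleGraph V} {a : V → X → X} {i : ℕ} {c : Finset V → X → ℤ}
    (h : c ∈ CZ G a (i + 1)) : bdZ c ∈ CZ G a i := by
  obtain ⟨h1, h2⟩ := h
  refine ⟨fun T hT => ?_, fun T t ht x => ?_⟩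
  · rw [bdZ_apply]
    refine Finset.sum_eq_zero fun v hv => ?_
    rw [h1 (insert v T), smul_zero]
    rintro ⟨h3, h5⟩
    apply hT
    refine ⟨h3.subset (by simp), ?_⟩
    rw [Finset.card_insert_of_notMem (by simpa using hv)] at h5
    omega
  · rw [bdZ_apply, Finset.sum_apply, Finset.sum_apply, ← Finset.sum_neg_distrib]
    refine Finset.sum_congr rfl fun v _ => ?_
    rw [Pi.smul_apply, Pi.smul_apply, h2 (insert v T) t (by simp [ht]), smul_neg]

/-- change of coefficients -/
def red (F : Type) [Field F] (c : Finset V → X → ℤ) : Finset V → X → F := fun T x => (c T x : F)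

theorem red_bd (F : Type) [Field F] (c : Finset V → X → ℤ) : red F (bdZ c) = bd F (red F c) := by
  funext T x
  rw [bd_apply, Finset.sum_apply]
  simp only [red, bdZ_apply, Finset.sum_apply, Int.cast_sum]
  refine Finset.sum_congr rfl fun v _ => ?_
  rw [Pi.smul_apply, Pi.smul_apply, smul_eq_mul, zsmul_eq_mul, Int.cast_mul]
  rfl

omit [Fintype V] [LinearOrder V] in
theorem red_mem (F : Type) [Field F] {G : SimpleGraph V} {a : V → X → X} {i : ℕ} {c : Finset V → X → ℤ}
    (h : c ∈ CZ G a i) : red F c ∈ KK G (pull F a) Set.univ ∅ i := by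
  rw [mem_KK]
  refine ⟨fun T hT => ?_, fun T t ht => ?_⟩
  · funext x
    have := h.1 T (fun h => hT ⟨h.1, Set.subset_univ _, h.2⟩)
    simp [red, this]
  · have ht : t ∈ T := by simpa using ht
    funext x
    rw [pull_apply, Pi.neg_apply]
    simp only [red, h.2 T t ht, Int.cast_neg]

omit [Fintype V] [LinearOrder V] in
theorem red_smul (F : Type) [Field F] (m : ℤ) (c : Finset V → X → ℤ) : red F (m • c) = (m : F) • red F c := by
  funext T x
  simp [red]

omit [Fintype V] [LinearOrder V] in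
theorem red_sub (F : Type) [Field F] (c d : Finset V → X → ℤ) : red F (c - d) = red F c - red F d := by
  funext T x
  simp [red]

omit [Fintype V] [LinearOrder V] in
theorem red_sum (F : Type) [Field F] {ι : Type} (s : Finset ι) (c : ι → Finset V → X → ℤ) :
    red F (∑ i ∈ s, c i) = ∑ i ∈ s, red F (c i) := by
  funext T x
  simp [red, Finset.sum_apply]

omit [Fintype V] [LinearOrder V] in
theorem red_zero_iff (p : ℕ) [Fact p.Prime] (c : Finset V → X → ℤ) : red (ZMod p) c = 0 ↔ ∃ y, c = (p : ℤ) • y := by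
  constructor
  · intro h
    have h1 : ∀ T x, ∃ y : ℤ, c T x = p * y := by
      intro T x
      have h2 := congrFun (congrFun h T) x
      exact (ZMod.intCast_zmod_eq_zero_iff_dvd _ _).1 h2
    choose y hy using h1
    exact ⟨y, funext fun T => funext fun x => by rw [hy]; rfl⟩
  · rintro ⟨y, rfl⟩
    funext T x
    simp [red]

/-- the boundaries -/
def BZ (G : SimpleGraph V) (a : V → X → X) (i : ℕ) : Submodule ℤ (Finset V → X → ℤ) :=
  (CZ G a (i + 1)).map bdZ

end defs

section lift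
variable {V X : Type} [Fintype V] [LinearOrder V] [Fintype X] {G : SimpleGraph V} {a : V → X → X}
  {sgn : V → X → Bool}

theorem ee_mem (H : Hyp G a sgn) {i : ℕ} (p : XI G sgn i) : (fun T x => ee G a sgn p T x) ∈ CZ G a i := by
  refine ⟨fun T hT => ?_, fun T t ht x => ee_anti H p T t ht x⟩
  funext y
  have hp : p.1.2 ≠ T := by
    intro h
    exact hT ⟨h ▸ p.2.1, h ▸ p.2.2.1⟩
  simp [ee, hp]

/-- mod `p` chains lift to integral chains -/
theorem lift_exists (p : ℕ) [Fact p.Prime] (H : Hyp G a sgn) (i : ℕ) (c : Finset V → X → ZMod p)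
    (hc : c ∈ KK G (pull (ZMod p) a) Set.univ ∅ i) : ∃ d ∈ CZ G a i, red (ZMod p) d = c := by
  have h1 := Phi_surj (ZMod p) H i c hc
  refine ⟨∑ q : XI G sgn i, ((c q.1.2 q.1.1).val : ℤ) • (fun T x => ee G a sgn q T x), ?_, ?_⟩
  · exact Submodule.sum_mem _ fun q _ => Submodule.smul_mem _ _ (ee_mem H q)
  · rw [red_sum]
    rw [← h1]
    funext T x
    rw [Phi_apply, Finset.sum_apply, Finset.sum_apply]
    refine Finset.sum_congr rfl fun q _ => ?_
    rw [red_smul]
    simp [red, h1]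

/-- the real boundaries are spanned by the integral boundaries -/
theorem BB_span (H : Hyp G a sgn) (i : ℕ) (b : Finset V → X → ℝ) (hb : b ∈ BB G (pull ℝ a) Set.univ ∅ i) :
    b ∈ Submodule.span ℝ (red ℝ '' (BZ G a i : Set (Finset V → X → ℤ))) := by
  obtain ⟨c, hc, rfl⟩ := hb
  have h1 := Phi_surj ℝ H (i + 1) c hc
  have h2 : c = ∑ q : XI G sgn (i + 1), c q.1.2 q.1.1 • red ℝ (fun T x => ee G a sgn q T x) := by
    conv_lhs => rw [← h1]
    funext T x
    rw [Phi_apply, Finset.sum_apply, Finset.sum_apply]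
    rfl
  rw [h2, map_sum]
  refine Submodule.sum_mem _ fun q _ => ?_
  rw [map_smul, ← red_bd]
  refine Submodule.smul_mem _ _ (Submodule.subset_span ⟨_, ?_, rfl⟩)
  exact ⟨_, ee_mem H q, rfl⟩

end lift

/-! ### functionals -/

theorem exists_dual {K E ι : Type} [Field K] [AddCommGroup E] [Module K E] [Fintype ι] [DecidableEq ι]
    (W : Submodule K E) (v : ι → E) (h : ∀ l : ι → K, ∑ i, l i • v i ∈ W → l = 0) :
    ∃ φ : ι → E →ₗ[K] K, (∀ i, ∀ w ∈ W, φ i w = 0) ∧ ∀ i j, φ i (v j) = if i = j then 1 else 0 := by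
  let f : (ι → K) →ₗ[K] (E ⧸ W) := W.mkQ.comp (Fintype.linearCombination K v)
  have hf : LinearMap.ker f = ⊥ := by
    rw [eq_bot_iff]
    intro l hl
    rw [Submodule.mem_bot]
    refine h l ?_
    have h1 : W.mkQ (Fintype.linearCombination K v l) = 0 := hl
    rw [Submodule.mkQ_apply, Submodule.Quotient.mk_eq_zero, Fintype.linearCombination_apply] at h1
    exact h1
  obtain ⟨g, hg⟩ := LinearMap.exists_leftInverse_of_injective f hf
  refine ⟨fun i => (LinearMap.proj i).comp (g.comp W.mkQ), ?_, ?_⟩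
  · intro i w hw
    show g (W.mkQ w) i = 0
    rw [Submodule.mkQ_apply, (Submodule.Quotient.mk_eq_zero W).2 hw, map_zero]
    rfl
  · intro i j
    show g (W.mkQ (v j)) i = _
    have h1 : f (Pi.single j 1) = W.mkQ (v j) := by
      show W.mkQ (Fintype.linearCombination K v (Pi.single j 1)) = _
      rw [Fintype.linearCombination_apply_single, one_smul]
    rw [← h1]
    have h2 := congrArg (fun φ => φ (Pi.single j 1)) hg
    have h3 : g (f (Pi.single j 1)) = Pi.single j 1 := h2
    rw [h3, Pi.single_apply]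

section pairing
variable {V X : Type} [Fintype V] [Fintype X] {F : Type} [Field F]

/-- the pairing -/
def pair (f c : Finset V → X → F) : F := ∑ T, ∑ x, f T x * c T x

theorem exists_pair [DecidableEq V] [DecidableEq X] (φ : (Finset V → X → F) →ₗ[F] F) :
    ∃ f : Finset V → X → F, ∀ c, φ c = pair f c := by
  refine ⟨fun T x => φ (Pi.single T (Pi.single x 1)), fun c => ?_⟩
  unfold pair
  have h1 : c = ∑ T, ∑ x, c T x • (Pi.single T (Pi.single x 1) : Finset V → X → F) := by
    funext T x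
    rw [Finset.sum_apply, Finset.sum_apply, Finset.sum_eq_single T, Finset.sum_apply, Finset.sum_apply,
      Finset.sum_eq_single x]
    · simp
    · intro y _ hy
      simp [Pi.single_eq_of_ne (Ne.symm hy)]
    · intro h; exact absurd (Finset.mem_univ _) h
    · intro S _ hS
      rw [Finset.sum_apply, Finset.sum_apply]
      refine Finset.sum_eq_zero fun y _ => ?_
      rw [Pi.smul_apply, Pi.single_eq_of_ne (Ne.symm hS)]
      simp
    · intro h; exact absurd (Finset.mem_univ _) h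
  conv_lhs => rw [h1]
  rw [map_sum]
  refine Finset.sum_congr rfl fun T _ => ?_
  rw [map_sum]
  refine Finset.sum_congr rfl fun x _ => ?_
  rw [map_smul, smul_eq_mul, mul_comm]

end pairing

section sys
variable {V X : Type} [Fintype V] [LinearOrder V] [Fintype X]

/-- `f` is dual to the family `x` of `k`-cycles mod `p` and vanishes on the boundaries -/
structure Dual (p : ℕ) [Fact p.Prime] (G : SimpleGraph V) (a : V → X → X) (k : ℕ) {ι : Type} [DecidableEq ι]
    (x : ι → Finset V → X → ℤ) (f : ι → Finset V → X → ZMod p) : Prop where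
  fs : ∀ i (T : Finset V), T.card ≠ k → f i T = 0
  fb : ∀ i, ∀ c ∈ KK G (pull (ZMod p) a) Set.univ ∅ (k + 1), pair (f i) (bd (ZMod p) c) = 0
  fx : ∀ i j, pair (f i) (red (ZMod p) (x j)) = if i = j then 1 else 0

theorem dual_exists (p : ℕ) [Fact p.Prime] (G : SimpleGraph V) (a : V → X → X) (k : ℕ) {ι : Type} [Fintype ι]
    [DecidableEq ι] (x : ι → Finset V → X → ℤ) (hx : ∀ i, x i ∈ CZ G a k)
    (h : ∀ l : ι → ZMod p, ∑ i, l i • red (ZMod p) (x i) ∈ BB G (pull (ZMod p) a) Set.univ ∅ k → l = 0) :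
    ∃ f, Dual p G a k x f := by
  classical
  obtain ⟨φ, h1, h2⟩ := exists_dual (BB G (pull (ZMod p) a) Set.univ ∅ k) (fun i => red (ZMod p) (x i)) h
  choose f hf using fun i => exists_pair (φ i)
  -- restrict to the sets with `k` elements
  have hres : ∀ i (c : Finset V → X → ZMod p), (∀ T : Finset V, T.card ≠ k → c T = 0) →
      pair (fun T => if T.card = k then f i T else 0) c = pair (f i) c := by
    intro i c hc
    unfold pair
    refine Finset.sum_congr rfl fun T _ => ?_
    by_cases hT : T.card = k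
    · simp only [if_pos hT]
    · simp [hc T hT]
  refine ⟨fun i T => if T.card = k then f i T else 0, ?_, ?_, ?_⟩
  · intro i T hT
    simp only [if_neg hT]
  · intro i c hc
    rw [hres i _ (fun T hT => (mem_KK.1 (bd_mem_KK hc)).1 T (fun h => hT h.2.2)), ← hf]
    exact h1 i _ ⟨c, hc, rfl⟩
  · intro i j
    rw [hres i _ (fun T hT => ?_), ← hf, h2]
    exact (mem_KK.1 (red_mem (ZMod p) (hx j))).1 T (fun h => hT h.2.2)

/-- torsion cycles detected mod `p`, together with bounding chains -/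
def TSys (p : ℕ) [Fact p.Prime] (G : SimpleGraph V) (a : V → X → X) (k : ℕ) (ι : Type) [DecidableEq ι] : Prop :=
  ∃ (x u : ι → Finset V → X → ℤ) (m : ι → ℤ) (f g : ι → Finset V → X → ZMod p),
    (∀ i, x i ∈ CZ G a k) ∧ (∀ i, u i ∈ CZ G a (k + 1)) ∧ (∀ i, bdZ (u i) = m i • x i) ∧
    (∀ i, bdZ (x i) = 0) ∧ (∀ i, (p : ℤ) ∣ m i) ∧ (∀ i, m i ≠ 0) ∧ Dual p G a k x f ∧ Dual p G a (k + 1) u g

/-- torsion cycles detected mod `p` -/
def XSys (p : ℕ) [Fact p.Prime] (G : SimpleGraph V) (a : V → X → X) (k : ℕ) (ι : Type) [DecidableEq ι] : Prop :=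
  ∃ (x u : ι → Finset V → X → ℤ) (m : ι → ℤ) (f : ι → Finset V → X → ZMod p),
    (∀ i, x i ∈ CZ G a k) ∧ (∀ i, u i ∈ CZ G a (k + 1)) ∧ (∀ i, bdZ (u i) = m i • x i) ∧
    (∀ i, bdZ (x i) = 0) ∧ (∀ i, m i ≠ 0) ∧ Dual p G a k x f

end sys

section bdbd
variable {V X : Type} [Fintype V] [LinearOrder V]

theorem bdZ_bdZ (c : Finset V → X → ℤ) : bdZ (bdZ c) = 0 := by
  have h1 : red ℚ (bdZ (bdZ c)) = 0 := by rw [red_bd, red_bd, bd_bd]
  funext T x
  have h2 : ((bdZ (bdZ c) T x : ℤ) : ℚ) = 0 := congrFun (congrFun h1 T) x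
  exact_mod_cast h2

end bdbd

section snf
variable {V X : Type} [Fintype V] [LinearOrder V] [Fintype X] {G : SimpleGraph V} {a : V → X → X}
  {sgn : V → X → Bool}

theorem tsys_exists (p : ℕ) [Fact p.Prime] (H : Hyp G a sgn) (k : ℕ) :
    ∃ (ι : Type) (_ : Fintype ι) (_ : DecidableEq ι), TSys p G a k ι ∧
      finrank ℝ (BB G (pull ℝ a) Set.univ ∅ k) ≤
        Fintype.card ι + finrank (ZMod p) (BB G (pull (ZMod p) a) Set.univ ∅ k) := by
  classical
  obtain ⟨n, S⟩ := (BZ G a k).smithNormalForm (Module.Free.chooseBasis ℤ (Finset V → X → ℤ))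
  -- boundaries in coordinates
  have hco : ∀ b ∈ BZ G a k, ∃ ν : Fin n → ℤ, b = ∑ i, (ν i * S.a i) • S.bM (S.f i) := by
    intro b hb
    refine ⟨fun i => S.bN.repr ⟨b, hb⟩ i, ?_⟩
    have h1 := S.bN.sum_repr ⟨b, hb⟩
    have h2 : _ = b := congrArg Subtype.val h1
    rw [AddSubmonoidClass.coe_finsetSum] at h2
    refine h2.symm.trans (Finset.sum_congr rfl fun i _ => ?_)
    rw [mul_smul, ← S.snf]
    rfl
  -- comparison of coordinates
  have hcoord : ∀ (l : Fin n → ℤ) (y : Finset V → X → ℤ) (c : ℤ), ∑ i, l i • S.bM (S.f i) = c • y →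
      ∀ i, l i = c * S.bM.repr y (S.f i) := by
    intro l y c h i
    have h1 := congrArg (fun z => S.bM.repr z (S.f i)) h
    simp only [map_sum, map_smul, Finsupp.smul_apply, smul_eq_mul, Finsupp.coe_finsetSum, Finset.sum_apply,
      Basis.repr_self] at h1
    rw [Finset.sum_eq_single i] at h1
    · simpa using h1
    · intro j _ hj
      rw [Finsupp.single_apply, if_neg (fun e => hj (S.f.injective e)), mul_zero]
    · intro h; exact absurd (Finset.mem_univ _) h
  have ha0 : ∀ i, S.a i ≠ 0 := by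
    intro i h
    have h1 := S.snf i
    rw [h, zero_smul] at h1
    exact S.bN.ne_zero i (Subtype.ext h1)
  have hu : ∀ i, ∃ u ∈ CZ G a (k + 1), bdZ u = S.a i • S.bM (S.f i) := by
    intro i
    obtain ⟨u, hu1, hu2⟩ := (S.bN i).2
    exact ⟨u, hu1, by rw [hu2, S.snf]⟩
  choose u hu1 hu2 using hu
  have hxm : ∀ i, S.bM (S.f i) ∈ CZ G a k := fun i => CZ_pure (ha0 i) (by rw [← hu2]; exact bdZ_mem (hu1 i))
  have hx0 : ∀ i, bdZ (S.bM (S.f i)) = 0 := by
    intro i
    have h1 : S.a i • bdZ (S.bM (S.f i)) = 0 := by rw [← map_smul, ← hu2, bdZ_bdZ]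
    exact (smul_eq_zero.1 h1).resolve_left (ha0 i)
  let ι := {i : Fin n // (p : ℤ) ∣ S.a i}
  -- sums over `ι` as sums over `Fin n`
  have hsum : ∀ (l : ι → ℤ) (w : Fin n → Finset V → X → ℤ),
      ∑ i : ι, l i • w i.1 = ∑ i : Fin n, (if h : (p : ℤ) ∣ S.a i then l ⟨i, h⟩ else 0) • w i := by
    intro l w
    rw [← Fintype.sum_of_injective (Subtype.val : ι → Fin n) Subtype.val_injective
      (fun i : ι => l i • w i.1)]
    · intro i hi
      rw [dif_neg, zero_smul]
      intro h
      exact hi ⟨⟨i, h⟩, rfl⟩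
    · intro i
      rw [dif_pos i.2]
  have hcast : ∀ l : ZMod p, ((l.val : ℤ) : ZMod p) = l := by
    intro l
    rw [Int.cast_natCast, ZMod.natCast_zmod_val]
  have hdvd : ∀ l : ZMod p, (p : ℤ) ∣ (l.val : ℤ) → l = 0 := by
    intro l h
    rw [← hcast l, (ZMod.intCast_zmod_eq_zero_iff_dvd _ _).2 h]
  refine ⟨ι, inferInstance, inferInstance, ?_, ?_⟩
  · obtain ⟨f, hf⟩ := dual_exists p G a k (fun i : ι => S.bM (S.f i.1)) (fun i => hxm i.1) (by
      rintro l ⟨c, hc, hcl⟩
      obtain ⟨d, hd, rfl⟩ := lift_exists p H _ c hc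
      obtain ⟨ν, hν⟩ := hco (bdZ d) ⟨d, hd, rfl⟩
      have h1 : red (ZMod p) (∑ i : ι, ((l i).val : ℤ) • S.bM (S.f i.1) - bdZ d) = 0 := by
        rw [red_sub, red_sum, red_bd, hcl, sub_eq_zero]
        refine Finset.sum_congr rfl fun i _ => ?_
        rw [red_smul, hcast]
      obtain ⟨y, hy⟩ := (red_zero_iff p _).1 h1
      rw [hν, hsum (fun i => ((l i).val : ℤ)) (fun i => S.bM (S.f i)), ← Finset.sum_sub_distrib] at hy
      have h2 : ∑ i : Fin n, ((if h : (p : ℤ) ∣ S.a i then ((l ⟨i, h⟩).val : ℤ) else 0) - ν i * S.a i) •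
          S.bM (S.f i) = (p : ℤ) • y := by
        rw [← hy]
        refine Finset.sum_congr rfl fun i _ => ?_
        rw [sub_smul]
      have h3 := hcoord _ y p h2
      funext i
      have h4 := h3 i.1
      rw [dif_pos i.2] at h4
      refine hdvd _ ?_
      have h5 : ((l i).val : ℤ) = p * S.bM.repr y (S.f i.1) + ν i.1 * S.a i.1 := by linarith
      rw [h5]
      exact dvd_add (dvd_mul_right _ _) (Dvd.dvd.mul_left i.2 _))
    obtain ⟨g, hg⟩ := dual_exists p G a (k + 1) (fun i : ι => u i.1) (fun i => hu1 i.1) (by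
      rintro l ⟨c, hc, hcl⟩
      obtain ⟨d, hd, rfl⟩ := lift_exists p H _ c hc
      have h1 : red (ZMod p) (∑ i : ι, ((l i).val : ℤ) • u i.1 - bdZ d) = 0 := by
        rw [red_sub, red_sum, red_bd, hcl, sub_eq_zero]
        refine Finset.sum_congr rfl fun i _ => ?_
        rw [red_smul, hcast]
      obtain ⟨y, hy⟩ := (red_zero_iff p _).1 h1
      have hp0 : (p : ℤ) ≠ 0 := by exact_mod_cast (Fact.out : p.Prime).ne_zero
      have hym : y ∈ CZ G a (k + 1) := by
        refine CZ_pure hp0 ?_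
        rw [← hy]
        exact Submodule.sub_mem _ (Submodule.sum_mem _ fun i _ => Submodule.smul_mem _ _ (hu1 i.1)) (bdZ_mem hd)
      obtain ⟨ν, hν⟩ := hco (bdZ y) ⟨y, hym, rfl⟩
      have h2 := congrArg bdZ hy
      rw [map_sub, bdZ_bdZ, sub_zero, map_sum, map_smul, hν] at h2
      simp only [map_smul, hu2, smul_smul] at h2
      have h2' : ∑ i : Fin n, ((if h : (p : ℤ) ∣ S.a i then ((l ⟨i, h⟩).val : ℤ) * S.a i else 0)) •
          S.bM (S.f i) = (p : ℤ) • ∑ i, (ν i * S.a i) • S.bM (S.f i) := by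
        rw [← h2, hsum (fun i => ((l i).val : ℤ) * S.a i.1) (fun i => S.bM (S.f i))]
      have h3 := hcoord _ _ p h2'
      funext i
      have h4 := h3 i.1
      rw [dif_pos i.2] at h4
      have h5 : S.bM.repr (∑ i, (ν i * S.a i) • S.bM (S.f i)) (S.f i.1) = ν i.1 * S.a i.1 := by
        have h6 := hcoord (fun i => ν i * S.a i) (∑ i, (ν i * S.a i) • S.bM (S.f i)) 1 (by rw [one_smul]) i.1
        rw [one_mul] at h6
        exact h6.symm
      rw [h5] at h4
      refine hdvd _ ?_
      have h6 : ((l i).val : ℤ) = p * ν i.1 := by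
        have h7 : S.a i.1 * (((l i).val : ℤ) - p * ν i.1) = 0 := by linear_combination h4
        linarith [(mul_eq_zero.1 h7).resolve_left (ha0 i.1)]
      rw [h6]
      exact dvd_mul_right _ _)
    exact ⟨fun i => S.bM (S.f i.1), fun i => u i.1, fun i => S.a i.1, f, g, fun i => hxm i.1, fun i => hu1 i.1,
      fun i => hu2 i.1, fun i => hx0 i.1, fun i => i.2, fun i => ha0 i.1, hf, hg⟩
  · -- counting
    have h1 : finrank ℝ (BB G (pull ℝ a) Set.univ ∅ k) ≤ n := by
      have h2 : BB G (pull ℝ a) Set.univ ∅ k ≤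
          Submodule.span ℝ (Set.range fun i : Fin n => red ℝ (S.bM (S.f i))) := by
        intro b hb
        have h3 := BB_span H k b hb
        refine Submodule.span_le.2 ?_ h3
        rintro _ ⟨c, hc, rfl⟩
        obtain ⟨ν, rfl⟩ := hco c hc
        rw [SetLike.mem_coe, red_sum]
        refine Submodule.sum_mem _ fun i _ => ?_
        rw [red_smul]
        exact Submodule.smul_mem _ _ (Submodule.subset_span ⟨i, rfl⟩)
      refine (Submodule.finrank_mono h2).trans ?_
      have h3 := finrank_range_le_card (R := ℝ) (fun i : Fin n => red ℝ (S.bM (S.f i)))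
      rw [Fintype.card_fin] at h3
      exact h3
    have h2 : n ≤ Fintype.card ι + finrank (ZMod p) (BB G (pull (ZMod p) a) Set.univ ∅ k) := by
      let κ := {i : Fin n // ¬ (p : ℤ) ∣ S.a i}
      have h3 : Fintype.card ι + Fintype.card κ = n := by
        rw [← Fintype.card_sum, Fintype.card_congr (Equiv.sumCompl (fun i : Fin n => (p : ℤ) ∣ S.a i)),
          Fintype.card_fin]
      have h4 : ∀ i : κ, red (ZMod p) (S.bM (S.f i.1)) ∈ BB G (pull (ZMod p) a) Set.univ ∅ k := by
        intro i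
        have h5 : ((S.a i.1 : ℤ) : ZMod p) ≠ 0 := by
          intro h
          exact i.2 ((ZMod.intCast_zmod_eq_zero_iff_dvd _ _).1 h)
        refine ⟨((S.a i.1 : ℤ) : ZMod p)⁻¹ • red (ZMod p) (u i.1),
          Submodule.smul_mem _ _ (red_mem (ZMod p) (hu1 i.1)), ?_⟩
        rw [map_smul, ← red_bd, hu2, red_smul, smul_smul, inv_mul_cancel₀ h5, one_smul]
      have h5 : LinearIndependent (ZMod p) (fun i : κ =>
          (⟨red (ZMod p) (S.bM (S.f i.1)), h4 i⟩ : BB G (pull (ZMod p) a) Set.univ ∅ k)) := by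
        rw [Fintype.linearIndependent_iff]
        intro l hl i
        have h6 := congrArg Subtype.val hl
        rw [AddSubmonoidClass.coe_finsetSum] at h6
        have h7 : red (ZMod p) (∑ i : κ, ((l i).val : ℤ) • S.bM (S.f i.1)) = 0 := by
          rw [red_sum]
          refine Eq.trans (Finset.sum_congr rfl fun i _ => ?_) h6
          rw [red_smul, hcast]
          rfl
        obtain ⟨y, hy⟩ := (red_zero_iff p _).1 h7
        have h8 : ∑ i : Fin n, (if h : ¬ (p : ℤ) ∣ S.a i then ((l ⟨i, h⟩).val : ℤ) else 0) •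
            S.bM (S.f i) = (p : ℤ) • y := by
          rw [← hy, ← Fintype.sum_of_injective (Subtype.val : κ → Fin n) Subtype.val_injective
            (fun i : κ => ((l i).val : ℤ) • S.bM (S.f i.1))]
          · intro j hj
            rw [dif_neg, zero_smul]
            intro h
            exact hj ⟨⟨j, h⟩, rfl⟩
          · intro j
            rw [dif_pos j.2]
        have h9 := hcoord _ y p h8 i.1
        rw [dif_pos i.2] at h9
        refine hdvd _ ?_
        rw [h9]
        exact dvd_mul_right _ _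
      have h6 := h5.fintype_card_le_finrank
      omega
    omega

/-- comparison of the ranks -/
theorem rank_ineq (p : ℕ) [Fact p.Prime] (H : Hyp G a sgn) (k : ℕ) :
    finrank (ZMod p) (BB G (pull (ZMod p) a) Set.univ ∅ k) + beta G (pull (ZMod p) a) Set.univ ∅ (k + 1) ≤
      finrank ℝ (BB G (pull ℝ a) Set.univ ∅ k) + beta G (pull ℝ a) Set.univ ∅ (k + 1) +
        beta G (pull (ZMod p) a) Set.univ ∅ (k + 2) := by
  have a1 := Pool.Agent.W334.SG.finrank_BB (ZMod p) H k
  have a2 : finrank (ZMod p) (BB G (pull (ZMod p) a) Set.univ ∅ (k + 1)) =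
    ((Pool.Agent.W334.SG.Am G a sgn (k + 2)).map (Int.cast : ℤ → ZMod p)).rank :=
      Pool.Agent.W334.SG.finrank_BB (ZMod p) H (k + 1)
  have a3 : finrank (ZMod p) (BB G (pull (ZMod p) a) Set.univ ∅ (k + 2)) =
    ((Pool.Agent.W334.SG.Am G a sgn (k + 3)).map (Int.cast : ℤ → ZMod p)).rank :=
      Pool.Agent.W334.SG.finrank_BB (ZMod p) H (k + 2)
  have b1 := Pool.Agent.W334.SG.finrank_BB ℝ H k
  have b2 : finrank ℝ (BB G (pull ℝ a) Set.univ ∅ (k + 1)) =
    ((Pool.Agent.W334.SG.Am G a sgn (k + 2)).map (Int.cast : ℤ → ℝ)).rank :=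
      Pool.Agent.W334.SG.finrank_BB ℝ H (k + 1)
  have b3 : finrank ℝ (BB G (pull ℝ a) Set.univ ∅ (k + 2)) =
    ((Pool.Agent.W334.SG.Am G a sgn (k + 3)).map (Int.cast : ℤ → ℝ)).rank :=
      Pool.Agent.W334.SG.finrank_BB ℝ H (k + 2)
  have c1 := Pool.Agent.W334.SG.finrank_ZZ (ZMod p) H (k + 1)
  have c2 := Pool.Agent.W334.SG.finrank_ZZ (ZMod p) H (k + 2)
  have d1 := Pool.Agent.W334.SG.finrank_ZZ ℝ H (k + 1)
  have d2 := Pool.Agent.W334.SG.finrank_ZZ ℝ H (k + 2)
  have e1 := Pool.Agent.W290.SG.rank_modp p (Pool.Agent.W334.SG.Am G a sgn (k + 3))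
  have f1 := Submodule.finrank_mono (BB_le_ZZ G (pull ℝ a) Set.univ ∅ (k + 2))
  have f2 := Submodule.finrank_mono (BB_le_ZZ G (pull ℝ a) Set.univ ∅ (k + 1))
  have f3 := Submodule.finrank_mono (BB_le_ZZ G (pull (ZMod p) a) Set.univ ∅ (k + 1))
  have f4 := Submodule.finrank_mono (BB_le_ZZ G (pull (ZMod p) a) Set.univ ∅ (k + 2))
  unfold beta
  omega

end snf

end Pool.Agent.N504.TG
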