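import Pool.Agent.N504.TG.Stage
import Pool.Agent.N504.TG.Tors
import Pool.Agent.N504.TG.Grp
import Pool.Agent.N504.TG.OctDef
import Pool.Agent.R782.Bal.Main
import Pool.Agent.Y132.SI.Free

/-!
# Torsion growth for coloured complexes which contain octahedralizations
-/

set_option autoImplicit false

namespace Pool.Agent.N504.TG

open Module Pool.Agent.W907.SG Pool.Agent.W461.SGN
open Pool.Agent.W334.SG (Hyp)
open Pool.Agent.R782.Bal (MF cs mc mc_eq adj_same card_pos' EmbX Small growth_cs)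
open Pool.Agent.Y132.SI (aa aa_mk aa_inv aa_comm ev ev_mk ev_one ev_mul ev_free finrank_HInv HInv)

section act
variable {V : Type} (G : SimpleGraph V) (H : Subgroup (W G))

/-- the sign -/
noncomputable def sn' (hH : H ≤ (th G).ker) (v : V) (x : Quotient (QuotientGroup.rightRel H)) : Bool := by
  classical
  exact Quotient.liftOn' x (fun w => decide (th G w v = -1)) (fun a b hab => by
    rw [QuotientGroup.rightRel_apply] at hab
    have h1 : b * a⁻¹ ∈ (th G).ker := hH hab
    rw [MonoidHom.mem_ker, map_mul, map_inv] at h1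
    have h2 : th G b = th G a := mul_inv_eq_one.1 h1
    rw [h2])

theorem hyp_aa (hH : H ≤ (th G).ker) : Hyp G (aa G H) (sn' G H hH) := by
  classical
  refine ⟨aa_inv G H, fun u v h x => aa_comm G H u v h x, fun v x => ?_, fun u v huv x => ?_⟩
  · induction x using Quotient.inductionOn' with
    | h w =>
      rw [aa_mk]
      show decide (th G (w * (cox G).simple v) v = -1) = !(decide (th G w v = -1))
      rw [th_self]
      rcases Int.units_eq_one_or (th G w v) with h | h <;> rw [h] <;> decide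
  · induction x using Quotient.inductionOn' with
    | h w =>
      rw [aa_mk]
      show decide (th G (w * (cox G).simple v) u = -1) = decide (th G w u = -1)
      rw [th_other G w u v huv]

theorem iter_aa (s t : V) (j : ℕ) (x : Quotient (QuotientGroup.rightRel H)) :
    (fun y => aa G H t (aa G H s y))^[j] x = ev G H x (((cox G).simple s * (cox G).simple t) ^ j) := by
  induction j generalizing x with
  | zero => rw [pow_zero, ev_one]; rfl
  | succ j ih =>
    rw [Function.iterate_succ_apply, ih, pow_succ', ev_mul]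
    congr 1
    unfold aa
    rw [← ev_mul]

variable {G H} in
theorem ev_fix (hn : H.Normal) {g : W G} (hg : g ∈ H) (x : Quotient (QuotientGroup.rightRel H)) : ev G H x g = x := by
  induction x using Quotient.inductionOn' with
  | h w =>
    rw [ev_mk]
    refine Quotient.sound' ?_
    rw [QuotientGroup.rightRel_apply, mul_inv_rev, ← mul_assoc]
    exact hn.conj_mem _ (H.inv_mem hg) w

/-- the order of the product of two generators modulo `H` -/
theorem exists_order (q : ℕ) (hq : q.Prime) (hQ : QQ G q H) (p : ℕ) [Fact p.Prime] (hp : p ≠ 2) (hpq : p ≠ q)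
    (s t : V) (J : ℕ) (hJ : ∀ j, 0 < j → j < J → ((cox G).simple s * (cox G).simple t) ^ j ∉ H) :
    ∃ m : ℕ, ((m : ℕ) : ZMod p) ≠ 0 ∧ J ≤ m ∧
      (pull (ZMod p) (aa G H) s * pull (ZMod p) (aa G H) t : Module.End (ZMod p) _) ^ m = 1 ∧
      ∀ j, 0 < j → j < m → ∀ x, (fun y => aa G H t (aa G H s y))^[j] x ≠ x := by
  haveI := hQ.nor
  set g := (cox G).simple s * (cox G).simple t with hg
  obtain ⟨k, hk⟩ := hQ.pow g
  have hpos : 0 < 2 * q ^ k := Nat.mul_pos two_pos (pow_pos hq.pos _)
  have hex : ∃ m, 0 < m ∧ g ^ m ∈ H := ⟨_, hpos, hk⟩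
  classical
  obtain ⟨hm0, hm1⟩ := Nat.find_spec hex
  set m := Nat.find hex with hm
  have hmin : ∀ j, 0 < j → j < m → g ^ j ∉ H := fun j hj hjm h => Nat.find_min hex hjm ⟨hj, h⟩
  have hdvd : m ∣ 2 * q ^ k := by
    by_contra hnd
    have h1 : 0 < (2 * q ^ k) % m := by
      rcases Nat.eq_zero_or_pos ((2 * q ^ k) % m) with h | h
      · exact absurd (Nat.dvd_of_mod_eq_zero h) hnd
      · exact h
    refine hmin _ h1 (Nat.mod_lt _ hm0) ?_
    have h2 : g ^ (2 * q ^ k) = (g ^ m) ^ ((2 * q ^ k) / m) * g ^ ((2 * q ^ k) % m) := by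
      rw [← pow_mul, ← pow_add, Nat.div_add_mod]
    rw [h2] at hk
    exact (H.mul_mem_cancel_left (H.pow_mem hm1 _)).1 hk
  refine ⟨m, ?_, ?_, ?_, ?_⟩
  · intro h
    rw [ZMod.natCast_eq_zero_iff] at h
    have h1 : p ∣ 2 * q ^ k := h.trans hdvd
    rcases ((Fact.out : p.Prime).dvd_mul).1 h1 with h2 | h2
    · exact hp ((Nat.prime_dvd_prime_iff_eq Fact.out Nat.prime_two).1 h2)
    · exact hpq ((Nat.prime_dvd_prime_iff_eq Fact.out hq).1 ((Fact.out : p.Prime).dvd_of_dvd_pow h2))
  · by_contra hlt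
    exact hJ m hm0 (not_le.1 hlt) hm1
  · have h1 : ∀ (j : ℕ) (f : Quotient (QuotientGroup.rightRel H) → ZMod p) (x : Quotient (QuotientGroup.rightRel H)),
        ((pull (ZMod p) (aa G H) s * pull (ZMod p) (aa G H) t : Module.End (ZMod p) _) ^ j) f x =
          f ((fun y => aa G H t (aa G H s y))^[j] x) := by
      intro j
      induction j with
      | zero => intro f x; rfl
      | succ j ih =>
        intro f x
        rw [pow_succ', Module.End.mul_apply, Module.End.mul_apply, pull_apply, pull_apply, ih,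
          Function.iterate_succ_apply]
    refine LinearMap.ext fun f => funext fun x => ?_
    rw [h1, iter_aa, ← hg, ev_fix hQ.nor hm1]
    rfl
  · intro j hj hjm x
    rw [iter_aa, ← hg]
    refine ev_free G H (fun y hy => hmin j hj hjm ?_) x
    have h2 := hQ.nor.conj_mem _ hy y⁻¹
    rwa [inv_inv, ← mul_assoc, ← mul_assoc, inv_mul_cancel, one_mul, mul_assoc, inv_mul_cancel, mul_one] at h2

end act

section cs
variable {p d N n : ℕ} {X : Finset (Finset (Fin N))} {col : Fin N → Fin (d + 1)} {L : SimpleGraph (Fin n)}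
  {κ : Fin n → Fin (d + 1)} {e : Fin n → Bool → Fin N} {z : (Fin (d + 1) → Fin n) → ZMod p}

/-- the vertices of `OL` in the colourwise subdivision -/
def vx (h : OctIn p d X col L κ e z) (u : Fin n) (b : Bool) : MF X col :=
  ⟨{e u b}, h.vertex u b, Finset.singleton_nonempty _, fun v hv w hw => by
    rw [Finset.mem_singleton.1 hv, Finset.mem_singleton.1 hw]⟩

theorem mc_vx (h : OctIn p d X col L κ e z) (u : Fin n) (b : Bool) : mc (vx h u b) = κ u := by
  rw [← h.colour u b]
  exact (mc_eq (vx h u b) (Finset.mem_singleton_self _)).symm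

open Classical in
theorem growth_tsys [Fact p.Prime] (hp : p ≠ 2) (q : ℕ) [Fact q.Prime] (hpq : p ≠ q)
    (hX : ∀ σ ∈ X, ∀ τ : Finset (Fin N), τ ⊆ σ → τ ∈ X)
    (hm : ∀ σ ∈ X, ∀ c, (∀ v ∈ σ, col v = c) → σ.card ≤ 2) (hE : EmbX d X col)
    (h : OctIn p d X col L κ e z) [Fintype (MF X col)] [LinearOrder (MF X col)] (ε : ℝ) (hε : 0 < ε) :
    ∃ E : Finset (W (cs X col)), (1 : W (cs X col)) ∉ E ∧ ∀ H : Subgroup (W (cs X col)), QQ (cs X col) q H →
      (∀ g ∈ E, g ∉ H) → ∀ [Fintype (Quotient (QuotientGroup.rightRel H))],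
        ∃ (ι : Type) (_ : Fintype ι) (_ : DecidableEq ι), TSys p (cs X col) (aa (cs X col) H) d ι ∧
          (1 - ε) * H.index ≤ Fintype.card ι := by
  set G := cs X col with hG
  obtain ⟨w0, hw0⟩ := h.ne
  haveI : Nonempty (Fin n) := ⟨w0 0⟩
  have hsm : Small d X col := ⟨fun _ => 1, by simp, fun σ hσ c hc => by simpa using hm σ hσ c hc⟩
  obtain ⟨E1, hE1, hE2⟩ := growth_cs hX hsm hE (ε / 2) (by positivity)
  -- the constants
  obtain ⟨C, hC⟩ : ∃ C : ℕ, C = Fintype.card (Fin n) + Fintype.card (MF X col) * 2 ^ Fintype.card (MF X col) :=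
    ⟨_, rfl⟩
  obtain ⟨J, hJ⟩ := exists_nat_gt (4 * (C : ℝ) / ε)
  have hJ0 : (0 : ℝ) < J := lt_of_le_of_lt (by positivity) hJ
  have hJ1 : 4 * (C : ℝ) < J * ε := (div_lt_iff₀ hε).1 hJ
  let E2 : Finset (W G) := (((Finset.univ : Finset (MF X col × MF X col)) ×ˢ Finset.range J).image
    (fun x => ((cox G).simple x.1.1 * (cox G).simple x.1.2) ^ x.2)).erase 1
  refine ⟨E1 ∪ E2, ?_, ?_⟩
  · rw [Finset.mem_union]
    rintro (h1 | h1)
    · exact hE1 h1
    · exact (Finset.ne_of_mem_erase h1) rfl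
  intro H hQ hEH _
  haveI := hQ.nor
  haveI := hQ.fin
  have hcard : (Fintype.card (Quotient (QuotientGroup.rightRel H)) : ℝ) = H.index := by
    rw [← Nat.card_eq_fintype_card, Nat.card_congr (QuotientGroup.quotientRightRelEquivQuotientLeftRel H)]
    rfl
  have hord : ∀ s t : MF X col, s ≠ t → ¬ G.Adj s t → ∃ m : ℕ, ((m : ℕ) : ZMod p) ≠ 0 ∧ J ≤ m ∧
      (pull (ZMod p) (aa G H) s * pull (ZMod p) (aa G H) t : Module.End (ZMod p) _) ^ m = 1 ∧
      ∀ j, 0 < j → j < m → ∀ x, (fun y => aa G H t (aa G H s y))^[j] x ≠ x := by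
    intro s t hst hna
    refine exists_order G H q Fact.out hQ p hp hpq s t J fun j hj hjJ hmem => ?_
    refine hEH _ (Finset.mem_union_right _ (Finset.mem_erase.2 ⟨inf_order s t hst hna j hj, ?_⟩)) hmem
    exact Finset.mem_image.2 ⟨((s, t), j), Finset.mem_product.2 ⟨Finset.mem_univ _, Finset.mem_range.2 hjJ⟩, rfl⟩
  have hm' : ∀ s t : MF X col, ∃ m : ℕ, (s ≠ t → ¬ G.Adj s t → ((m : ℕ) : ZMod p) ≠ 0 ∧ J ≤ m ∧
      (pull (ZMod p) (aa G H) s * pull (ZMod p) (aa G H) t : Module.End (ZMod p) _) ^ m = 1 ∧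
      ∀ j, 0 < j → j < m → ∀ x, (fun y => aa G H t (aa G H s y))^[j] x ≠ x) := by
    intro s t
    by_cases hst : s ≠ t ∧ ¬ G.Adj s t
    · obtain ⟨m, hm⟩ := hord s t hst.1 hst.2
      exact ⟨m, fun _ _ => hm⟩
    · exact ⟨0, fun h1 h2 => absurd ⟨h1, h2⟩ hst⟩
  choose m hmm using hm'
  -- the dimension of the fixed vectors
  have hJn : 0 < J := by exact_mod_cast hJ0
  have hFX : ∀ s t : MF X col, s ≠ t → ¬ G.Adj s t →
      finrank (ZMod p) (FX (pull (ZMod p) (aa G H) s) (pull (ZMod p) (aa G H) t)) ≤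
        Fintype.card (Quotient (QuotientGroup.rightRel H)) / J := by
    intro s t hst hna
    obtain ⟨-, k2, -, k4⟩ := hmm s t hst hna
    rw [Nat.le_div_iff_mul_le hJn, mul_comm]
    exact (Nat.mul_le_mul_right _ k2).trans (finrank_FX (aa G H) s t (aa_inv G H) (m s t) k4)
  -- the midpoints
  have hp2 : (2 : ZMod p) ≠ 0 := by
    intro h2
    have h3 : ((2 : ℕ) : ZMod p) = 0 := by exact_mod_cast h2
    rw [ZMod.natCast_eq_zero_iff] at h3
    exact hp ((Nat.prime_dvd_prime_iff_eq Fact.out Nat.prime_two).1 h3)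
  let O : Set (MF X col) := {σ | σ.1.card = 2}
  have hO : ∀ σ : MF X col, σ ∉ O → σ.1.card = 1 := by
    intro σ hσ
    have h1 := hm σ.1 σ.2.1 (mc σ) (fun v hv => mc_eq σ hv)
    have h2 := card_pos' σ
    have h3 : σ.1.card ≠ 2 := hσ
    omega
  have hends : ∀ σ : MF X col, ∃ y y' : MF X col, σ ∈ O → (y ∉ O ∧ y' ∉ O ∧ G.Adj σ y ∧ G.Adj σ y' ∧ y ≠ y' ∧
      ¬ G.Adj y y') ∧ ∀ w, G.Adj σ w → w ≠ y → w ≠ y' → G.Adj w y ∧ G.Adj w y' := by
    intro σ
    by_cases hσ : σ ∈ O
    · obtain ⟨a, b, hab, hσab⟩ := Finset.card_eq_two.1 (hσ : σ.1.card = 2)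
      have ha : a ∈ σ.1 := by rw [hσab]; simp
      have hb : b ∈ σ.1 := by rw [hσab]; simp
      let y : MF X col := ⟨{a}, hX _ σ.2.1 _ (by simpa using ha), Finset.singleton_nonempty _, by
        intro v hv w hw; rw [Finset.mem_singleton.1 hv, Finset.mem_singleton.1 hw]⟩
      let y' : MF X col := ⟨{b}, hX _ σ.2.1 _ (by simpa using hb), Finset.singleton_nonempty _, by
        intro v hv w hw; rw [Finset.mem_singleton.1 hv, Finset.mem_singleton.1 hw]⟩
      have hya : mc y = col a := (mc_eq y (Finset.mem_singleton_self a)).symm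
      have hyb : mc y' = col b := (mc_eq y' (Finset.mem_singleton_self b)).symm
      have hcab : col a = col b := σ.2.2.2 a ha b hb
      have hσa : mc σ = col a := (mc_eq σ ha).symm
      have hadj : ∀ (τ : MF X col), τ.1 ⊆ σ.1 → τ ≠ σ → G.Adj σ τ := by
        intro τ hτ hne
        refine ⟨hne.symm, ?_, fun _ => Or.inr hτ⟩
        rw [Finset.union_eq_left.2 hτ]
        exact σ.2.1
      have hyO : y ∉ O := by
        show ¬ ({a} : Finset (Fin N)).card = 2
        simp
      have hyO' : y' ∉ O := by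
        show ¬ ({b} : Finset (Fin N)).card = 2
        simp
      refine ⟨y, y', fun _ => ⟨⟨hyO, hyO', ?_, ?_, ?_, ?_⟩, ?_⟩⟩
      · exact hadj y (by simpa [y] using ha) (fun e => hyO (e ▸ hσ))
      · exact hadj y' (by simpa [y'] using hb) (fun e => hyO' (e ▸ hσ))
      · intro e
        exact hab (Finset.singleton_injective (congrArg Subtype.val e))
      · intro hadj
        rcases adj_same hadj (by rw [hya, hyb, hcab]) with h1 | h1
        · exact hab (by simpa [y, y'] using h1)
        · exact hab (by simpa [y, y'] using h1 : b = a).symm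
      · intro w hw hwy hwy'
        have hwc : mc w ≠ mc σ := by
          intro hc
          rcases adj_same hw hc.symm with h1 | h1
          · -- `σ ⊆ w`
            have h2 : w.1.card ≤ 2 := hm w.1 w.2.1 (mc w) (fun v hv => mc_eq w hv)
            have h3 : σ.1.card = 2 := hσ
            exact hw.ne (Subtype.ext (Finset.eq_of_subset_of_card_le h1 (by omega)))
          · have h2 : w.1 ≠ σ.1 := fun e => hw.ne (Subtype.ext e.symm)
            have h3 : w.1.card < 2 := by
              rw [← (hσ : σ.1.card = 2)]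
              exact Finset.card_lt_card (lt_of_le_of_ne h1 h2)
            have h4 := card_pos' w
            obtain ⟨c, hc⟩ := Finset.card_eq_one.1 (show w.1.card = 1 by omega)
            have h5 : c ∈ σ.1 := h1 (by rw [hc]; simp)
            rw [hσab] at h5
            rcases Finset.mem_insert.1 h5 with h6 | h6
            · exact hwy (Subtype.ext (by rw [hc, h6]))
            · rw [Finset.mem_singleton] at h6
              exact hwy' (Subtype.ext (by rw [hc, h6]))
        have key : ∀ (τ : MF X col), τ.1 ⊆ σ.1 → mc τ = mc σ → G.Adj w τ := by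
          intro τ hτ hc
          refine ⟨fun e => hwc (e ▸ hc), ?_, fun hcol => ?_⟩
          · refine hX _ hw.2.1 _ ?_
            rw [Finset.union_comm]
            exact Finset.union_subset_union hτ le_rfl
          · exfalso
            obtain ⟨v, hv⟩ := w.2.2.1
            obtain ⟨v', hv'⟩ := τ.2.2.1
            apply hwc
            rw [← mc_eq w hv, ← hc, ← mc_eq τ hv']
            exact hcol v hv v' hv'
        exact ⟨key y (by simpa [y] using ha) (by rw [hya, hσa]),
          key y' (by simpa [y'] using hb) (by rw [hyb, hσa, hcab])⟩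
    · exact ⟨σ, σ, fun h1 => absurd h1 hσ⟩
  choose y y' hy using hends
  -- the octahedralization
  have hvi : Function.Injective (fun x : Fin n × Bool => vx h x.1 x.2) := by
    rintro ⟨u, b⟩ ⟨u', b'⟩ heq
    have h1 : ({e u b} : Finset (Fin N)) = {e u' b'} := congrArg Subtype.val heq
    obtain ⟨h2, h3⟩ := h.inj u b u' b' (Finset.singleton_injective h1)
    exact Prod.ext h2 h3
  have hnadj : ∀ u, vx h u false ≠ vx h u true ∧ ¬ G.Adj (vx h u false) (vx h u true) := by
    intro u
    have h1 : vx h u false ≠ vx h u true := by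
      intro heq
      have := hvi (a₁ := (u, false)) (a₂ := (u, true)) heq
      simp at this
    refine ⟨h1, fun hadj => ?_⟩
    rcases adj_same hadj (by rw [mc_vx, mc_vx]) with h2 | h2
    · exact h1 (Subtype.ext (Finset.eq_of_subset_of_card_le h2 (by simp [vx])))
    · exact h1 (Subtype.ext (Finset.eq_of_subset_of_card_le h2 (by simp [vx])).symm)
  have hOH : OHyp G (pull (ZMod p) (aa G H)) Oᶜ mc (vx h) (fun u => m (vx h u false) (vx h u true)) z := by
    refine ⟨hvi, fun v f => ?_, fun u v huv f => ?_, fun u => ?_, fun u => ?_, fun w hw => ⟨fun i b => ?_, ?_⟩, h.cyc⟩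
    · funext x
      rw [pull_apply, pull_apply, aa_inv]
    · funext x
      rw [pull_apply, pull_apply, pull_apply, pull_apply, aa_comm G H u v huv]
    · exact (hmm _ _ (hnadj u).1 (hnadj u).2).1
    · exact (hmm _ _ (hnadj u).1 (hnadj u).2).2.2.1
    · refine ⟨by rw [mc_vx, (h.supp w hw).1 i], ?_⟩
      show ¬ ({e (w i) b} : Finset (Fin N)).card = 2
      simp
    · intro i j hij b b'
      have h1 := (h.supp w hw).2 i j hij
      have hc : κ (w i) ≠ κ (w j) := by
        rw [(h.supp w hw).1 i, (h.supp w hw).1 j]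
        exact hij
      refine ⟨fun heq => hc (by rw [← mc_vx h _ b, ← mc_vx h _ b', heq]), ?_, fun hcol => ?_⟩
      · have h2 := h.edge _ _ h1 b b'
        have h3 : (vx h (w i) b).1 ∪ (vx h (w j) b').1 = {e (w i) b, e (w j) b'} := by
          show ({e (w i) b} : Finset (Fin N)) ∪ {e (w j) b'} = _
          ext v
          simp
        rw [h3]
        exact h2
      · exfalso
        have h2 := hcol (e (w i) b) (Finset.mem_singleton_self _) (e (w j) b') (Finset.mem_singleton_self _)
        rw [h.colour, h.colour] at h2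
        exact hc h2
  have hst := stage G (pull (ZMod p) (aa G H)) hp2 O y y' (fun x hx => (hy x hx).1) (fun x hx => (hy x hx).2)
    mc (fun u hu v hv huv hc => by
      have h1 := hO u hu
      have h2 := hO v hv
      rcases adj_same huv hc with h3 | h3
      · exact huv.ne (Subtype.ext (Finset.eq_of_subset_of_card_le h3 (by omega)))
      · exact huv.ne (Subtype.ext (Finset.eq_of_subset_of_card_le h3 (by omega)).symm))
    (vx h) _ z hOH ⟨w0, hw0⟩ (fun x => m (y x) (y' x))
    (fun x hx => (hmm _ _ (hy x hx).1.2.2.2.2.1 (hy x hx).1.2.2.2.2.2).1)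
    (fun x hx => (hmm _ _ (hy x hx).1.2.2.2.2.1 (hy x hx).1.2.2.2.2.2).2.2.1)
    (Fintype.card (Quotient (QuotientGroup.rightRel H)) / J)
    (fun x hx => hFX _ _ (hy x hx).1.2.2.2.2.1 (hy x hx).1.2.2.2.2.2)
    (fun u => hFX _ _ (hnadj u).1 (hnadj u).2)
  obtain ⟨hs1, hs2⟩ := hst
  rw [Module.finrank_fintype_fun_eq_card] at hs1
  have hs2 := hs2 (d + 2) (by omega)
  have hHy := hyp_aa G H hQ.ker
  obtain ⟨ι, i1, i2, hι1, hι2⟩ := tsys_exists p hHy d
  refine ⟨ι, i1, i2, hι1, ?_⟩
  have hri := rank_ineq p hHy d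
  -- the real Betti number
  have hre := hE2 H hQ.fin (fun g hg x hx => hEH g (Finset.mem_union_left _ hg) (by
    have h2 := hQ.nor.conj_mem _ hx x⁻¹
    rwa [inv_inv, ← mul_assoc, ← mul_assoc, inv_mul_cancel, one_mul, mul_assoc, inv_mul_cancel, mul_one] at h2))
    (d + 1) (by omega)
  rw [finrank_HInv] at hre
  rw [← hC] at hs1
  have hs2' : beta G (pull (ZMod p) (aa G H)) Set.univ ∅ (d + 2) ≤
      C * (Fintype.card (Quotient (QuotientGroup.rightRel H)) / J) := by
    refine hs2.trans (Nat.mul_le_mul_right _ ?_)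
    rw [hC]
    exact Nat.le_add_left _ _
  -- final estimate
  have hdiv : ((C * (Fintype.card (Quotient (QuotientGroup.rightRel H)) / J) : ℕ) : ℝ) ≤ ε / 4 * H.index := by
    have h1 : ((Fintype.card (Quotient (QuotientGroup.rightRel H)) / J : ℕ) : ℝ) ≤ H.index / J := by
      rw [← hcard]
      exact Nat.cast_div_le
    push_cast
    have hidx : (0 : ℝ) ≤ H.index := Nat.cast_nonneg _
    calc (C : ℝ) * ((Fintype.card (Quotient (QuotientGroup.rightRel H)) / J : ℕ) : ℝ)
        ≤ C * (H.index / J) := mul_le_mul_of_nonneg_left h1 (Nat.cast_nonneg _)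
      _ = (4 * C) * (H.index / J) / 4 := by ring
      _ ≤ (J * ε) * (H.index / J) / 4 := by
          have : (0 : ℝ) ≤ H.index / J := by positivity
          nlinarith
      _ = ε / 4 * H.index := by field_simp
  have a1 : ((Fintype.card (Quotient (QuotientGroup.rightRel H)) : ℕ) : ℝ) ≤
      (beta G (pull (ZMod p) (aa G H)) Set.univ ∅ (d + 1) : ℝ) +
        ((C * (Fintype.card (Quotient (QuotientGroup.rightRel H)) / J) : ℕ) : ℝ) := by exact_mod_cast hs1
  have a2 : (beta G (pull (ZMod p) (aa G H)) Set.univ ∅ (d + 2) : ℝ) ≤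
      ((C * (Fintype.card (Quotient (QuotientGroup.rightRel H)) / J) : ℕ) : ℝ) := by exact_mod_cast hs2'
  have a3 : (finrank (ZMod p) (BB G (pull (ZMod p) (aa G H)) Set.univ ∅ d) : ℝ) +
      (beta G (pull (ZMod p) (aa G H)) Set.univ ∅ (d + 1) : ℝ) ≤
      (finrank ℝ (BB G (pull ℝ (aa G H)) Set.univ ∅ d) : ℝ) + (beta G (pull ℝ (aa G H)) Set.univ ∅ (d + 1) : ℝ) +
        (beta G (pull (ZMod p) (aa G H)) Set.univ ∅ (d + 2) : ℝ) := by exact_mod_cast hri
  have a4 : (finrank ℝ (BB G (pull ℝ (aa G H)) Set.univ ∅ d) : ℝ) ≤ (Fintype.card ι : ℝ) +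
      (finrank (ZMod p) (BB G (pull (ZMod p) (aa G H)) Set.univ ∅ d) : ℝ) := by exact_mod_cast hι2
  rw [hcard] at a1
  have a5 : (beta G (pull ℝ (aa G H)) Set.univ ∅ (d + 1) : ℝ) ≤ ε / 2 * H.index := hre
  linarith

end cs

end Pool.Agent.N504.TG
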