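import Pool.Agent.N504.TG.Mid

/-!
# Explicit cycles
-/

set_option autoImplicit false

namespace Pool.Agent.N504.TG

open Module Pool.Agent.W907.SG

/-! ### lists of commuting operators -/

theorem prod_split {A : Type} [Monoid A] : ∀ {k : ℕ} (f : Fin k → A) (i : Fin k),
    (∀ j, j ≠ i → Commute (f i) (f j)) →
    (List.ofFn f).prod = f i * (List.ofFn (Function.update f i 1)).prod ∧
    (List.ofFn f).prod = (List.ofFn (Function.update f i 1)).prod * f i := by
  intro k
  induction k with
  | zero => intro f i; exact i.elim0
  | succ k ih =>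
    intro f i hc
    refine Fin.cases (motive := fun i => (∀ j, j ≠ i → Commute (f i) (f j)) →
      (List.ofFn f).prod = f i * (List.ofFn (Function.update f i 1)).prod ∧
      (List.ofFn f).prod = (List.ofFn (Function.update f i 1)).prod * f i) ?_ ?_ i hc
    · intro hc
      have h0 : Function.update f 0 1 0 = 1 := Function.update_self _ _ _
      have h1 : (fun j : Fin k => Function.update f 0 1 j.succ) = fun j => f j.succ := by
        funext j
        exact Function.update_of_ne (Fin.succ_ne_zero j) _ _
      rw [List.ofFn_succ, List.prod_cons, List.ofFn_succ, List.prod_cons, h0, h1, one_mul]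
      refine ⟨rfl, ?_⟩
      refine Commute.eq (Commute.list_prod_right _ _ fun x hx => ?_)
      obtain ⟨j, rfl⟩ := List.mem_ofFn.1 hx
      exact hc _ (Fin.succ_ne_zero j)
    · intro i hc
      obtain ⟨e1, e2⟩ := ih (fun j => f j.succ) i (fun j hj => hc _ (fun h => hj (Fin.succ_injective _ h)))
      have h0 : Function.update f i.succ 1 0 = f 0 := Function.update_of_ne (Fin.succ_ne_zero i).symm _ _
      have h1 : (fun j : Fin k => Function.update f i.succ 1 j.succ) =
          Function.update (fun j : Fin k => f j.succ) i 1 := by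
        funext j
        by_cases h : j = i
        · subst h
          rw [Function.update_self, Function.update_self]
        · rw [Function.update_of_ne h, Function.update_of_ne (fun e => h (Fin.succ_injective _ e))]
      rw [List.ofFn_succ, List.prod_cons, List.ofFn_succ, List.prod_cons, h0, h1]
      constructor
      · rw [e1, ← mul_assoc, ← mul_assoc, (hc 0 (Fin.succ_ne_zero i).symm).eq]
      · rw [e2, mul_assoc]

/-! ### the operators -/

section ops
variable {F A : Type} [Field F] [Ring A] [Algebra F A]

/-- the double geometric sum -/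
def Kq (r : A) (q : ℕ) : A := ∑ j ∈ Finset.range q, ∑ i ∈ Finset.range j, r ^ i

theorem Kq_mul (r : A) (q : ℕ) : (1 - r) * Kq r q = (q : A) - ∑ j ∈ Finset.range q, r ^ j := by
  unfold Kq
  rw [Finset.mul_sum]
  have h : ∀ j ∈ Finset.range q, (1 - r) * ∑ i ∈ Finset.range j, r ^ i = 1 - r ^ j :=
    fun j _ => mul_neg_geom_sum r j
  rw [Finset.sum_congr rfl h, Finset.sum_sub_distrib, Finset.sum_const, Finset.card_range]
  simp

variable (F) in
/-- the operators `P^s`, `P^t` -/
noncomputable def PP (a b : A) (q : ℕ) (c : Bool) : A :=
  if c then (q : F)⁻¹ • ((1 - b) * Kq (a * b) q) else (q : F)⁻¹ • ((1 - a) * b * Kq (a * b) q)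

theorem PP_sum (a b : A) (q : ℕ) (hq : (q : F) ≠ 0) :
    PP F a b q false + PP F a b q true = 1 - (q : F)⁻¹ • ∑ j ∈ Finset.range q, (a * b) ^ j := by
  simp only [PP, if_true, Bool.false_eq_true, if_false]
  rw [← smul_add, ← add_mul]
  have h : (1 - a) * b + (1 - b) = 1 - a * b := by noncomm_ring
  rw [h, Kq_mul, smul_sub]
  congr 1
  have : (q : A) = (q : F) • (1 : A) := by
    rw [Nat.cast_smul_eq_nsmul, nsmul_eq_mul, mul_one]
  rw [this, smul_smul, inv_mul_cancel₀ hq, one_smul]

theorem PP_anti (a b : A) (q : ℕ) (ha : a * a = 1) (hb : b * b = 1) (c : Bool) :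
    (if c then b else a) * PP F a b q c = - PP F a b q c := by
  cases c
  · simp only [PP, Bool.false_eq_true, if_false]
    rw [mul_smul_comm, ← mul_assoc, ← mul_assoc]
    have : a * (1 - a) = - (1 - a) := by rw [mul_sub, ha, mul_one]; abel
    rw [this, neg_mul, neg_mul, smul_neg]
  · simp only [PP, if_true]
    rw [mul_smul_comm, ← mul_assoc]
    have : b * (1 - b) = - (1 - b) := by rw [mul_sub, hb, mul_one]; abel
    rw [this, neg_mul, smul_neg]

theorem PP_comm (a b : A) (q : ℕ) (c : Bool) (x : A) (ha : Commute x a) (hb : Commute x b) :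
    Commute x (PP F a b q c) := by
  have hK : Commute x (Kq (a * b) q) := by
    unfold Kq
    refine Commute.sum_right _ _ _ fun j _ => Commute.sum_right _ _ _ fun i _ => ?_
    exact (ha.mul_right hb).pow_right i
  cases c
  · simp only [PP, Bool.false_eq_true, if_false]
    exact ((((Commute.one_right x).sub_right ha).mul_right hb).mul_right hK).smul_right _
  · simp only [PP, if_true]
    exact (((Commute.one_right x).sub_right hb).mul_right hK).smul_right _

end ops

/-! ### signs -/

section sgn
variable {V : Type} [LinearOrder V] {k : ℕ} (col : V → Fin k)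

/-- the sign of an inversion -/
def iv (a b : V) : ℤ := if a < b ∧ col b < col a then -1 else 1

/-- the sign of the permutation sorting by colours -/
def thc (T : Finset V) : ℤ := ∏ a ∈ T, ∏ b ∈ T, iv col a b

theorem iv_sq (a b : V) : iv col a b * iv col a b = 1 := by
  unfold iv; split_ifs <;> norm_num

theorem thc_sq (T : Finset V) : thc col T * thc col T = 1 := by
  unfold thc
  rw [← Finset.prod_mul_distrib]
  refine Finset.prod_eq_one fun a _ => ?_
  rw [← Finset.prod_mul_distrib]
  exact Finset.prod_eq_one fun b _ => iv_sq col a b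

theorem thc_insert (v : V) (T : Finset V) (hv : v ∉ T) :
    thc col (insert v T) = (∏ w ∈ T, (iv col v w * iv col w v)) * thc col T := by
  unfold thc
  rw [Finset.prod_insert hv]
  have h1 : ∀ a ∈ T, ∏ b ∈ insert v T, iv col a b = iv col a v * ∏ b ∈ T, iv col a b :=
    fun a _ => Finset.prod_insert hv
  rw [Finset.prod_congr rfl h1, Finset.prod_insert hv, Finset.prod_mul_distrib, Finset.prod_mul_distrib]
  have h2 : iv col v v = 1 := by unfold iv; simp
  rw [h2]
  ring

theorem sg_prod (v : V) (T : Finset V) : sg v T = ∏ u ∈ T, (if u < v then (-1 : ℤ) else 1) := by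
  unfold sg
  rw [Finset.prod_ite, Finset.prod_const, Finset.prod_const_one, mul_one]

theorem sg_th (v : V) (T : Finset V) (hv : v ∉ T) (hc : ∀ w ∈ T, col w ≠ col v) :
    sg v T * thc col (insert v T) = (∏ w ∈ T, (if col w < col v then (-1 : ℤ) else 1)) * thc col T := by
  rw [thc_insert col v T hv, sg_prod, ← mul_assoc, ← Finset.prod_mul_distrib]
  congr 1
  refine Finset.prod_congr rfl fun w hw => ?_
  have hwv : w ≠ v := fun h => hv (h ▸ hw)
  have hcw := hc w hw
  unfold iv
  rcases lt_or_gt_of_ne hwv with h1 | h1 <;> rcases lt_or_gt_of_ne hcw with h2 | h2 <;>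
    simp [h1, h2, not_lt.mpr h1.le, not_lt.mpr h2.le]

end sgn

/-! ### the abstract construction of cycles -/

section cyc
variable {V F M : Type} [Fintype V] [LinearOrder V] [Field F] [AddCommGroup M] [Module F M] {k : ℕ}

open Classical in
/-- the section of the colouring over `T` -/
noncomputable def sec (col : V → Fin k) (d : V) (T : Finset V) (i : Fin k) : V :=
  if h : ∃ v ∈ T, col v = i then h.choose else d

omit [Fintype V] [LinearOrder V] in
theorem sec_eq (col : V → Fin k) (d : V) (T : Finset V) (v : V) (hv : v ∈ T)
    (hinj : ∀ u ∈ T, ∀ w ∈ T, col u = col w → u = w) : sec col d T (col v) = v := by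
  have h : ∃ w ∈ T, col w = col v := ⟨v, hv, rfl⟩
  unfold sec
  rw [dif_pos h]
  exact hinj _ h.choose_spec.1 _ hv h.choose_spec.2

open Classical in
/-- the chain -/
noncomputable def chn (col : V → Fin k) (d : V) (Z : (Fin k → V) → M) (T : Finset V) : M :=
  if T.card = k ∧ ∀ u ∈ T, ∀ w ∈ T, col u = col w → u = w then thc col T • Z (sec col d T) else 0

omit [Fintype V] [LinearOrder V] in
theorem sec_img (col : V → Fin k) (d : V) (T : Finset V) (hT : T.card = k)
    (hinj : ∀ u ∈ T, ∀ w ∈ T, col u = col w → u = w) :
    (∀ i, sec col d T i ∈ T ∧ col (sec col d T i) = i) ∧ ∀ v ∈ T, ∃ i, v = sec col d T i := by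
  classical
  have h1 : T.image col = Finset.univ := by
    refine Finset.eq_univ_of_card _ ?_
    rw [Finset.card_image_of_injOn (fun u hu w hw h => hinj u hu w hw h), hT, Fintype.card_fin]
  constructor
  · intro i
    have h2 : i ∈ T.image col := h1 ▸ Finset.mem_univ i
    obtain ⟨v, hv, rfl⟩ := Finset.mem_image.1 h2
    rw [sec_eq col d T v hv hinj]
    exact ⟨hv, rfl⟩
  · intro v hv
    exact ⟨col v, (sec_eq col d T v hv hinj).symm⟩

theorem chn_mem (G : SimpleGraph V) (ρ : V → M →ₗ[F] M) (A : Set V) (col : V → Fin k) (d : V)
    (Z : (Fin k → V) → M)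
    (z1 : ∀ τ, Z τ ≠ 0 → (∀ i, col (τ i) = i) ∧ (∀ i j, i ≠ j → G.Adj (τ i) (τ j)) ∧ ∀ i, τ i ∈ A)
    (z2 : ∀ τ i, ρ (τ i) (Z τ) = - Z τ)
    (z3 : ∀ τ i, ∑ v, Z (Function.update τ i v) = 0) :
    chn col d Z ∈ ZZ G ρ A ∅ k := by
  classical
  refine ⟨?_, ?_⟩
  · rw [SetLike.mem_coe, mem_KK]
    constructor
    · intro T hT
      unfold chn
      split_ifs with h
      · by_cases hZ : Z (sec col d T) = 0
        · rw [hZ, smul_zero]
        · exfalso
          apply hT
          obtain ⟨h1, h2, h3⟩ := z1 _ hZ
          obtain ⟨k1, k2⟩ := sec_img col d T h.1 h.2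
          refine ⟨?_, ?_, h.1⟩
          · intro u hu w hw huw
            obtain ⟨i, rfl⟩ := k2 u hu
            obtain ⟨j, rfl⟩ := k2 w hw
            exact h2 i j (fun e => huw (by rw [e]))
          · intro u hu
            obtain ⟨i, rfl⟩ := k2 u hu
            exact h3 i
      · rfl
    · intro T t ht
      have ht : t ∈ T := by simpa using ht
      unfold chn
      split_ifs with h
      · obtain ⟨k1, k2⟩ := sec_img col d T h.1 h.2
        obtain ⟨i, hi⟩ := k2 t ht
        rw [map_zsmul, hi, z2, smul_neg]
      · rw [map_zero, neg_zero]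
  · show bd F (chn col d Z) = 0
    funext T
    rw [bd_apply, Pi.zero_apply]
    by_cases hT : T.card + 1 = k ∧ ∀ u ∈ T, ∀ w ∈ T, col u = col w → u = w
    · obtain ⟨hc, hinj⟩ := hT
      -- the missing colour
      have h1 : ∃ i : Fin k, i ∉ T.image col := by
        by_contra hcon
        push Not at hcon
        have h2 : Finset.univ ⊆ T.image col := fun i _ => hcon i
        have h3 := Finset.card_le_card h2
        rw [Finset.card_univ, Fintype.card_fin] at h3
        have h4 := Finset.card_image_le (s := T) (f := col)
        omega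
      obtain ⟨i, hi⟩ := h1
      have hother : ∀ j, j ≠ i → j ∈ T.image col := by
        intro j hj
        by_contra hcon
        have h2 : T.image col ⊆ (Finset.univ.erase i).erase j := by
          intro l hl
          refine Finset.mem_erase.2 ⟨fun e => hcon (e ▸ hl), Finset.mem_erase.2 ⟨fun e => hi (e ▸ hl),
            Finset.mem_univ _⟩⟩
        have h3 := Finset.card_le_card h2
        rw [Finset.card_image_of_injOn (fun u hu w hw h => hinj u hu w hw h),
          Finset.card_erase_of_mem (Finset.mem_erase.2 ⟨hj, Finset.mem_univ _⟩),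
          Finset.card_erase_of_mem (Finset.mem_univ _), Finset.card_univ, Fintype.card_fin] at h3
        have hk1 : i.1 < k := i.2
        have hk2 : j.1 < k := j.2
        have hk3 : i.1 ≠ j.1 := fun e => hj (Fin.ext e.symm)
        omega
      have key : ∀ v ∈ Tᶜ, sg v T • chn col d Z (insert v T) =
          ((∏ w ∈ T, (if col w < i then (-1 : ℤ) else 1)) * thc col T) •
            Z (Function.update (sec col d T) i v) := by
        intro v hv
        have hvT : v ∉ T := by simpa using hv
        by_cases hvi : col v = i
        · have hne : ∀ w ∈ T, col w ≠ col v := by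
            intro w hw h
            exact hi (Finset.mem_image.2 ⟨w, hw, h.trans hvi⟩)
          have hinj' : ∀ u ∈ insert v T, ∀ w ∈ insert v T, col u = col w → u = w := by
            intro u hu w hw h
            rcases Finset.mem_insert.1 hu with hu1 | hu1
            · rcases Finset.mem_insert.1 hw with hw1 | hw1
              · rw [hu1, hw1]
              · exact absurd (hu1 ▸ h).symm (hne w hw1)
            · rcases Finset.mem_insert.1 hw with hw1 | hw1
              · exact absurd (hw1 ▸ h) (hne u hu1)
              · exact hinj u hu1 w hw1 h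
          have hcard : (insert v T).card = k := by
            rw [Finset.card_insert_of_notMem hvT]; exact hc
          have hsec : sec col d (insert v T) = Function.update (sec col d T) i v := by
            funext j
            by_cases hj : j = i
            · subst hj
              rw [Function.update_self]
              have := sec_eq col d (insert v T) v (Finset.mem_insert_self v T) hinj'
              rwa [hvi] at this
            · rw [Function.update_of_ne hj]
              obtain ⟨w, hw, rfl⟩ := Finset.mem_image.1 (hother j hj)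
              rw [sec_eq col d _ w (Finset.mem_insert_of_mem hw) hinj', sec_eq col d _ w hw hinj]
          unfold chn
          rw [if_pos ⟨hcard, hinj'⟩, hsec, smul_smul, sg_th col v T hvT hne, hvi]
        · have h2 : Z (Function.update (sec col d T) i v) = 0 := by
            by_contra hcon
            have h3 := (z1 _ hcon).1 i
            rw [Function.update_self] at h3
            exact hvi h3
          rw [h2, smul_zero]
          have h3 : ¬ (∀ u ∈ insert v T, ∀ w ∈ insert v T, col u = col w → u = w) := by
            intro hcon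
            obtain ⟨w, hw, hwv⟩ := Finset.mem_image.1 (hother (col v) hvi)
            have := hcon w (Finset.mem_insert_of_mem hw) v (Finset.mem_insert_self v T) hwv
            exact hvT (this ▸ hw)
          unfold chn
          rw [if_neg (fun h => h3 h.2), smul_zero]
      rw [Finset.sum_congr rfl key, ← Finset.smul_sum]
      have hz : ∀ v, v ∉ Tᶜ → Z (Function.update (sec col d T) i v) = 0 := by
        intro v hv
        have hvT : v ∈ T := by simpa using hv
        by_contra hcon
        have h3 := (z1 _ hcon).1 i
        rw [Function.update_self] at h3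
        exact hi (Finset.mem_image.2 ⟨v, hvT, h3⟩)
      rw [Finset.sum_subset (Finset.subset_univ Tᶜ) (fun v _ hv => hz v hv), z3, smul_zero]
    · refine Finset.sum_eq_zero fun v hv => ?_
      have hvT : v ∉ T := by simpa using hv
      unfold chn
      rw [if_neg, smul_zero]
      rintro ⟨h1, h2⟩
      apply hT
      rw [Finset.card_insert_of_notMem hvT] at h1
      exact ⟨h1, fun u hu w hw => h2 u (Finset.mem_insert_of_mem hu) w (Finset.mem_insert_of_mem hw)⟩

theorem chn_zero (col : V → Fin k) (d : V) (Z : (Fin k → V) → M)
    (z1 : ∀ τ, Z τ ≠ 0 → (∀ i, col (τ i) = i))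
    (h : chn col d Z = 0) (τ : Fin k → V) : Z τ = 0 := by
  classical
  by_contra hcon
  have h1 := z1 τ hcon
  have hinj0 : Function.Injective τ := fun i j hij => by rw [← h1 i, ← h1 j, hij]
  have h2 := congrFun h (Finset.univ.image τ)
  have hinj : ∀ u ∈ Finset.univ.image τ, ∀ w ∈ Finset.univ.image τ, col u = col w → u = w := by
    intro u hu w hw huw
    obtain ⟨i, -, rfl⟩ := Finset.mem_image.1 hu
    obtain ⟨j, -, rfl⟩ := Finset.mem_image.1 hw
    rw [h1, h1] at huw
    rw [huw]
  have hcard : (Finset.univ.image τ).card = k := by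
    rw [Finset.card_image_of_injective _ hinj0, Finset.card_univ, Fintype.card_fin]
  have hsec : sec col d (Finset.univ.image τ) = τ := by
    funext i
    have := sec_eq col d _ (τ i) (Finset.mem_image.2 ⟨i, Finset.mem_univ _, rfl⟩) hinj
    rwa [h1] at this
  unfold chn at h2
  rw [if_pos ⟨hcard, hinj⟩, hsec, Pi.zero_apply] at h2
  have h3 := congrArg (fun x => thc col (Finset.univ.image τ) • x) h2
  simp only [smul_smul, thc_sq, one_smul, smul_zero] at h3
  exact hcon h3

end cyc

end Pool.Agent.N504.TG
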