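import Pool.Agent.N504.TG.HomDef
import Pool.Agent.N504.TG.Tors
import Pool.Agent.Y132.SI.Betti

/-!
# Lower bounds for the torsion of the integral homology
-/

set_option autoImplicit false

namespace Pool.Agent.N504.TG

open Module Pool.Agent.W907.SG
open Pool.Agent.Y132.SI (aa aa_mk)

theorem mem_sub {E : Type} [AddCommGroup E] {A B : Submodule ℤ E} {c : B} : c ∈ A.submoduleOf B ↔ (c : E) ∈ A :=
  Iff.rfl

section X
variable {V X : Type} [Fintype V] [LinearOrder V]

/-- cycles on a set with an action -/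
def ZX (G : SimpleGraph V) (a : V → X → X) (i : ℕ) : Submodule ℤ (Finset V → X → ℤ) :=
  CZ G a i ⊓ LinearMap.ker bdZ

/-- homology of a set with an action -/
abbrev HX (G : SimpleGraph V) (a : V → X → X) (i : ℕ) : Type := ↥(ZX G a i) ⧸ (BZ G a i).submoduleOf (ZX G a i)

variable [Fintype X]

omit [LinearOrder V] in
theorem pair_add {F : Type} [Field F] (f c d : Finset V → X → F) : pair f (c + d) = pair f c + pair f d := by
  unfold pair
  rw [← Finset.sum_add_distrib]
  refine Finset.sum_congr rfl fun T _ => ?_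
  rw [← Finset.sum_add_distrib]
  refine Finset.sum_congr rfl fun x _ => ?_
  rw [Pi.add_apply, Pi.add_apply, mul_add]

theorem tors_ge {p : ℕ} [Fact p.Prime] {G : SimpleGraph V} {a : V → X → X} {k : ℕ} {ι : Type} [Fintype ι]
    [DecidableEq ι] (h : XSys p G a k ι) : Finite (Submodule.torsion ℤ (HX G a k)) ∧
    p ^ Fintype.card ι ≤ Nat.card (Submodule.torsion ℤ (HX G a k)) := by
  obtain ⟨x, u, m, f, x1, x2, x3, x4, x5, x6⟩ := h
  haveI : Finite (Submodule.torsion ℤ (HX G a k)) :=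
    Module.finite_of_fg_torsion _ (Submodule.torsion_isTorsion)
  refine ⟨this, ?_⟩
  -- the functionals
  have hred : ∀ c d : Finset V → X → ℤ, red (ZMod p) (c + d) = red (ZMod p) c + red (ZMod p) d := by
    intro c d
    funext T z
    simp [red]
  let φ0 : (Finset V → X → ℤ) →+ (ι → ZMod p) :=
    { toFun := fun c i => pair (f i) (red (ZMod p) c)
      map_zero' := by
        funext i
        have : red (ZMod p) (0 : Finset V → X → ℤ) = 0 := by funext T z; simp [red]
        rw [this]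
        simp [pair]
      map_add' := fun c d => by
        funext i
        rw [hred, pair_add]
        rfl }
  let φ : ↥(ZX G a k) →ₗ[ℤ] (ι → ZMod p) := φ0.toIntLinearMap.comp (ZX G a k).subtype
  have hφ : (BZ G a k).submoduleOf (ZX G a k) ≤ LinearMap.ker φ := by
    intro c hc
    rw [mem_sub] at hc
    obtain ⟨d, hd, hdc⟩ := hc
    rw [LinearMap.mem_ker]
    funext i
    show pair (f i) (red (ZMod p) c.1) = 0
    have hdc' : bdZ d = c.1 := hdc
    rw [← hdc', red_bd]
    exact x6.fb i _ (red_mem (ZMod p) hd)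
  let Φ : HX G a k →ₗ[ℤ] (ι → ZMod p) := Submodule.liftQ _ φ hφ
  let Ψ : Submodule.torsion ℤ (HX G a k) →ₗ[ℤ] (ι → ZMod p) := Φ.comp (Submodule.subtype _)
  have hsurj : Function.Surjective Ψ := by
    intro v
    have hz : ∀ j, x j ∈ ZX G a k := fun j => ⟨x1 j, x4 j⟩
    have ht : ∀ j, (Submodule.Quotient.mk ⟨x j, hz j⟩ : HX G a k) ∈ Submodule.torsion ℤ (HX G a k) := by
      intro j
      rw [Submodule.mem_torsion_iff]
      refine ⟨⟨m j, mem_nonZeroDivisors_of_ne_zero (x5 j)⟩, ?_⟩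
      show m j • (Submodule.Quotient.mk ⟨x j, hz j⟩ : HX G a k) = 0
      rw [← Submodule.Quotient.mk_smul, Submodule.Quotient.mk_eq_zero, mem_sub]
      exact ⟨u j, x2 j, x3 j⟩
    refine ⟨∑ j, ((v j).val : ℤ) • (⟨_, ht j⟩ : Submodule.torsion ℤ (HX G a k)), ?_⟩
    rw [map_sum]
    funext i
    rw [Finset.sum_apply]
    have h1 : ∀ j, Ψ (((v j).val : ℤ) • (⟨_, ht j⟩ : Submodule.torsion ℤ (HX G a k))) i =
        v j * (if i = j then 1 else 0) := by
      intro j
      rw [map_smul, Pi.smul_apply]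
      have h2 : Ψ ⟨_, ht j⟩ i = if i = j then 1 else 0 := x6.fx i j
      rw [h2, zsmul_eq_mul, Int.cast_natCast, ZMod.natCast_zmod_val]
    rw [Finset.sum_congr rfl fun j _ => h1 j]
    simp
  have h1 := Nat.card_le_card_of_surjective Ψ hsurj
  rw [Nat.card_eq_fintype_card, Fintype.card_fun, ZMod.card] at h1
  exact h1

end X

/-! ### from sets to subgroups -/

section H
variable {V : Type} [Fintype V] [LinearOrder V] (G : SimpleGraph V) (H : Subgroup (W G))

/-- the quotient set -/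
abbrev QX : Type := Quotient (QuotientGroup.rightRel H)

omit [Fintype V] [LinearOrder V] in
variable {G H} in
theorem QX_mul {h : W G} (hh : h ∈ H) (w : W G) : (Quotient.mk'' (h * w) : QX G H) = Quotient.mk'' w := by
  refine Quotient.sound' ?_
  rw [QuotientGroup.rightRel_apply, mul_inv_rev, mul_inv_cancel_left]
  exact H.inv_mem hh

/-- the pull-back of functions -/
noncomputable def PBZ : (Finset V → QX G H → ℤ) →ₗ[ℤ] (W G → Finset V → ℤ) where
  toFun c w T := c T (Quotient.mk'' w)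
  map_add' _ _ := rfl
  map_smul' _ _ := rfl

theorem PBZ_inj : Function.Injective (PBZ G H) := by
  intro c d h
  funext T x
  induction x using Quotient.inductionOn' with
  | h w => exact congrFun (congrFun h w) T

theorem PBZ_bd (c : Finset V → QX G H → ℤ) : PBZ G H (bdZ c) = bdW G (PBZ G H c) := by
  funext w T
  show bdZ c T (Quotient.mk'' w) = ∑ v ∈ Tᶜ, sg v T * PBZ G H c w (insert v T)
  rw [bdZ_apply, Finset.sum_apply]
  rfl

theorem PBZ_CZ (i : ℕ) : (CZ G (aa G H) i).map (PBZ G H) = CH G H i := by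
  ext c
  rw [Submodule.mem_map]
  constructor
  · rintro ⟨c, ⟨h1, h2⟩, rfl⟩
    refine ⟨fun h hh w T => ?_, fun w T hT => ?_, fun w T t ht => ?_⟩
    · show c T (Quotient.mk'' (h * w)) = c T (Quotient.mk'' w)
      rw [QX_mul hh]
    · show c T (Quotient.mk'' w) = 0
      rw [h1 T hT]; rfl
    · show c T (Quotient.mk'' (w * (cox G).simple t)) = - c T (Quotient.mk'' w)
      rw [← aa_mk, h2 T t ht]
  · rintro ⟨h1, h2, h3⟩
    refine ⟨fun T x => Quotient.liftOn' x (fun w => c w T) (fun a b hab => ?_), ⟨fun T hT => ?_, fun T t ht x => ?_⟩, rfl⟩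
    · rw [QuotientGroup.rightRel_apply] at hab
      have h4 := h1 _ hab a T
      rw [inv_mul_cancel_right] at h4
      exact h4.symm
    · funext x
      induction x using Quotient.inductionOn' with
      | h w => exact h2 w T hT
    · induction x using Quotient.inductionOn' with
      | h w => exact h3 w T t ht

theorem tors_eq (i : ℕ) : tors G H i = Nat.card (Submodule.torsion ℤ (HX G (aa G H) i)) := by
  have hmem : ∀ c, PBZ G H c ∈ CH G H i ↔ c ∈ CZ G (aa G H) i := by
    intro c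
    rw [← PBZ_CZ]
    constructor
    · rintro ⟨d, hd, hdc⟩
      rwa [← PBZ_inj G H hdc]
    · intro h; exact ⟨c, h, rfl⟩
  have hmemZ : ∀ c, PBZ G H c ∈ ZH G H i ↔ c ∈ ZX G (aa G H) i := by
    intro c
    refine and_congr (hmem c) ?_
    rw [SetLike.mem_coe, SetLike.mem_coe, LinearMap.mem_ker, LinearMap.mem_ker, ← PBZ_bd]
    constructor
    · intro h
      exact PBZ_inj G H (by rw [h, map_zero])
    · intro h; rw [h, map_zero]
  let e0 : ↥(ZX G (aa G H) i) →ₗ[ℤ] ↥(ZH G H i) := (PBZ G H).restrict fun c hc => (hmemZ c).2 hc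
  let e : ↥(ZX G (aa G H) i) ≃ₗ[ℤ] ↥(ZH G H i) := LinearEquiv.ofBijective e0 (by
    constructor
    · intro c d h
      exact Subtype.ext (PBZ_inj G H (congrArg Subtype.val h))
    · rintro ⟨c, hc⟩
      have h1 : c ∈ (CZ G (aa G H) i).map (PBZ G H) := by rw [PBZ_CZ]; exact hc.1
      obtain ⟨d, -, rfl⟩ := h1
      exact ⟨⟨d, (hmemZ d).1 hc⟩, rfl⟩)
  have he : ∀ c, ((e c : ↥(ZH G H i)) : W G → Finset V → ℤ) = PBZ G H c.1 := fun c => rfl
  have hB : ((BZ G (aa G H) i).submoduleOf (ZX G (aa G H) i)).map (e : _ →ₗ[ℤ] _) =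
      (BH G H i).submoduleOf (ZH G H i) := by
    ext c
    rw [Submodule.mem_map, mem_sub]
    constructor
    · rintro ⟨d, hd, rfl⟩
      rw [mem_sub] at hd
      obtain ⟨b, hb, hbd⟩ := hd
      refine ⟨PBZ G H b, ?_, ?_⟩
      · rw [← PBZ_CZ]; exact ⟨b, hb, rfl⟩
      · rw [← PBZ_bd, hbd]; rfl
    · rintro ⟨b, hb, hbc⟩
      have h1 : b ∈ (CZ G (aa G H) (i + 1)).map (PBZ G H) := by rw [PBZ_CZ]; exact hb
      obtain ⟨d, hd, rfl⟩ := h1
      obtain ⟨c', rfl⟩ := e.surjective c
      refine ⟨c', ?_, rfl⟩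
      rw [mem_sub]
      refine ⟨d, hd, ?_⟩
      apply PBZ_inj G H
      rw [PBZ_bd]
      exact hbc
  let E : HX G (aa G H) i ≃ₗ[ℤ] (↥(ZH G H i) ⧸ (BH G H i).submoduleOf (ZH G H i)) :=
    Submodule.Quotient.equiv _ _ e hB
  let E' : HX G (aa G H) i ≃+ HH G H i := E.toAddEquiv
  have hE : ∀ x, x ∈ Submodule.torsion ℤ (HX G (aa G H) i) ↔ E' x ∈ AddCommGroup.torsion (HH G H i) := by
    intro x
    have h1 : x ∈ Submodule.torsion ℤ (HX G (aa G H) i) ↔ ∃ m : ℕ, 0 < m ∧ m • x = 0 := by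
      rw [Submodule.mem_torsion_iff]
      constructor
      · rintro ⟨⟨m, hm⟩, h⟩
        have hm0 : m ≠ 0 := nonZeroDivisors.ne_zero hm
        refine ⟨m.natAbs, Int.natAbs_pos.2 hm0, ?_⟩
        have h2 : m • x = 0 := h
        rcases Int.natAbs_eq m with h3 | h3
        · rw [h3] at h2
          rwa [natCast_zsmul] at h2
        · rw [h3, neg_smul, neg_eq_zero] at h2
          rwa [natCast_zsmul] at h2
      · rintro ⟨m, hm, h⟩
        refine ⟨⟨(m : ℤ), mem_nonZeroDivisors_of_ne_zero (by exact_mod_cast hm.ne')⟩, ?_⟩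
        show (m : ℤ) • x = 0
        rw [natCast_zsmul]
        exact h
    have h2 : E' x ∈ AddCommGroup.torsion (HH G H i) ↔ ∃ m : ℕ, 0 < m ∧ m • E' x = 0 := by
      rw [AddCommGroup.mem_torsion, isOfFinAddOrder_iff_nsmul_eq_zero]
    rw [h1, h2]
    refine exists_congr fun m => and_congr_right fun _ => ?_
    rw [← map_nsmul, EmbeddingLike.map_eq_zero_iff]
  unfold tors
  refine (Nat.card_congr ?_).symm
  exact E'.toEquiv.subtypeEquiv hE

end H

end Pool.Agent.N504.TG
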