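import Pool.Agent.W907.SG.Defs

/-!
# The integral homology of the quotients of the Davis complex
-/

set_option autoImplicit false

namespace Pool.Agent.N504.TG

open Pool.Agent.W907.SG

/-- The integral cellular `i`-chains of the quotient of the Davis complex of `W G` by the subgroup `H` (which acts
freely and cocompactly), written as `H`-invariant integral cellular chains of the Davis complex. An `i`-cube is a
coset `w W_T` with `T` a clique with `i` elements; `c w T` is the coefficient of the cube `w W_T` with the orientation
given by the corner `w` and the order of `T`; crossing to the corner `w t` (`t ∈ T`) reverses the orientation. -/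
def CH {V : Type} (G : SimpleGraph V) (H : Subgroup (W G)) (i : ℕ) : Submodule ℤ (W G → Finset V → ℤ) where
  carrier := {c | (∀ h ∈ H, ∀ w T, c (h * w) T = c w T) ∧
    (∀ w (T : Finset V), ¬ (G.IsClique (T : Set V) ∧ T.card = i) → c w T = 0) ∧
    (∀ w (T : Finset V) t, t ∈ T → c (w * (cox G).simple t) T = - c w T)}
  add_mem' := by
    rintro c d ⟨h1, h2, h3⟩ ⟨g1, g2, g3⟩
    refine ⟨fun h hh w T => ?_, fun w T hT => ?_, fun w T t ht => ?_⟩
    · simp only [Pi.add_apply, h1 h hh, g1 h hh]
    · simp only [Pi.add_apply, h2 w T hT, g2 w T hT, add_zero]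
    · simp only [Pi.add_apply, h3 w T t ht, g3 w T t ht]; ring
  zero_mem' := by
    refine ⟨fun h hh w T => rfl, fun w T hT => rfl, fun w T t ht => ?_⟩
    simp
  smul_mem' := by
    rintro r c ⟨h1, h2, h3⟩
    refine ⟨fun h hh w T => ?_, fun w T hT => ?_, fun w T t ht => ?_⟩
    · simp only [Pi.smul_apply, h1 h hh]
    · simp only [Pi.smul_apply, h2 w T hT, smul_zero]
    · simp only [Pi.smul_apply, h3 w T t ht, smul_neg]

section
variable {V : Type} [Fintype V] [LinearOrder V] (G : SimpleGraph V) (H : Subgroup (W G)) (i : ℕ)

/-- the boundary operator -/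
def bdW : (W G → Finset V → ℤ) →ₗ[ℤ] (W G → Finset V → ℤ) where
  toFun c w T := ∑ v ∈ Tᶜ, sg v T * c w (insert v T)
  map_add' c d := by
    funext w T
    simp [mul_add, Finset.sum_add_distrib]
  map_smul' a c := by
    funext w T
    simp only [Pi.smul_apply, RingHom.id_apply, smul_eq_mul, Finset.mul_sum]
    refine Finset.sum_congr rfl fun v _ => ?_
    ring

/-- the integral `i`-cycles -/
def ZH : Submodule ℤ (W G → Finset V → ℤ) := CH G H i ⊓ LinearMap.ker (bdW G)

/-- the integral `i`-boundaries -/
def BH : Submodule ℤ (W G → Finset V → ℤ) := (CH G H (i + 1)).map (bdW G)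

/-- the `i`-th integral homology group of the quotient of the Davis complex of `W G` by `H` -/
def HH : Type := ↥(ZH G H i) ⧸ (BH G H i).submoduleOf (ZH G H i)

/-- the addition of homology classes -/
noncomputable instance instHH : AddCommGroup (HH G H i) :=
  Submodule.Quotient.addCommGroup ((BH G H i).submoduleOf (ZH G H i))

/-- the order of the torsion subgroup of the `i`-th integral homology group of the quotient of the Davis complex of
`W G` by `H` -/
noncomputable def tors : ℕ := Nat.card (AddCommGroup.torsion (HH G H i))

end

end Pool.Agent.N504.TG
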