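import Pool.Agent.N504.TG.Susp
import Pool.Agent.R781.VS.VDel

/-!
# Adding the midpoints of subdivided edges
-/

set_option autoImplicit false

namespace Pool.Agent.N504.TG

open Module Pool.Agent.W907.SG

variable {V F M : Type} [Fintype V] [LinearOrder V] [Field F] [AddCommGroup M] [Module F M]
  [FiniteDimensional F M]

/-- suspensions inside a bigger graph -/
theorem link_bound (G : SimpleGraph V) (ρ : V → M →ₗ[F] M) (B : Set V) (s t : V) (h2 : (2 : F) ≠ 0)
    (hs : s ∈ B) (ht : t ∈ B) (hst : s ≠ t) (hna : ¬ G.Adj s t)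
    (hadj : ∀ u ∈ B, u ≠ s → u ≠ t → G.Adj u s ∧ G.Adj u t)
    (hinv : ∀ v m, ρ v (ρ v m) = m) (hcomm : ∀ u v, G.Adj u v → ∀ m, ρ u (ρ v m) = ρ v (ρ u m))
    (q : ℕ) (hq : (q : F) ≠ 0) (hr : (ρ s * ρ t) ^ q = 1) (i : ℕ) :
    beta G ρ B ∅ i ≤ 2 ^ Fintype.card V * finrank F (FX (ρ s) (ρ t)) := by
  classical
  let : Fintype ↥B := Fintype.ofFinite _
  have h3 := tr ↥B V F M G (G.induce B) ρ (fun u => (u : V)) (Subtype.strictMono_coe _)
    (fun u u' => Iff.rfl) i
  rw [Subtype.range_coe] at h3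
  rw [h3]
  have h4 := susp_bound (G.induce B) (fun u : ↥B => ρ u) ⟨s, hs⟩ ⟨t, ht⟩ h2
    (fun h => hst (congrArg Subtype.val h)) hna
    (fun u hu1 hu2 => hadj u u.2 (fun h => hu1 (Subtype.ext h)) (fun h => hu2 (Subtype.ext h)))
    (fun v m => hinv v m) (fun u v huv m => hcomm u v huv m) q hq hr i
  refine h4.trans (Nat.mul_le_mul_right _ (Nat.pow_le_pow_right (by norm_num) ?_))
  exact Fintype.card_le_of_injective _ Subtype.val_injective

/-- adding midpoints changes the Betti numbers by a small amount -/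
theorem mid_bound (G : SimpleGraph V) (ρ : V → M →ₗ[F] M) (h2 : (2 : F) ≠ 0)
    (hinv : ∀ v m, ρ v (ρ v m) = m) (hcomm : ∀ u v, G.Adj u v → ∀ m, ρ u (ρ v m) = ρ v (ρ u m))
    (O : Set V) (y y' : V → V)
    (h1 : ∀ x ∈ O, y x ∉ O ∧ y' x ∉ O ∧ G.Adj x (y x) ∧ G.Adj x (y' x) ∧ y x ≠ y' x ∧ ¬ G.Adj (y x) (y' x))
    (h3 : ∀ x ∈ O, ∀ w, G.Adj x w → w ≠ y x → w ≠ y' x → G.Adj w (y x) ∧ G.Adj w (y' x))
    (q : V → ℕ) (hq : ∀ x ∈ O, ((q x : ℕ) : F) ≠ 0) (hr : ∀ x ∈ O, (ρ (y x) * ρ (y' x)) ^ q x = 1) (D : ℕ)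
    (hD : ∀ x ∈ O, 2 ^ Fintype.card V * finrank F (FX (ρ (y x)) (ρ (y' x))) ≤ D) (i : ℕ) :
    beta G ρ Set.univ ∅ i ≤ beta G ρ Oᶜ ∅ i + Fintype.card V * D ∧
    beta G ρ Oᶜ ∅ i ≤ beta G ρ Set.univ ∅ i + Fintype.card V * D := by
  classical
  have hlk : ∀ x ∈ O, ∀ A : Set V, Oᶜ ⊆ A → ∀ j, beta G ρ (A ∩ G.neighborSet x) (insert x ∅) j ≤ D := by
    intro x hx A hA j
    obtain ⟨k1, k2, k3, k4, k5, k6⟩ := h1 x hx
    have e1 := eig V F M G ρ (A ∩ G.neighborSet x) ∅ x h2 (hinv x) (fun u hu m => by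
      have hu' : G.Adj u x := by
        rcases hu with hu | hu
        · exact ((G.mem_neighborSet x u).1 hu.2).symm
        · exact absurd hu (by simp)
      exact hcomm u x hu' m) j
    have e2 := link_bound G ρ (A ∩ G.neighborSet x) (y x) (y' x) h2 ⟨hA k1, k3⟩ ⟨hA k2, k4⟩ k5 k6
      (fun u hu hu1 hu2 => h3 x hx u hu.2 hu1 hu2) hinv hcomm (q x) (hq x hx) (hr x hx) j
    exact e1.trans (e2.trans (hD x hx))
  have key : ∀ s : Finset V, (∀ x ∈ s, x ∈ O) →
      beta G ρ (Oᶜ ∪ (s : Set V)) ∅ i ≤ beta G ρ Oᶜ ∅ i + s.card * D ∧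
      beta G ρ Oᶜ ∅ i ≤ beta G ρ (Oᶜ ∪ (s : Set V)) ∅ i + s.card * D := by
    intro s
    induction s using Finset.induction_on with
    | empty =>
      intro _
      simp
    | insert x s hx ih =>
      intro hO
      have hs : ∀ z ∈ s, z ∈ O := fun z hz => hO z (Finset.mem_insert_of_mem hz)
      have hxO : x ∈ O := hO x (Finset.mem_insert_self _ _)
      obtain ⟨i1, i2⟩ := ih hs
      have hset : Oᶜ ∪ ((insert x s : Finset V) : Set V) = insert x (Oᶜ ∪ (s : Set V)) := by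
        ext z
        simp only [Finset.coe_insert, Set.mem_union, Set.mem_compl_iff, Set.mem_insert_iff, Finset.mem_coe]
        tauto
      have hxn : x ∉ Oᶜ ∪ (s : Set V) := by
        rintro (h | h)
        · exact h hxO
        · exact hx h
      rw [hset, Finset.card_insert_of_notMem hx]
      have hl := hlk x hxO (Oᶜ ∪ (s : Set V)) Set.subset_union_left
      constructor
      · have hv := vert V F M G ρ (Oᶜ ∪ (s : Set V)) ∅ x hxn (Set.notMem_empty x)
        rcases i with _ | i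
        · have := hv.1
          rw [Nat.add_mul]
          omega
        · have h5 := hv.2 i
          have h6 := hl i
          rw [Nat.add_mul]
          omega
      · have hv := Pool.Agent.R781.VS.vdel G ρ (Oᶜ ∪ (s : Set V)) ∅ x hxn i
        have h6 := hl i
        rw [Nat.add_mul]
        omega
  have h5 := key (Finset.univ.filter (fun x => x ∈ O)) (fun x hx => (Finset.mem_filter.1 hx).2)
  have hset : Oᶜ ∪ ((Finset.univ.filter (fun x => x ∈ O) : Finset V) : Set V) = Set.univ := by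
    ext x
    simp only [Set.mem_univ, Set.mem_union, Set.mem_compl_iff, Finset.coe_filter, Finset.mem_univ, true_and,
      Set.mem_ofPred_eq, iff_true]
    exact (em (x ∈ O)).symm
  rw [hset] at h5
  have h6 : (Finset.univ.filter (fun x => x ∈ O)).card * D ≤ Fintype.card V * D :=
    Nat.mul_le_mul_right _ (Finset.card_le_univ _)
  omega

end Pool.Agent.N504.TG
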