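import Pool.Agent.N504.TG.Cyc

/-!
# Cycles on the octahedralization
-/

set_option autoImplicit false

namespace Pool.Agent.N504.TG

open Module Pool.Agent.W907.SG

variable {V F M U : Type} [Fintype V] [LinearOrder V] [Field F] [AddCommGroup M] [Module F M]
  [FiniteDimensional F M] [Fintype U] [DecidableEq U] [Nonempty U] {k : ℕ}

/-- the inverse of `vtx` -/
noncomputable def dd (vtx : U → Bool → V) (v : V) : U × Bool :=
  Function.invFun (fun x : U × Bool => vtx x.1 x.2) v

omit [Fintype V] [LinearOrder V] [Fintype U] [DecidableEq U] in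
theorem dd_vtx {vtx : U → Bool → V} (hvi : Function.Injective (fun x : U × Bool => vtx x.1 x.2)) (u : U) (b : Bool) :
    dd vtx (vtx u b) = (u, b) :=
  Function.leftInverse_invFun hvi (u, b)

/-- the operator of a vertex -/
noncomputable def PV (ρ : V → M →ₗ[F] M) (vtx : U → Bool → V) (q : U → ℕ) (v : V) : M →ₗ[F] M :=
  PP F (ρ (vtx (dd vtx v).1 false) : Module.End F M) (ρ (vtx (dd vtx v).1 true)) (q (dd vtx v).1) (dd vtx v).2

open Classical in
/-- the chains, on sections -/
noncomputable def Zc (ρ : V → M →ₗ[F] M) (vtx : U → Bool → V) (q : U → ℕ) (z : (Fin k → U) → F) (y : M)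
    (τ : Fin k → V) : M :=
  if ∀ i, ∃ x : U × Bool, τ i = vtx x.1 x.2 then
    z (fun i => (dd vtx (τ i)).1) • (List.ofFn fun i => (PV ρ vtx q (τ i) : Module.End F M)).prod y
  else 0

section
variable (G : SimpleGraph V) (ρ : V → M →ₗ[F] M) (A : Set V) (col : V → Fin k) (vtx : U → Bool → V)
  (q : U → ℕ) (z : (Fin k → U) → F)

/-- the assumptions on the vertices, the operators and the cycle -/
structure OHyp : Prop where
  hvi : Function.Injective (fun x : U × Bool => vtx x.1 x.2)
  hinv : ∀ v m, ρ v (ρ v m) = m
  hcomm : ∀ u v, G.Adj u v → ∀ m, ρ u (ρ v m) = ρ v (ρ u m)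
  hq : ∀ u, ((q u : ℕ) : F) ≠ 0
  hr : ∀ u, (ρ (vtx u false) * ρ (vtx u true)) ^ q u = 1
  z1 : ∀ w, z w ≠ 0 → (∀ i b, col (vtx (w i) b) = i ∧ vtx (w i) b ∈ A) ∧
    ∀ i j, i ≠ j → ∀ b b', G.Adj (vtx (w i) b) (vtx (w j) b')
  z2 : ∀ w i, ∑ u, z (Function.update w i u) = 0

variable {G ρ A col vtx q z}

omit [Fintype V] [LinearOrder V] [FiniteDimensional F M] [Fintype U] [DecidableEq U] in
theorem PV_vtx (hvi : Function.Injective (fun x : U × Bool => vtx x.1 x.2)) (u : U) (b : Bool) :
    (PV ρ vtx q (vtx u b) : Module.End F M) = PP F (ρ (vtx u false) : Module.End F M) (ρ (vtx u true)) (q u) b := by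
  unfold PV
  rw [dd_vtx hvi]

theorem PV_comm (H : OHyp G ρ A col vtx q z) (w : Fin k → U) (hw : z w ≠ 0) (i j : Fin k) (hij : i ≠ j)
    (b b' : Bool) : Commute (PV ρ vtx q (vtx (w i) b) : Module.End F M) (PV ρ vtx q (vtx (w j) b')) := by
  rw [PV_vtx H.hvi, PV_vtx H.hvi]
  have h : ∀ c c', Commute (ρ (vtx (w i) c) : Module.End F M) (ρ (vtx (w j) c')) := by
    intro c c'
    refine LinearMap.ext fun m => ?_
    exact H.hcomm _ _ ((H.z1 w hw).2 i j hij c c') m
  refine PP_comm _ _ _ _ _ ?_ ?_
  · exact (PP_comm _ _ _ _ _ (h false false).symm (h true false).symm).symm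
  · exact (PP_comm _ _ _ _ _ (h false true).symm (h true true).symm).symm

theorem Zc_vtx (H : OHyp G ρ A col vtx q z) (y : M) (w : Fin k → U) (ε : Fin k → Bool) :
    Zc ρ vtx q z y (fun i => vtx (w i) (ε i)) =
      z w • (List.ofFn fun i => (PV ρ vtx q (vtx (w i) (ε i)) : Module.End F M)).prod y := by
  unfold Zc
  rw [if_pos (fun i => ⟨(w i, ε i), rfl⟩)]
  simp only [dd_vtx H.hvi]

theorem Zc_dec (H : OHyp G ρ A col vtx q z) (y : M) (τ : Fin k → V) (h : Zc ρ vtx q z y τ ≠ 0) :
    ∃ (w : Fin k → U) (ε : Fin k → Bool), τ = (fun i => vtx (w i) (ε i)) ∧ z w ≠ 0 := by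
  by_cases h1 : ∀ i, ∃ x : U × Bool, τ i = vtx x.1 x.2
  · choose x hx using h1
    have hτ : τ = fun i => vtx (x i).1 (x i).2 := funext hx
    refine ⟨fun i => (x i).1, fun i => (x i).2, hτ, fun h2 => h ?_⟩
    rw [hτ, Zc_vtx H y (fun i => (x i).1) (fun i => (x i).2), h2, zero_smul]
  · exact absurd (by unfold Zc; rw [if_neg h1]) h

theorem Zc_update (H : OHyp G ρ A col vtx q z) (y : M) (w : Fin k → U) (ε : Fin k → Bool) (i : Fin k) (u : U)
    (b : Bool) : Zc ρ vtx q z y (Function.update (fun i => vtx (w i) (ε i)) i (vtx u b)) =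
      z (Function.update w i u) •
        (List.ofFn (Function.update (fun i => (PV ρ vtx q (vtx (w i) (ε i)) : Module.End F M)) i 1)).prod
          ((PV ρ vtx q (vtx u b) : Module.End F M) y) := by
  have h1 : Function.update (fun i => vtx (w i) (ε i)) i (vtx u b) =
      fun j => vtx (Function.update w i u j) (Function.update ε i b j) := by
    funext j
    by_cases hj : j = i
    · subst hj; simp only [Function.update_self]
    · simp only [Function.update_of_ne hj]
  rw [h1, Zc_vtx H]
  by_cases hz : z (Function.update w i u) = 0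
  · rw [hz, zero_smul, zero_smul]
  · congr 1
    have h2 := (prod_split (fun j => (PV ρ vtx q (vtx (Function.update w i u j) (Function.update ε i b j)) :
      Module.End F M)) i (fun j hj => PV_comm H _ hz i j hj.symm _ _)).2
    rw [h2, Module.End.mul_apply]
    simp only [Function.update_self]
    congr 1
    congr 2
    funext j
    by_cases hj : j = i
    · subst hj; simp only [Function.update_self]
    · simp only [Function.update_of_ne hj]

/-- the vectors without invariants -/
def YY (ρ : V → M →ₗ[F] M) (vtx : U → Bool → V) (q : U → ℕ) (y : M) : Prop :=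
  ∀ u, (∑ j ∈ Finset.range (q u), (ρ (vtx u false) * ρ (vtx u true) : Module.End F M) ^ j) y = 0

theorem PV_sum (H : OHyp G ρ A col vtx q z) (y : M) (hy : YY ρ vtx q y) (u : U) :
    (PV ρ vtx q (vtx u false) : Module.End F M) y + (PV ρ vtx q (vtx u true) : Module.End F M) y = y := by
  rw [PV_vtx H.hvi, PV_vtx H.hvi, ← LinearMap.add_apply, PP_sum _ _ _ (H.hq u), LinearMap.sub_apply,
    LinearMap.smul_apply, hy u, smul_zero, sub_zero, Module.End.one_apply]

theorem Zc_one (H : OHyp G ρ A col vtx q z) (y : M) (τ : Fin k → V) (h : Zc ρ vtx q z y τ ≠ 0) :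
    (∀ i, col (τ i) = i) ∧ (∀ i j, i ≠ j → G.Adj (τ i) (τ j)) ∧ ∀ i, τ i ∈ A := by
  obtain ⟨w, ε, rfl, hw⟩ := Zc_dec H y τ h
  obtain ⟨h1, h2⟩ := H.z1 w hw
  exact ⟨fun i => (h1 i _).1, fun i j hij => h2 i j hij _ _, fun i => (h1 i _).2⟩

theorem Zc_two (H : OHyp G ρ A col vtx q z) (y : M) (τ : Fin k → V) (i : Fin k) :
    ρ (τ i) (Zc ρ vtx q z y τ) = - Zc ρ vtx q z y τ := by
  by_cases h : Zc ρ vtx q z y τ = 0
  · rw [h, map_zero, neg_zero]
  · obtain ⟨w, ε, rfl, hw⟩ := Zc_dec H y τ h
    rw [Zc_vtx H, map_smul, ← smul_neg]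
    congr 1
    have h2 := (prod_split (fun j => (PV ρ vtx q (vtx (w j) (ε j)) : Module.End F M)) i
      (fun j hj => PV_comm H _ hw i j hj.symm _ _)).1
    rw [h2, ← Module.End.mul_apply, ← mul_assoc, PV_vtx H.hvi]
    have h3 := PP_anti (F := F) (ρ (vtx (w i) false) : Module.End F M) (ρ (vtx (w i) true)) (q (w i))
      (LinearMap.ext fun m => H.hinv _ m) (LinearMap.ext fun m => H.hinv _ m) (ε i)
    have h4 : (if ε i = true then (ρ (vtx (w i) true) : Module.End F M) else ρ (vtx (w i) false)) =
        ρ (vtx (w i) (ε i)) := by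
      cases ε i <;> rfl
    rw [h4] at h3
    rw [h3, neg_mul, LinearMap.neg_apply]

theorem Zc_three (H : OHyp G ρ A col vtx q z) (y : M) (hy : YY ρ vtx q y) (τ : Fin k → V) (i : Fin k) :
    ∑ v, Zc ρ vtx q z y (Function.update τ i v) = 0 := by
  classical
  by_cases h1 : ∀ j, j ≠ i → ∃ x : U × Bool, τ j = vtx x.1 x.2
  · have u0 : U := Classical.arbitrary U
    have h2 : ∀ j, ∃ x : U × Bool, j ≠ i → τ j = vtx x.1 x.2 := by
      intro j
      by_cases hj : j = i
      · exact ⟨(u0, true), fun h => absurd hj h⟩
      · obtain ⟨x, hx⟩ := h1 j hj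
        exact ⟨x, fun _ => hx⟩
    choose x hx using h2
    have h3 : ∀ v, Function.update τ i v = Function.update (fun j => vtx (x j).1 (x j).2) i v := by
      intro v
      funext j
      by_cases hj : j = i
      · subst hj; rw [Function.update_self, Function.update_self]
      · rw [Function.update_of_ne hj, Function.update_of_ne hj, hx j hj]
    simp only [h3]
    rw [← Fintype.sum_of_injective (fun p : U × Bool => vtx p.1 p.2) H.hvi
      (fun p : U × Bool => Zc ρ vtx q z y (Function.update (fun j => vtx (x j).1 (x j).2) i (vtx p.1 p.2))) _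
      (fun v hv => ?_) (fun p => rfl)]
    · simp only [Zc_update H]
      rw [Fintype.sum_prod_type]
      simp only [Fintype.sum_bool]
      have h4 : ∀ u, z (Function.update (fun j => (x j).1) i u) •
          (List.ofFn (Function.update (fun j => (PV ρ vtx q (vtx (x j).1 (x j).2) : Module.End F M)) i 1)).prod
            ((PV ρ vtx q (vtx u true) : Module.End F M) y) +
          z (Function.update (fun j => (x j).1) i u) •
          (List.ofFn (Function.update (fun j => (PV ρ vtx q (vtx (x j).1 (x j).2) : Module.End F M)) i 1)).prod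
            ((PV ρ vtx q (vtx u false) : Module.End F M) y) =
          z (Function.update (fun j => (x j).1) i u) •
          (List.ofFn (Function.update (fun j => (PV ρ vtx q (vtx (x j).1 (x j).2) : Module.End F M)) i 1)).prod
            y := by
        intro u
        rw [← smul_add, ← map_add, add_comm, PV_sum H y hy u]
      simp only [h4]
      rw [← Finset.sum_smul, H.z2, zero_smul]
    · by_contra hcon
      obtain ⟨w, ε, hw, -⟩ := Zc_dec H y _ hcon
      have := congrFun hw i
      rw [Function.update_self] at this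
      exact hv ⟨(w i, ε i), this.symm⟩
  · push Not at h1
    obtain ⟨j, hj, hx⟩ := h1
    refine Finset.sum_eq_zero fun v _ => ?_
    by_contra hcon
    obtain ⟨w, ε, hw, -⟩ := Zc_dec H y _ hcon
    have := congrFun hw j
    rw [Function.update_of_ne hj] at this
    exact hx (w j, ε j) this

/-- reconstruction of `y` -/
theorem Zc_rec (H : OHyp G ρ A col vtx q z) (y : M) (hy : YY ρ vtx q y) (w : Fin k → U) (hw : z w ≠ 0)
    (h : ∀ ε : Fin k → Bool, Zc ρ vtx q z y (fun i => vtx (w i) (ε i)) = 0) : y = 0 := by
  have h0 : ∀ ε : Fin k → Bool,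
      (List.ofFn fun i => (PV ρ vtx q (vtx (w i) (ε i)) : Module.End F M)).prod y = 0 := by
    intro ε
    have := h ε
    rw [Zc_vtx H] at this
    exact (smul_eq_zero.1 this).resolve_left hw
  -- remove the factors one after the other
  have key : ∀ (s : Finset (Fin k)) (ε : Fin k → Bool),
      (List.ofFn fun i => if i ∈ s then (1 : Module.End F M) else PV ρ vtx q (vtx (w i) (ε i))).prod y = 0 := by
    intro s
    induction s using Finset.induction_on with
    | empty => intro ε; simpa using h0 ε
    | insert i s hi ih =>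
      intro ε
      have h1 : ∀ b, (List.ofFn fun j => if j ∈ s then (1 : Module.End F M) else
            PV ρ vtx q (vtx (w j) (Function.update ε i b j))).prod y =
          (List.ofFn fun j => if j ∈ insert i s then (1 : Module.End F M) else
            PV ρ vtx q (vtx (w j) (ε j))).prod ((PV ρ vtx q (vtx (w i) b) : Module.End F M) y) := by
        intro b
        have h2 := (prod_split (fun j => if j ∈ s then (1 : Module.End F M) else
            PV ρ vtx q (vtx (w j) (Function.update ε i b j))) i (fun j hj => by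
              show Commute (if i ∈ s then (1 : Module.End F M) else _) (if j ∈ s then (1 : Module.End F M) else _)
              rw [if_neg hi]
              split_ifs
              · exact Commute.one_right _
              · exact PV_comm H w hw i j hj.symm _ _)).2
        rw [h2, Module.End.mul_apply]
        simp only [if_neg hi, Function.update_self]
        congr 1
        congr 2
        funext j
        by_cases hj : j = i
        · subst hj
          rw [Function.update_self, if_pos (Finset.mem_insert_self _ _)]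
        · rw [Function.update_of_ne hj, Function.update_of_ne hj]
          by_cases hjs : j ∈ s
          · rw [if_pos hjs, if_pos (Finset.mem_insert_of_mem hjs)]
          · rw [if_neg hjs, if_neg (by simp [hj, hjs])]
      have h3 := PV_sum H y hy (w i)
      have h4 := ih (Function.update ε i false)
      have h5 := ih (Function.update ε i true)
      rw [h1] at h4 h5
      rw [← h3, map_add, h4, h5, add_zero]
  have h1 := key Finset.univ (fun _ => true)
  simp only [Finset.mem_univ, if_true] at h1
  have h2 : (List.ofFn fun _ : Fin k => (1 : Module.End F M)).prod = 1 := by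
    refine List.prod_eq_one fun x hx => ?_
    obtain ⟨j, rfl⟩ := List.mem_ofFn.1 hx
    rfl
  rw [h2, Module.End.one_apply] at h1
  exact h1

variable (ρ vtx q z) in
/-- linearity -/
noncomputable def Zl (col : V → Fin k) (d : V) : M →ₗ[F] (Finset V → M) where
  toFun y := chn col d (Zc ρ vtx q z y)
  map_add' y y' := by
    funext T
    simp only [chn, Zc, Pi.add_apply]
    split_ifs
    · rw [map_add, smul_add, smul_add]
    · simp
    · simp
  map_smul' r y := by
    funext T
    simp only [chn, Zc, Pi.smul_apply, RingHom.id_apply]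
    split_ifs
    · rw [map_smul, smul_comm r]
      congr 1
      exact smul_comm _ _ _
    · simp
    · simp

/-- the lower bound for the cycles -/
theorem oct_lower (H : OHyp G ρ A col vtx q z) (hz : ∃ w, z w ≠ 0) :
    finrank F M ≤ finrank F (ZZ G ρ A ∅ k) +
      ∑ u, finrank F (FX (ρ (vtx u false)) (ρ (vtx u true))) := by
  classical
  obtain ⟨w, hw⟩ := hz
  let Eu : ∀ u, M →ₗ[F] FX (ρ (vtx u false)) (ρ (vtx u true)) := fun u =>
    LinearMap.codRestrict _ (∑ j ∈ Finset.range (q u), (ρ (vtx u false) * ρ (vtx u true) : Module.End F M) ^ j)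
      (fun y => by
        rw [mem_FX]
        set r : Module.End F M := ρ (vtx u false) * ρ (vtx u true) with hr
        have h1 : r * ∑ j ∈ Finset.range (q u), r ^ j = ∑ j ∈ Finset.range (q u), r ^ j := by
          have h2 := mul_geom_sum r (q u)
          rw [hr, H.hr u, sub_self, ← hr, sub_mul, one_mul, sub_eq_zero] at h2
          exact h2
        have h2 : ρ (vtx u false) (ρ (vtx u true) ((∑ j ∈ Finset.range (q u), r ^ j) y)) =
            (∑ j ∈ Finset.range (q u), r ^ j) y := by
          have := congrArg (fun f : Module.End F M => f y) h1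
          exact this
        have h3 := congrArg (ρ (vtx u false)) h2
        rw [H.hinv] at h3
        exact h3.symm)
  let E : M →ₗ[F] (∀ u, FX (ρ (vtx u false)) (ρ (vtx u true))) := LinearMap.pi Eu
  have hker : ∀ y ∈ LinearMap.ker E, YY ρ vtx q y := by
    intro y hy u
    have h1 := congrFun (LinearMap.mem_ker.1 hy) u
    exact congrArg Subtype.val h1
  have h1 := LinearMap.finrank_range_add_finrank_ker E
  have h2 : finrank F (LinearMap.range E) ≤ ∑ u, finrank F (FX (ρ (vtx u false)) (ρ (vtx u true))) := by
    refine (Submodule.finrank_le _).trans ?_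
    rw [Module.finrank_pi_fintype]
  have d : V := vtx (Classical.arbitrary U) true
  let Ψ : LinearMap.ker E →ₗ[F] ZZ G ρ A ∅ k := LinearMap.codRestrict _ ((Zl ρ vtx q z col d).comp
    (LinearMap.ker E).subtype) (fun y => by
      refine chn_mem G ρ A col d _ ?_ ?_ ?_
      · exact fun τ h => Zc_one H _ τ h
      · exact fun τ i => Zc_two H _ τ i
      · exact fun τ i => Zc_three H _ (hker y.1 y.2) τ i)
  have hΨ : Function.Injective Ψ := by
    rw [injective_iff_map_eq_zero]
    intro y hy
    apply Subtype.ext
    refine Zc_rec H y.1 (hker y.1 y.2) w hw fun ε => ?_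
    refine chn_zero col d _ (fun τ h => (Zc_one H _ τ h).1) ?_ _
    exact congrArg Subtype.val hy
  have h3 := LinearMap.finrank_le_finrank_of_injective hΨ
  omega

end

end Pool.Agent.N504.TG
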