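import Pool.Agent.N504.TG.Prod
import Pool.Agent.N504.TG.Hom
import Pool.Agent.N504.TG.Grp

/-!
# Products of groups
-/

set_option autoImplicit false

namespace Pool.Agent.N504.TG

open Module Pool.Agent.W907.SG Pool.Agent.W461.SGN
open Pool.Agent.TH652.Join
open Pool.Agent.Y132.SI (aa aa_mk)

attribute [local instance] ordSum

section grp
variable {V U : Type} (G : SimpleGraph V) (H : SimpleGraph U)

/-- the inclusion of the first factor -/
noncomputable def jl : W G →* W (join G H) :=
  (cox G).toCoxeterSystem.lift ⟨fun v => (cox (join G H)).simple (Sum.inl v), liftable G _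
    (fun v => simple_mul_self _ _) (fun u v h => simple_comm (join G H) (Sum.inl u) (Sum.inl v) h)⟩

/-- the inclusion of the second factor -/
noncomputable def jr : W H →* W (join G H) :=
  (cox H).toCoxeterSystem.lift ⟨fun v => (cox (join G H)).simple (Sum.inr v), liftable H _
    (fun v => simple_mul_self _ _) (fun u v h => simple_comm (join G H) (Sum.inr u) (Sum.inr v) h)⟩

/-- the projection to the first factor -/
noncomputable def pl : W (join G H) →* W G :=
  (cox (join G H)).toCoxeterSystem.lift ⟨fun x => match x with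
    | Sum.inl v => (cox G).simple v
    | Sum.inr _ => 1, liftable _ _ (by
      rintro (v | u)
      · exact simple_mul_self G v
      · exact one_mul _) (by
      rintro (v | u) (v' | u') h
      · exact simple_comm G v v' h
      · show (cox G).simple v * 1 = 1 * (cox G).simple v
        rw [mul_one, one_mul]
      · show 1 * (cox G).simple v' = (cox G).simple v' * 1
        rw [mul_one, one_mul]
      · rfl)⟩

/-- the projection to the second factor -/
noncomputable def pr : W (join G H) →* W H :=
  (cox (join G H)).toCoxeterSystem.lift ⟨fun x => match x with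
    | Sum.inl _ => 1
    | Sum.inr v => (cox H).simple v, liftable _ _ (by
      rintro (v | u)
      · exact one_mul _
      · exact simple_mul_self H u) (by
      rintro (v | u) (v' | u') h
      · rfl
      · show 1 * (cox H).simple u' = (cox H).simple u' * 1
        rw [mul_one, one_mul]
      · show (cox H).simple u * 1 = 1 * (cox H).simple u
        rw [mul_one, one_mul]
      · exact simple_comm H u u' h)⟩

theorem jl_simple (v : V) : jl G H ((cox G).simple v) = (cox (join G H)).simple (Sum.inl v) :=
  CoxeterSystem.lift_apply_simple _ _ _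

theorem jr_simple (v : U) : jr G H ((cox H).simple v) = (cox (join G H)).simple (Sum.inr v) :=
  CoxeterSystem.lift_apply_simple _ _ _

theorem pl_inl (v : V) : pl G H ((cox (join G H)).simple (Sum.inl v)) = (cox G).simple v :=
  CoxeterSystem.lift_apply_simple _ _ _

theorem pl_inr (u : U) : pl G H ((cox (join G H)).simple (Sum.inr u)) = 1 :=
  CoxeterSystem.lift_apply_simple _ _ _

theorem pr_inl (v : V) : pr G H ((cox (join G H)).simple (Sum.inl v)) = 1 :=
  CoxeterSystem.lift_apply_simple _ _ _

theorem pr_inr (u : U) : pr G H ((cox (join G H)).simple (Sum.inr u)) = (cox H).simple u :=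
  CoxeterSystem.lift_apply_simple _ _ _

/-- induction on words -/
theorem W_ind {A : Type} (J : SimpleGraph A) (P : W J → Prop) (h1 : P 1)
    (h2 : ∀ w v, P w → P (w * (cox J).simple v)) (w : W J) : P w := by
  obtain ⟨l, rfl⟩ := wp_surj w
  have : ∀ (l : List A) (g : W J), P g → P (g * wp J l) := by
    intro l
    induction l with
    | nil => intro g hg; simpa [wp] using hg
    | cons s l ih =>
      intro g hg
      have e : g * wp J (s :: l) = g * (cox J).simple s * wp J l := by simp [wp, mul_assoc]
      rw [e]
      exact ih _ (h2 _ _ hg)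
  have h3 := this l 1 h1
  rwa [one_mul] at h3

theorem pl_jl (g : W G) : pl G H (jl G H g) = g := by
  refine W_ind G (fun g => pl G H (jl G H g) = g) (by simp) (fun w v h => ?_) g
  rw [map_mul, map_mul, h, jl_simple, pl_inl]

theorem pr_jl (g : W G) : pr G H (jl G H g) = 1 := by
  refine W_ind G (fun g => pr G H (jl G H g) = 1) (by simp) (fun w v h => ?_) g
  rw [map_mul, map_mul, h, jl_simple, pr_inl, mul_one]

theorem pl_jr (g : W H) : pl G H (jr G H g) = 1 := by
  refine W_ind H (fun g => pl G H (jr G H g) = 1) (by simp) (fun w v h => ?_) g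
  rw [map_mul, map_mul, h, jr_simple, pl_inr, mul_one]

theorem pr_jr (g : W H) : pr G H (jr G H g) = g := by
  refine W_ind H (fun g => pr G H (jr G H g) = g) (by simp) (fun w v h => ?_) g
  rw [map_mul, map_mul, h, jr_simple, pr_inr]

theorem comm_lr (g : W G) (h : W H) : jl G H g * jr G H h = jr G H h * jl G H g := by
  have h1 : ∀ v (h : W H), (cox (join G H)).simple (Sum.inl v) * jr G H h =
      jr G H h * (cox (join G H)).simple (Sum.inl v) := by
    intro v h
    refine W_ind H (fun h => (cox (join G H)).simple (Sum.inl v) * jr G H h =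
      jr G H h * (cox (join G H)).simple (Sum.inl v)) (by simp) (fun w u hw => ?_) h
    rw [map_mul, jr_simple, ← mul_assoc, hw, mul_assoc, mul_assoc,
      simple_comm (join G H) (Sum.inl v) (Sum.inr u) trivial]
  refine W_ind G (fun g => jl G H g * jr G H h = jr G H h * jl G H g) (by simp) (fun w v hw => ?_) g
  rw [map_mul, jl_simple, mul_assoc, h1, ← mul_assoc, hw, mul_assoc]

theorem decomp (w : W (join G H)) : jl G H (pl G H w) * jr G H (pr G H w) = w := by
  refine W_ind _ (fun w => jl G H (pl G H w) * jr G H (pr G H w) = w) (by simp) (fun w x hw => ?_) w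
  rcases x with v | u
  · rw [map_mul (pl G H), map_mul (pr G H), pl_inl, pr_inl, mul_one, map_mul (jl G H), jl_simple]
    have h1 := comm_lr G H ((cox G).simple v) (pr G H w)
    rw [jl_simple] at h1
    rw [mul_assoc, h1, ← mul_assoc, hw]
  · rw [map_mul (pl G H), map_mul (pr G H), pl_inr, pr_inr, mul_one, map_mul (jr G H), jr_simple, ← mul_assoc, hw]

variable {G H}

/-- the product of two subgroups -/
noncomputable def PS (A : Subgroup (W G)) (B : Subgroup (W H)) : Subgroup (W (join G H)) :=
  A.comap (pl G H) ⊓ B.comap (pr G H)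

theorem mem_PS {A : Subgroup (W G)} {B : Subgroup (W H)} {w : W (join G H)} :
    w ∈ PS A B ↔ pl G H w ∈ A ∧ pr G H w ∈ B := Iff.rfl

theorem PS_mono {A A' : Subgroup (W G)} {B B' : Subgroup (W H)} (hA : A ≤ A') (hB : B ≤ B') : PS A B ≤ PS A' B' :=
  fun _ h => ⟨hA h.1, hB h.2⟩

theorem PS_normal {A : Subgroup (W G)} {B : Subgroup (W H)} (hA : A.Normal) (hB : B.Normal) : (PS A B).Normal := by
  haveI := hA.comap (pl G H)
  haveI := hB.comap (pr G H)
  exact Subgroup.normal_inf_normal _ _

/-- the map of the quotients -/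
noncomputable def qmap (A : Subgroup (W G)) (B : Subgroup (W H)) (x : QX (join G H) (PS A B)) : QX G A × QX H B :=
  Quotient.liftOn' x (fun w => (Quotient.mk'' (pl G H w), Quotient.mk'' (pr G H w))) (fun a b hab => by
    rw [QuotientGroup.rightRel_apply] at hab
    have h1 : pl G H b * (pl G H a)⁻¹ ∈ A := by
      have := (mem_PS.1 hab).1
      rwa [map_mul, map_inv] at this
    have h2 : pr G H b * (pr G H a)⁻¹ ∈ B := by
      have := (mem_PS.1 hab).2
      rwa [map_mul, map_inv] at this
    refine Prod.ext (Quotient.sound' ?_) (Quotient.sound' ?_)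
    · rw [QuotientGroup.rightRel_apply]; exact h1
    · rw [QuotientGroup.rightRel_apply]; exact h2)

theorem qmap_bij (A : Subgroup (W G)) (B : Subgroup (W H)) : Function.Bijective (qmap A B) := by
  constructor
  · intro x y h
    induction x using Quotient.inductionOn' with
    | h w =>
      induction y using Quotient.inductionOn' with
      | h w' =>
        have h1 : (Quotient.mk'' (pl G H w) : QX G A) = Quotient.mk'' (pl G H w') := congrArg Prod.fst h
        have h2 : (Quotient.mk'' (pr G H w) : QX H B) = Quotient.mk'' (pr G H w') := congrArg Prod.snd h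
        have h3 := Quotient.exact' h1
        have h4 := Quotient.exact' h2
        rw [QuotientGroup.rightRel_apply] at h3 h4
        refine Quotient.sound' ?_
        rw [QuotientGroup.rightRel_apply, mem_PS, map_mul, map_mul, map_inv, map_inv]
        exact ⟨h3, h4⟩
  · rintro ⟨x, y⟩
    induction x using Quotient.inductionOn' with
    | h g =>
      induction y using Quotient.inductionOn' with
      | h h =>
        refine ⟨Quotient.mk'' (jl G H g * jr G H h), ?_⟩
        show ((Quotient.mk'' (pl G H (jl G H g * jr G H h)), Quotient.mk'' (pr G H (jl G H g * jr G H h))) :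
          QX G A × QX H B) = _
        rw [map_mul, map_mul, pl_jl, pl_jr, pr_jl, pr_jr, mul_one, one_mul]

theorem qmap_aa (A : Subgroup (W G)) (B : Subgroup (W H)) (v : V ⊕ U) (x : QX (join G H) (PS A B)) :
    qmap A B (aa (join G H) (PS A B) v x) = pa (aa G A) (aa H B) v (qmap A B x) := by
  induction x using Quotient.inductionOn' with
  | h w =>
    rw [aa_mk]
    rcases v with v | u
    · show ((Quotient.mk'' (pl G H (w * _)), Quotient.mk'' (pr G H (w * _))) : QX G A × QX H B) = _
      rw [map_mul, map_mul, pl_inl, pr_inl, mul_one]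
      rfl
    · show ((Quotient.mk'' (pl G H (w * _)), Quotient.mk'' (pr G H (w * _))) : QX G A × QX H B) = _
      rw [map_mul, map_mul, pl_inr, pr_inr, mul_one]
      rfl

theorem index_card {A : Subgroup (W G)} : Nat.card (QX G A) = A.index := by
  rw [Nat.card_congr (QuotientGroup.quotientRightRelEquivQuotientLeftRel A)]
  rfl

theorem PS_index (A : Subgroup (W G)) (B : Subgroup (W H)) : (PS A B).index = A.index * B.index := by
  rw [← index_card, ← index_card, ← index_card, Nat.card_congr (Equiv.ofBijective _ (qmap_bij A B)), Nat.card_prod]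

theorem PS_fin {A : Subgroup (W G)} {B : Subgroup (W H)} (hA : A.FiniteIndex) (hB : B.FiniteIndex) :
    (PS A B).FiniteIndex := by
  refine ⟨?_⟩
  rw [PS_index]
  exact Nat.mul_ne_zero hA.index_ne_zero hB.index_ne_zero

theorem PS_ker {A : Subgroup (W G)} {B : Subgroup (W H)} (hA : A ≤ (th G).ker) (hB : B ≤ (th H).ker) :
    PS A B ≤ (th (join G H)).ker := by
  intro w hw
  have h1 := hA (mem_PS.1 hw).1
  have h2 := hB (mem_PS.1 hw).2
  rw [MonoidHom.mem_ker] at h1 h2 ⊢
  have key : ∀ w : W (join G H), (∀ v, th (join G H) w (Sum.inl v) = th G (pl G H w) v) ∧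
      ∀ u, th (join G H) w (Sum.inr u) = th H (pr G H w) u := by
    intro w
    refine W_ind _ (fun w => (∀ v, th (join G H) w (Sum.inl v) = th G (pl G H w) v) ∧
      ∀ u, th (join G H) w (Sum.inr u) = th H (pr G H w) u) (by simp) (fun w x hw => ?_) w
    obtain ⟨i1, i2⟩ := hw
    rcases x with v | u
    · refine ⟨fun v' => ?_, fun u' => ?_⟩
      · rw [map_mul (pl G H), pl_inl]
        by_cases h : v' = v
        · subst h
          rw [th_self, th_self, i1]
        · rw [th_other _ _ _ _ (fun e => h (Sum.inl_injective e)), th_other _ _ _ _ h, i1]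
      · rw [map_mul (pr G H), pr_inl, mul_one, th_other _ _ _ _ (by simp), i2]
    · refine ⟨fun v' => ?_, fun u' => ?_⟩
      · rw [map_mul (pl G H), pl_inr, mul_one, th_other _ _ _ _ (by simp), i1]
      · rw [map_mul (pr G H), pr_inr]
        by_cases h : u' = u
        · subst h
          rw [th_self, th_self, i2]
        · rw [th_other _ _ _ _ (fun e => h (Sum.inr_injective e)), th_other _ _ _ _ h, i2]
  funext x
  rcases x with v | u
  · rw [(key w).1, h1]; rfl
  · rw [(key w).2, h2]; rfl

theorem PS_bot (A : ℕ → Subgroup (W G)) (B : ℕ → Subgroup (W H)) (hA : ∀ g, (∀ n, g ∈ A n) → g = 1)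
    (hB : ∀ g, (∀ n, g ∈ B n) → g = 1) (w : W (join G H)) (hw : ∀ n, w ∈ PS (A n) (B n)) : w = 1 := by
  have h1 := hA (pl G H w) (fun n => (mem_PS.1 (hw n)).1)
  have h2 := hB (pr G H w) (fun n => (mem_PS.1 (hw n)).2)
  rw [← decomp G H w, h1, h2, map_one, map_one, one_mul]

end grp

/-! ### transport of systems -/

section transport
variable {V X Y : Type} [Fintype V] [LinearOrder V] [Fintype X] [Fintype Y] {G : SimpleGraph V}
  {a : V → X → X} {b : V → Y → Y}

theorem xsys_transport {p : ℕ} [Fact p.Prime] {k : ℕ} {ι : Type} [DecidableEq ι] (φ : Y ≃ X)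
    (hφ : ∀ v y, φ (b v y) = a v (φ y)) (h : XSys p G a k ι) : XSys p G b k ι := by
  obtain ⟨x, u, m, f, x1, x2, x3, x4, x5, x6⟩ := h
  have hmem : ∀ (c : Finset V → X → ℤ) (i : ℕ), c ∈ CZ G a i → (fun T y => c T (φ y)) ∈ CZ G b i := by
    intro c i hc
    refine ⟨fun T hT => ?_, fun T t ht y => ?_⟩
    · funext y
      show c T (φ y) = 0
      rw [hc.1 T hT]; rfl
    · show c T (φ (b t y)) = - c T (φ y)
      rw [hφ, hc.2 T t ht]
  have hbd : ∀ (c : Finset V → X → ℤ), bdZ (fun T y => c T (φ y)) = fun T y => bdZ c T (φ y) := by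
    intro c
    funext T y
    rw [bdZ_apply, bdZ_apply, Finset.sum_apply, Finset.sum_apply]
    rfl
  have hpair : ∀ (f c : Finset V → X → ZMod p), pair (fun T y => f T (φ y)) (fun T y => c T (φ y)) = pair f c := by
    intro f c
    unfold pair
    exact Finset.sum_congr rfl fun T _ => Equiv.sum_comp φ (fun x => f T x * c T x)
  refine ⟨fun i T y => x i T (φ y), fun i T y => u i T (φ y), m, fun i T y => f i T (φ y),
    fun i => hmem _ _ (x1 i), fun i => hmem _ _ (x2 i), fun i => ?_, fun i => ?_, x5, ?_⟩
  · rw [hbd, x3]; rfl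
  · rw [hbd, x4]; rfl
  · refine ⟨fun i T hT => ?_, fun i c hc => ?_, fun i j => ?_⟩
    · funext y
      show f i T (φ y) = 0
      rw [x6.fs i T hT]; rfl
    · have h1 : (fun T x => c T (φ.symm x)) ∈ KK G (pull (ZMod p) a) Set.univ ∅ (k + 1) := by
        rw [mem_KK] at hc ⊢
        refine ⟨fun T hT => ?_, fun T t ht => ?_⟩
        · funext x
          show c T (φ.symm x) = 0
          rw [hc.1 T hT]; rfl
        · funext x
          have h2 := congrFun (hc.2 T t ht) (φ.symm x)
          rw [pull_apply, Pi.neg_apply] at h2 ⊢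
          have h3 : φ.symm (a t x) = b t (φ.symm x) := by
            rw [Equiv.symm_apply_eq, hφ, Equiv.apply_symm_apply]
          show c T (φ.symm (a t x)) = _
          rw [h3, h2]
      have h2 := x6.fb i _ h1
      rw [← hpair] at h2
      rw [← h2]
      congr 1
      funext T y
      rw [bd_apply, bd_apply, Finset.sum_apply, Finset.sum_apply]
      refine Finset.sum_congr rfl fun v _ => ?_
      simp only [Pi.smul_apply, Equiv.symm_apply_apply]
    · rw [← x6.fx i j, ← hpair]
      rfl

end transport

section PSsys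
variable {V U : Type} [Fintype V] [LinearOrder V] [Fintype U] [LinearOrder U] {G : SimpleGraph V}
  {H : SimpleGraph U} {A : Subgroup (W G)} {B : Subgroup (W H)}

theorem PS_xsys [Fintype (QX G A)] [Fintype (QX H B)] [Fintype (QX (join G H) (PS A B))]
    {p : ℕ} [Fact p.Prime] {k : ℕ} {ι : Type} [DecidableEq ι]
    (h : XSys p (join G H) (pa (aa G A) (aa H B)) k ι) :
    XSys p (join G H) (aa (join G H) (PS A B)) k ι :=
  xsys_transport (Equiv.ofBijective _ (qmap_bij A B)) (fun v y => qmap_aa A B v y) h

end PSsys

end Pool.Agent.N504.TG
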