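import Pool.Agent.N504.TG.Tors
import Pool.Agent.TH652.JoinL2

/-!
# Products
-/

set_option autoImplicit false

namespace Pool.Agent.N504.TG

open Module Pool.Agent.W907.SG
open Pool.Agent.TH652.Join

attribute [local instance] ordSum

variable {V U X Y : Type} [Fintype V] [LinearOrder V] [Fintype U] [LinearOrder U]

/-- the product action -/
def pa (a : V → X → X) (b : U → Y → Y) : V ⊕ U → X × Y → X × Y
  | Sum.inl v, z => (a v z.1, z.2)
  | Sum.inr u, z => (z.1, b u z.2)

section sums
variable {A : Type} [AddCommMonoid A]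

omit [LinearOrder V] [LinearOrder U] in
theorem sum_join (f : Finset (V ⊕ U) → A) : ∑ R, f R = ∑ T : Finset V, ∑ S : Finset U, f (T.disjSum S) := by
  rw [← Fintype.sum_prod_type' (f := fun (T : Finset V) (S : Finset U) => f (T.disjSum S))]
  exact Fintype.sum_equiv Finset.sumEquiv.toEquiv _ _ (fun R => by
    show f R = f ((R.toLeft).disjSum R.toRight)
    rw [Finset.toLeft_disjSum_toRight])

theorem sum_compl {inst : DecidableEq (V ⊕ U)} (T : Finset V) (S : Finset U) (f : V ⊕ U → A) :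
    ∑ w ∈ (T.disjSum S)ᶜ, f w = ∑ v ∈ Tᶜ, f (Sum.inl v) + ∑ u ∈ Sᶜ, f (Sum.inr u) := by
  rw [compl_disjSum, Finset.sum_disjSum]

end sums

/-! ### integral chains -/

/-- the product of two chains -/
def ten {R : Type} [Mul R] (x : Finset V → X → R) (y : Finset U → Y → R) : Finset (V ⊕ U) → X × Y → R :=
  fun R z => x R.toLeft z.1 * y R.toRight z.2

omit [Fintype V] [LinearOrder V] [Fintype U] [LinearOrder U] in
theorem ten_apply {R : Type} [Mul R] (x : Finset V → X → R) (y : Finset U → Y → R) (T : Finset V) (S : Finset U)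
    (z : X × Y) : ten x y (T.disjSum S) z = x T z.1 * y S z.2 := by
  unfold ten
  rw [Finset.toLeft_disjSum, Finset.toRight_disjSum]

theorem bdZ_join (c : Finset (V ⊕ U) → X × Y → ℤ) (T : Finset V) (S : Finset U) (z : X × Y) :
    bdZ c (T.disjSum S) z = ∑ v ∈ Tᶜ, sg v T * c ((insert v T).disjSum S) z +
      (-1) ^ T.card * ∑ u ∈ Sᶜ, sg u S * c (T.disjSum (insert u S)) z := by
  rw [bdZ_apply, Finset.sum_apply, sum_compl, Finset.mul_sum]
  congr 1
  · refine Finset.sum_congr rfl fun v _ => ?_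
    rw [sg_inl, insert_inl]
    rfl
  · refine Finset.sum_congr rfl fun u _ => ?_
    rw [sg_inr, insert_inr, ← mul_assoc]
    rfl

theorem bdZ_app (c : Finset V → X → ℤ) (T : Finset V) (x : X) :
    bdZ c T x = ∑ v ∈ Tᶜ, sg v T * c (insert v T) x := by
  rw [bdZ_apply, Finset.sum_apply]
  rfl

/-- the Leibniz rule -/
theorem bdZ_ten (x : Finset V → X → ℤ) (y : Finset U → Y → ℤ) (k : ℕ) (hx : ∀ T : Finset V, T.card ≠ k → x T = 0) :
    bdZ (ten x y) = ten (bdZ x) y + (-1 : ℤ) ^ k • ten x (bdZ y) := by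
  funext R z
  obtain ⟨T, S, rfl⟩ : ∃ T S, R = Finset.disjSum T S := ⟨R.toLeft, R.toRight, Finset.toLeft_disjSum_toRight.symm⟩
  rw [bdZ_join]
  simp only [Pi.add_apply, Pi.smul_apply, ten_apply, bdZ_app, smul_eq_mul]
  congr 1
  · rw [Finset.sum_mul]
    refine Finset.sum_congr rfl fun v _ => ?_
    ring
  · by_cases hT : T.card = k
    · rw [hT, Finset.mul_sum, Finset.mul_sum, Finset.mul_sum]
      refine Finset.sum_congr rfl fun u _ => ?_
      ring
    · rw [hx T hT]
      simp

variable {G : SimpleGraph V} {H : SimpleGraph U} {a : V → X → X} {b : U → Y → Y}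

theorem ten_mem {k l : ℕ} {x : Finset V → X → ℤ} {y : Finset U → Y → ℤ} (hx : x ∈ CZ G a k) (hy : y ∈ CZ H b l) :
    ten x y ∈ CZ (join G H) (pa a b) (k + l) := by
  refine ⟨fun R hR => ?_, fun R t ht z => ?_⟩
  · obtain ⟨T, S, rfl⟩ : ∃ T S, R = Finset.disjSum T S :=
      ⟨R.toLeft, R.toRight, Finset.toLeft_disjSum_toRight.symm⟩
    funext z
    rw [ten_apply]
    by_cases h1 : G.IsClique (T : Set V) ∧ T.card = k
    · by_cases h2 : H.IsClique (S : Set U) ∧ S.card = l
      · exfalso
        apply hR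
        refine ⟨(clique_join G H T S).2 ⟨h1.1, h2.1⟩, ?_⟩
        rw [Finset.card_disjSum, h1.2, h2.2]
      · rw [hy.1 S h2]; simp
    · rw [hx.1 T h1]; simp
  · obtain ⟨T, S, rfl⟩ : ∃ T S, R = Finset.disjSum T S :=
      ⟨R.toLeft, R.toRight, Finset.toLeft_disjSum_toRight.symm⟩
    rw [ten_apply, ten_apply]
    rcases t with v | u
    · show x T (a v z.1) * y S z.2 = _
      rw [hx.2 T v (by simpa using ht)]; ring
    · show x T z.1 * y S (b u z.2) = _
      rw [hy.2 S u (by simpa using ht)]; ring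

/-! ### functionals -/

section fun_
variable {F : Type} [Field F]

theorem bd_join (c : Finset (V ⊕ U) → X × Y → F) (T : Finset V) (S : Finset U) (x : X) (y : Y) :
    bd F c (T.disjSum S) (x, y) = bd F (fun (T' : Finset V) (x' : X) => c (T'.disjSum S) (x', y)) T x +
      (-1) ^ T.card * bd F (fun (S' : Finset U) (y' : Y) => c (T.disjSum S') (x, y')) S y := by
  rw [bd_apply, bd_apply, bd_apply, Finset.sum_apply, Finset.sum_apply, Finset.sum_apply, sum_compl,
    Finset.mul_sum]
  congr 1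
  · refine Finset.sum_congr rfl fun v _ => ?_
    rw [sg_inl, insert_inl]
    rfl
  · refine Finset.sum_congr rfl fun u _ => ?_
    rw [sg_inr, insert_inr, Pi.smul_apply, Pi.smul_apply, zsmul_eq_mul, zsmul_eq_mul]
    push_cast
    ring

variable [Fintype X] [Fintype Y]

omit [LinearOrder V] [LinearOrder U] in
theorem pair_ten (f x : Finset V → X → F) (g y : Finset U → Y → F) :
    pair (ten f g) (ten x y) = pair f x * pair g y := by
  unfold pair
  rw [sum_join, Finset.sum_mul]
  refine Finset.sum_congr rfl fun T _ => ?_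
  simp only [ten_apply]
  rw [Finset.mul_sum]
  refine Finset.sum_congr rfl fun S _ => ?_
  rw [Fintype.sum_prod_type, Finset.sum_mul]
  refine Finset.sum_congr rfl fun x' _ => ?_
  rw [Finset.mul_sum]
  refine Finset.sum_congr rfl fun y' _ => ?_
  ring

theorem pair_bd {k l : ℕ} (f : Finset V → X → F) (g : Finset U → Y → F)
    (hf : ∀ T : Finset V, T.card ≠ k → f T = 0) (hg : ∀ S : Finset U, S.card ≠ l → g S = 0)
    (hfb : ∀ c ∈ KK G (pull F a) Set.univ ∅ (k + 1), pair f (bd F c) = 0)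
    (hgb : ∀ c ∈ KK H (pull F b) Set.univ ∅ (l + 1), pair g (bd F c) = 0)
    (c : Finset (V ⊕ U) → X × Y → F) (hc : c ∈ KK (join G H) (pull F (pa a b)) Set.univ ∅ (k + l + 1)) :
    pair (ten f g) (bd F c) = 0 := by
  rw [mem_KK] at hc
  unfold pair
  rw [sum_join]
  simp only [ten_apply]
  have h1 : ∀ T : Finset V, ∀ S : Finset U, ∑ z : X × Y, f T z.1 * g S z.2 * bd F c (T.disjSum S) z =
      ∑ x, ∑ y, g S y * (f T x * bd F (fun (T' : Finset V) (x' : X) => c (T'.disjSum S) (x', y)) T x) +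
      ∑ x, ∑ y, (-1) ^ k * f T x *
        (g S y * bd F (fun (S' : Finset U) (y' : Y) => c (T.disjSum S') (x, y')) S y) := by
    intro T S
    rw [Fintype.sum_prod_type, ← Finset.sum_add_distrib]
    refine Finset.sum_congr rfl fun x _ => ?_
    rw [← Finset.sum_add_distrib]
    refine Finset.sum_congr rfl fun y _ => ?_
    rw [bd_join]
    by_cases hT : T.card = k
    · rw [hT]; ring
    · rw [hf T hT]; simp
  simp only [h1]
  simp only [Finset.sum_add_distrib]
  have h2 : ∑ T : Finset V, ∑ S : Finset U, ∑ x, ∑ y,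
      g S y * (f T x * bd F (fun (T' : Finset V) (x' : X) => c (T'.disjSum S) (x', y)) T x) = 0 := by
    rw [Finset.sum_comm]
    refine Finset.sum_eq_zero fun S _ => ?_
    have h3 : ∀ T : Finset V, ∑ x, ∑ y,
        g S y * (f T x * bd F (fun (T' : Finset V) (x' : X) => c (T'.disjSum S) (x', y)) T x) =
        ∑ y, g S y * ∑ x, f T x * bd F (fun (T' : Finset V) (x' : X) => c (T'.disjSum S) (x', y)) T x := by
      intro T
      rw [Finset.sum_comm]
      refine Finset.sum_congr rfl fun y _ => ?_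
      rw [Finset.mul_sum]
    simp only [h3]
    rw [Finset.sum_comm]
    refine Finset.sum_eq_zero fun y _ => ?_
    rw [← Finset.mul_sum]
    by_cases hS : S.card = l
    · have h4 := hfb (fun (T' : Finset V) (x' : X) => c (T'.disjSum S) (x', y)) ?_
      · unfold pair at h4
        rw [h4, mul_zero]
      · rw [mem_KK]
        refine ⟨fun T hT => ?_, fun T t ht => ?_⟩
        · funext x
          have := hc.1 (T.disjSum S) (fun h => hT ⟨((clique_join G H T S).1 h.1).1, Set.subset_univ _, by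
            have h5 := h.2.2
            rw [Finset.card_disjSum, hS] at h5
            omega⟩)
          exact congrFun this (x, y)
        · have ht : t ∈ T := by simpa using ht
          funext x
          have := congrFun (hc.2 (T.disjSum S) (Sum.inl t) (Or.inl (by simpa using ht))) (x, y)
          exact this
    · rw [hg S hS]; simp
  have h2' : ∑ T : Finset V, ∑ S : Finset U, ∑ x, ∑ y, (-1) ^ k * f T x *
        (g S y * bd F (fun (S' : Finset U) (y' : Y) => c (T.disjSum S') (x, y')) S y) = 0 := by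
    refine Finset.sum_eq_zero fun T _ => ?_
    rw [Finset.sum_comm]
    refine Finset.sum_eq_zero fun x _ => ?_
    have h3 : ∀ S : Finset U, ∑ y, (-1) ^ k * f T x *
        (g S y * bd F (fun (S' : Finset U) (y' : Y) => c (T.disjSum S') (x, y')) S y) =
        (-1) ^ k * f T x * ∑ y, g S y * bd F (fun (S' : Finset U) (y' : Y) => c (T.disjSum S') (x, y')) S y := by
      intro S
      rw [Finset.mul_sum]
    simp only [h3]
    rw [← Finset.mul_sum]
    by_cases hT : T.card = k
    · have h4 := hgb (fun (S' : Finset U) (y' : Y) => c (T.disjSum S') (x, y')) ?_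
      · unfold pair at h4
        rw [h4, mul_zero]
      · rw [mem_KK]
        refine ⟨fun S hS => ?_, fun S t ht => ?_⟩
        · funext y
          have := hc.1 (T.disjSum S) (fun h => hS ⟨((clique_join G H T S).1 h.1).2, Set.subset_univ _, by
            have h5 := h.2.2
            rw [Finset.card_disjSum, hT] at h5
            omega⟩)
          exact congrFun this (x, y)
        · have ht : t ∈ S := by simpa using ht
          funext y
          have := congrFun (hc.2 (T.disjSum S) (Sum.inr t) (Or.inl (by simpa using ht))) (x, y)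
          exact this
    · rw [hf T hT]; simp
  rw [h2, h2', add_zero]

end fun_

omit [Fintype V] [LinearOrder V] [Fintype U] [LinearOrder U] in
theorem red_ten (F : Type) [Field F] (x : Finset V → X → ℤ) (y : Finset U → Y → ℤ) :
    red F (ten x y) = ten (red F x) (red F y) := by
  funext R z
  simp [red, ten]

/-! ### products of systems -/

section sys
variable [Fintype X] [Fintype Y] {p : ℕ} [Fact p.Prime] {ι κ : Type} [DecidableEq ι] [DecidableEq κ]

omit [Fintype V] [LinearOrder V] [Fintype X] in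
theorem CZ_card {k : ℕ} {x : Finset V → X → ℤ} (hx : x ∈ CZ G a k) (T : Finset V) (hT : T.card ≠ k) : x T = 0 :=
  hx.1 T fun h => hT h.2

omit [Fintype Y] [LinearOrder V] [LinearOrder U] in
theorem pair_zero {F : Type} [Field F] {k l : ℕ} (hkl : k ≠ l) (f x : Finset V → X → F)
    (hf : ∀ T : Finset V, T.card ≠ k → f T = 0) (hx : ∀ T : Finset V, T.card ≠ l → x T = 0) : pair f x = 0 := by
  unfold pair
  refine Finset.sum_eq_zero fun T _ => Finset.sum_eq_zero fun y _ => ?_
  by_cases hT : T.card = k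
  · rw [hx T (by omega)]; simp
  · rw [hf T hT]; simp

theorem xsys_mul {k l : ℕ} (h1 : XSys p G a k ι) (h2 : XSys p H b l κ) :
    XSys p (join G H) (pa a b) (k + l) (ι × κ) := by
  obtain ⟨x, u, m, f, x1, x2, x3, x4, x5, x6⟩ := h1
  obtain ⟨y, v, n, g, y1, y2, y3, y4, y5, y6⟩ := h2
  refine ⟨fun i => ten (x i.1) (y i.2), fun i => ten (u i.1) (y i.2), fun i => m i.1,
    fun i => ten (f i.1) (g i.2), fun i => ten_mem (x1 _) (y1 _), fun i => ?_, fun i => ?_, fun i => ?_,
    fun i => x5 _, ?_⟩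
  · have := ten_mem (x2 i.1) (y1 i.2)
    rwa [show k + 1 + l = k + l + 1 by omega] at this
  · rw [bdZ_ten _ _ (k + 1) (CZ_card (x2 i.1)), x3, y4]
    funext R z
    simp [ten]
    ring
  · rw [bdZ_ten _ _ k (CZ_card (x1 i.1)), x4, y4]
    funext R z
    simp [ten]
  · refine ⟨fun i R hR => ?_, fun i c hc => ?_, fun i j => ?_⟩
    · obtain ⟨T, S, rfl⟩ : ∃ T S, R = Finset.disjSum T S :=
        ⟨R.toLeft, R.toRight, Finset.toLeft_disjSum_toRight.symm⟩
      funext z
      rw [ten_apply]
      by_cases hT : T.card = k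
      · rw [y6.fs i.2 S (fun hS => hR (by rw [Finset.card_disjSum, hT, hS]))]; simp
      · rw [x6.fs i.1 T hT]; simp
    · exact pair_bd _ _ (x6.fs i.1) (y6.fs i.2) (x6.fb i.1) (y6.fb i.2) c hc
    · rw [red_ten, pair_ten, x6.fx, y6.fx]
      by_cases h1 : i.1 = j.1 <;> by_cases h2 : i.2 = j.2 <;> simp [Prod.ext_iff, h1, h2]

theorem tsys_mul {k l : ℕ} (h1 : TSys p G a k ι) (h2 : TSys p H b l κ) :
    XSys p (join G H) (pa a b) (k + l + 1) (ι × κ) := by
  classical
  obtain ⟨x, u, m, f, f', x1, x2, x3, x4, x5, x5', x6, x7⟩ := h1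
  obtain ⟨y, v, n, g, g', y1, y2, y3, y4, y5, y5', y6, y7⟩ := h2
  -- the gcd
  obtain ⟨d, hd⟩ : ∃ d : ι × κ → ℤ, ∀ i, d i = (Int.gcd (m i.1) (n i.2) : ℤ) := ⟨_, fun _ => rfl⟩
  have hd0 : ∀ i, d i ≠ 0 := by
    intro i h
    rw [hd] at h
    have h3 : Int.gcd (m i.1) (n i.2) = 0 := by exact_mod_cast h
    exact x5' i.1 (Int.gcd_eq_zero_iff.1 h3).1
  have hdm : ∀ i, ∃ q, m i.1 = d i * q := fun i => by rw [hd]; exact Int.gcd_dvd_left _ _
  have hdn : ∀ i, ∃ q, n i.2 = d i * q := fun i => by rw [hd]; exact Int.gcd_dvd_right _ _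
  choose m' hm' using hdm
  choose n' hn' using hdn
  have hcop : ∀ i, ¬ ((m' i : ZMod p) = 0 ∧ (n' i : ZMod p) = 0) := by
    rintro i ⟨h3, h4⟩
    have h5 : (p : ℤ) ∣ m' i := (ZMod.intCast_zmod_eq_zero_iff_dvd _ _).1 h3
    have h6 : (p : ℤ) ∣ n' i := (ZMod.intCast_zmod_eq_zero_iff_dvd _ _).1 h4
    have h7 : d i * p ∣ (Int.gcd (m i.1) (n i.2) : ℤ) := by
      refine Int.dvd_coe_gcd ?_ ?_
      · rw [hm' i]; exact mul_dvd_mul_left _ h5
      · rw [hn' i]; exact mul_dvd_mul_left _ h6
    rw [← hd] at h7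
    obtain ⟨q, hq⟩ := h7
    have h8 : d i * (p * q - 1) = 0 := by linear_combination -hq
    have h9 : (p : ℤ) * q = 1 := by linarith [(mul_eq_zero.1 h8).resolve_left (hd0 i)]
    have h10 : (p : ℤ) ∣ 1 := ⟨q, h9.symm⟩
    have h11 : p ∣ 1 := by exact_mod_cast h10
    exact (Fact.out : p.Prime).one_lt.ne' (Nat.dvd_one.1 h11)
  let w : ι × κ → Finset (V ⊕ U) → X × Y → ℤ := fun i =>
    m' i • ten (x i.1) (v i.2) + ((-1 : ℤ) ^ (k + 1) * n' i) • ten (u i.1) (y i.2)
  have hw1 : ∀ i, bdZ (ten (u i.1) (v i.2)) = d i • w i := by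
    intro i
    rw [bdZ_ten _ _ (k + 1) (CZ_card (x2 i.1)), x3, y3, hm' i, hn' i]
    funext R z
    simp only [w, ten, Pi.add_apply, Pi.smul_apply, smul_eq_mul]
    ring
  have hw2 : ∀ i, w i ∈ CZ (join G H) (pa a b) (k + l + 1) := by
    intro i
    refine Submodule.add_mem _ (Submodule.smul_mem _ _ ?_) (Submodule.smul_mem _ _ ?_)
    · have := ten_mem (x1 i.1) (y2 i.2)
      rwa [show k + (l + 1) = k + l + 1 by omega] at this
    · have := ten_mem (x2 i.1) (y1 i.2)
      rwa [show k + 1 + l = k + l + 1 by omega] at this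
  have hf0 : ∀ i j, pair (f' i) (red (ZMod p) (x j)) = 0 := fun i j =>
    pair_zero (k := k + 1) (l := k) (by omega) _ _ (x7.fs i) (fun T hT => by
      funext z
      simp [red, CZ_card (x1 j) T hT])
  have hf1 : ∀ i j, pair (f i) (red (ZMod p) (u j)) = 0 := fun i j =>
    pair_zero (k := k) (l := k + 1) (by omega) _ _ (x6.fs i) (fun T hT => by
      funext z
      simp [red, CZ_card (x2 j) T hT])
  have hg0 : ∀ i j, pair (g' i) (red (ZMod p) (y j)) = 0 := fun i j =>
    pair_zero (k := l + 1) (l := l) (by omega) _ _ (y7.fs i) (fun T hT => by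
      funext z
      simp [red, CZ_card (y1 j) T hT])
  have hg1 : ∀ i j, pair (g i) (red (ZMod p) (v j)) = 0 := fun i j =>
    pair_zero (k := l) (l := l + 1) (by omega) _ _ (y6.fs i) (fun T hT => by
      funext z
      simp [red, CZ_card (y2 j) T hT])
  have hpadd : ∀ (h c c' : Finset (V ⊕ U) → X × Y → ZMod p) (s s' : ZMod p),
      pair h (s • c + s' • c') = s * pair h c + s' * pair h c' := by
    intro h c c' s s'
    unfold pair
    rw [Finset.mul_sum, Finset.mul_sum, ← Finset.sum_add_distrib]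
    refine Finset.sum_congr rfl fun R _ => ?_
    rw [Finset.mul_sum, Finset.mul_sum, ← Finset.sum_add_distrib]
    refine Finset.sum_congr rfl fun z _ => ?_
    simp only [Pi.add_apply, Pi.smul_apply, smul_eq_mul]
    ring
  have hredw : ∀ j, red (ZMod p) (w j) = (m' j : ZMod p) • ten (red (ZMod p) (x j.1)) (red (ZMod p) (v j.2)) +
      ((-1) ^ (k + 1) * (n' j : ZMod p)) • ten (red (ZMod p) (u j.1)) (red (ZMod p) (y j.2)) := by
    intro j
    rw [← red_ten, ← red_ten]
    funext R z
    simp [w, red]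
  let e1 : ι × κ → Finset (V ⊕ U) → X × Y → ZMod p := fun i => ten (f i.1) (g' i.2)
  let e2 : ι × κ → Finset (V ⊕ U) → X × Y → ZMod p := fun i => ten (f' i.1) (g i.2)
  have he1 : ∀ i j, pair (e1 i) (red (ZMod p) (w j)) = if i = j then (m' j : ZMod p) else 0 := by
    intro i j
    rw [hredw, hpadd, pair_ten, pair_ten, x6.fx, y7.fx, hf1, zero_mul, mul_zero, add_zero]
    by_cases h1 : i.1 = j.1 <;> by_cases h2 : i.2 = j.2 <;> simp [Prod.ext_iff, h1, h2]
  have he2 : ∀ i j, pair (e2 i) (red (ZMod p) (w j)) = if i = j then (-1) ^ (k + 1) * (n' j : ZMod p) else 0 := by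
    intro i j
    rw [hredw, hpadd, pair_ten, pair_ten, x7.fx, y6.fx, hf0, zero_mul, mul_zero, zero_add]
    by_cases h1 : i.1 = j.1 <;> by_cases h2 : i.2 = j.2 <;> simp [Prod.ext_iff, h1, h2]
  have hsm : ∀ (s : ZMod p) (h c : Finset (V ⊕ U) → X × Y → ZMod p), pair (s • h) c = s * pair h c := by
    intro s h c
    unfold pair
    rw [Finset.mul_sum]
    refine Finset.sum_congr rfl fun R _ => ?_
    rw [Finset.mul_sum]
    refine Finset.sum_congr rfl fun z _ => ?_
    simp only [Pi.smul_apply, smul_eq_mul]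
    ring
  refine ⟨w, fun i => ten (u i.1) (v i.2), d,
    fun i => if (m' i : ZMod p) ≠ 0 then (m' i : ZMod p)⁻¹ • e1 i else
      ((-1) ^ (k + 1) * (n' i : ZMod p))⁻¹ • e2 i, hw2, fun i => ?_, hw1, fun i => ?_, hd0, ?_⟩
  · have := ten_mem (x2 i.1) (y2 i.2)
    rwa [show k + 1 + (l + 1) = k + l + 1 + 1 by omega] at this
  · have h3 : d i • bdZ (w i) = 0 := by rw [← map_smul, ← hw1, bdZ_bdZ]
    exact (smul_eq_zero.1 h3).resolve_left (hd0 i)
  · refine ⟨fun i R hR => ?_, fun i c hc => ?_, fun i j => ?_⟩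
    · obtain ⟨T, S, rfl⟩ : ∃ T S, R = Finset.disjSum T S :=
        ⟨R.toLeft, R.toRight, Finset.toLeft_disjSum_toRight.symm⟩
      rw [Finset.card_disjSum] at hR
      have h3 : e1 i (T.disjSum S) = 0 := by
        funext z
        show ten (f i.1) (g' i.2) _ z = 0
        rw [ten_apply]
        by_cases hT : T.card = k
        · rw [y7.fs i.2 S (fun hS => hR (by rw [hT, hS]; ring))]; simp
        · rw [x6.fs i.1 T hT]; simp
      have h4 : e2 i (T.disjSum S) = 0 := by
        funext z
        show ten (f' i.1) (g i.2) _ z = 0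
        rw [ten_apply]
        by_cases hT : T.card = k + 1
        · rw [y6.fs i.2 S (fun hS => hR (by rw [hT, hS]; ring))]; simp
        · rw [x7.fs i.1 T hT]; simp
      split_ifs
      · rw [Pi.smul_apply, h3, smul_zero]
      · rw [Pi.smul_apply, h4, smul_zero]
    · have h3 : pair (e1 i) (bd (ZMod p) c) = 0 :=
        pair_bd (k := k) (l := l + 1) _ _ (x6.fs i.1) (y7.fs i.2) (x6.fb i.1) (y7.fb i.2) c hc
      have h4 : pair (e2 i) (bd (ZMod p) c) = 0 := by
        refine pair_bd (k := k + 1) (l := l) _ _ (x7.fs i.1) (y6.fs i.2) (x7.fb i.1) (y6.fb i.2) c ?_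
        rwa [show k + 1 + l + 1 = k + l + 1 + 1 by omega]
      split_ifs
      · rw [hsm, h3, mul_zero]
      · rw [hsm, h4, mul_zero]
    · split_ifs with h3 h4 h4
      · subst h4
        rw [hsm, he1, if_pos rfl, inv_mul_cancel₀ h3]
      · rw [hsm, he1, if_neg h4, mul_zero]
      · subst h4
        have h5 : ((-1) ^ (k + 1) * (n' i : ZMod p)) ≠ 0 := by
          refine mul_ne_zero (pow_ne_zero _ (neg_ne_zero.2 one_ne_zero)) ?_
          intro h6
          exact hcop i ⟨not_not.1 h3, h6⟩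
        rw [hsm, he2, if_pos rfl, inv_mul_cancel₀ h5]
      · rw [hsm, he2, if_neg h4, mul_zero]

omit [Fintype Y] [LinearOrder U] in
theorem TSys.xsys {k : ℕ} (h : TSys p G a k ι) : XSys p G a k ι := by
  obtain ⟨x, u, m, f, g, h1, h2, h3, h4, h5, h6, h7, h8⟩ := h
  exact ⟨x, u, m, f, h1, h2, h3, h4, h6, h7⟩

end sys

end Pool.Agent.N504.TG
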