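import Pool.Agent.N504.TG.Oct

/-!
# Growth of the mod `p` Betti numbers
-/

set_option autoImplicit false

namespace Pool.Agent.N504.TG

open Module Pool.Agent.W907.SG

variable {V F M U : Type} [Fintype V] [LinearOrder V] [Field F] [AddCommGroup M] [Module F M]
  [FiniteDimensional F M] [Fintype U] [DecidableEq U] [Nonempty U] {k : ℕ}

theorem KK_zero (G : SimpleGraph V) (ρ : V → M →ₗ[F] M) (A S : Set V) (col : V → Fin k)
    (hcol : ∀ u ∈ A, ∀ v ∈ A, G.Adj u v → col u ≠ col v) (i : ℕ) (hi : k < i) : KK G ρ A S i = ⊥ := by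
  rw [eq_bot_iff]
  intro c hc
  rw [Submodule.mem_bot]
  funext T
  refine (mem_KK.1 hc).1 T ?_
  rintro ⟨h1, h2, h3⟩
  have h4 : T.card ≤ Fintype.card (Fin k) := by
    refine Finset.card_le_card_of_injOn col (fun _ _ => Finset.mem_coe.2 (Finset.mem_univ _)) ?_
    intro u hu v hv huv
    by_contra hne
    exact hcol u (h2 hu) v (h2 hv) (h1 hu hv hne) huv
  rw [Fintype.card_fin] at h4
  omega

/-- lower bound in degree `k`, upper bounds above -/
theorem stage (G : SimpleGraph V) (ρ : V → M →ₗ[F] M) (h2 : (2 : F) ≠ 0)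
    (O : Set V) (y y' : V → V)
    (h1 : ∀ x ∈ O, y x ∉ O ∧ y' x ∉ O ∧ G.Adj x (y x) ∧ G.Adj x (y' x) ∧ y x ≠ y' x ∧ ¬ G.Adj (y x) (y' x))
    (h3 : ∀ x ∈ O, ∀ w, G.Adj x w → w ≠ y x → w ≠ y' x → G.Adj w (y x) ∧ G.Adj w (y' x))
    (col : V → Fin k) (hcol : ∀ u ∈ Oᶜ, ∀ v ∈ Oᶜ, G.Adj u v → col u ≠ col v)
    (vtx : U → Bool → V) (q : U → ℕ) (z : (Fin k → U) → F) (H : OHyp G ρ Oᶜ col vtx q z) (hz : ∃ w, z w ≠ 0)
    (q' : V → ℕ) (hq' : ∀ x ∈ O, ((q' x : ℕ) : F) ≠ 0) (hr' : ∀ x ∈ O, (ρ (y x) * ρ (y' x)) ^ q' x = 1) (D : ℕ)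
    (hD : ∀ x ∈ O, finrank F (FX (ρ (y x)) (ρ (y' x))) ≤ D)
    (hD' : ∀ u, finrank F (FX (ρ (vtx u false)) (ρ (vtx u true))) ≤ D) :
    finrank F M ≤ beta G ρ Set.univ ∅ k + (Fintype.card U + Fintype.card V * 2 ^ Fintype.card V) * D ∧
    ∀ i, k < i → beta G ρ Set.univ ∅ i ≤ (Fintype.card V * 2 ^ Fintype.card V) * D := by
  have hm := mid_bound G ρ h2 H.hinv H.hcomm O y y' h1 h3 q' hq' hr' (2 ^ Fintype.card V * D)
    (fun x hx => Nat.mul_le_mul_left _ (hD x hx))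
  constructor
  · have h4 := oct_lower H hz
    have h5 : ∑ u, finrank F (FX (ρ (vtx u false)) (ρ (vtx u true))) ≤ Fintype.card U * D := by
      refine (Finset.sum_le_card_nsmul _ _ D fun u _ => hD' u).trans ?_
      rw [smul_eq_mul, Finset.card_univ]
    have h6 : beta G ρ Oᶜ ∅ k = finrank F (ZZ G ρ Oᶜ ∅ k) := by
      unfold beta BB
      rw [KK_zero G ρ Oᶜ ∅ col hcol (k + 1) (Nat.lt_succ_self k), Submodule.map_bot, finrank_bot, Nat.sub_zero]
    have h7 := (hm k).2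
    have h8 : (Fintype.card U + Fintype.card V * 2 ^ Fintype.card V) * D =
        Fintype.card U * D + Fintype.card V * (2 ^ Fintype.card V * D) := by ring
    omega
  · intro i hi
    have h6 : beta G ρ Oᶜ ∅ i = 0 := by
      unfold beta ZZ
      rw [KK_zero G ρ Oᶜ ∅ col hcol i hi, bot_inf_eq, finrank_bot, Nat.zero_sub]
    have h7 := (hm i).1
    have h8 : Fintype.card V * 2 ^ Fintype.card V * D = Fintype.card V * (2 ^ Fintype.card V * D) := by ring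
    omega

end Pool.Agent.N504.TG
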