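import Pool.Agent.W907.SG.All

/-!
# Suspensions over a dihedral group of large order
-/

set_option autoImplicit false

namespace Pool.Agent.N504.TG

open Module Pool.Agent.W907.SG
open Pool.Agent.W215.SG (sub_quot)

/-- the fixed vectors of `ρ s ∘ ρ t` -/
def FX {F M : Type} [Field F] [AddCommGroup M] [Module F M] (a b : M →ₗ[F] M) : Submodule F M :=
  LinearMap.ker (a - b)

theorem mem_FX {F M : Type} [Field F] [AddCommGroup M] [Module F M] {a b : M →ₗ[F] M} {m : M} :
    m ∈ FX a b ↔ a m = b m := by
  rw [FX, LinearMap.mem_ker, LinearMap.sub_apply, sub_eq_zero]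

theorem iter_add {F M : Type} [Field F] [AddCommGroup M] [Module F M] (r : M →ₗ[F] M) (n k : M)
    (h : r n = n + k) (hk : r k = k) (j : ℕ) : (r ^ j) n = n + j • k := by
  induction j with
  | zero => simp
  | succ j ih =>
    rw [pow_succ', Module.End.mul_apply, ih, map_add, map_nsmul, h, hk, succ_nsmul]
    abel

theorem susp_bound {V F M : Type} [Fintype V] [LinearOrder V] [Field F] [AddCommGroup M] [Module F M]
    [FiniteDimensional F M] (G : SimpleGraph V) (ρ : V → M →ₗ[F] M) (s t : V) (h2 : (2 : F) ≠ 0)
    (hst : s ≠ t) (hna : ¬ G.Adj s t) (hadj : ∀ u, u ≠ s → u ≠ t → G.Adj u s ∧ G.Adj u t)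
    (hinv : ∀ v m, ρ v (ρ v m) = m) (hcomm : ∀ u v, G.Adj u v → ∀ m, ρ u (ρ v m) = ρ v (ρ u m))
    (q : ℕ) (hq : (q : F) ≠ 0) (hr : (ρ s * ρ t) ^ q = 1) (i : ℕ) :
    beta G ρ Set.univ ∅ i ≤ 2 ^ Fintype.card V * finrank F (FX (ρ s) (ρ t)) := by
  set K := FX (ρ s) (ρ t) with hK
  have hKinv : ∀ v, ∀ m ∈ K, ρ v m ∈ K := by
    intro v m hm
    rw [hK, mem_FX] at hm ⊢
    by_cases h1 : v = s
    · subst h1
      rw [hinv, hm, hinv]
    · by_cases h3 : v = t
      · subst h3
        rw [hinv, ← hm, hinv]
      · rw [← hcomm v s (hadj v h1 h3).1, ← hcomm v t (hadj v h1 h3).2, hm]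
  have B1 := sub_quot sub G ρ h2 hinv hcomm K hKinv i
  have B2 := dim V F K G (fun v => (ρ v).restrict (hKinv v)) Set.univ ∅ i
  -- the key algebraic fact
  have hfix : ∀ n k : M, ρ s (ρ t n) = n + k → ρ s k = ρ t k → k = 0 := by
    intro n k h1 h3
    have hk : (ρ s * ρ t) k = k := by
      rw [Module.End.mul_apply, ← h3, hinv]
    have h4 := iter_add (ρ s * ρ t) n k (by rw [Module.End.mul_apply, h1]) hk q
    rw [hr, Module.End.one_apply] at h4
    have h5 : q • k = 0 := by
      have : n + 0 = n + q • k := by rw [add_zero]; exact h4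
      exact (add_left_cancel this).symm
    rw [← Nat.cast_smul_eq_nsmul F] at h5
    exact (smul_eq_zero.1 h5).resolve_left hq
  have htop : K ⊔ LinearMap.range (ρ s * ρ t - 1) = ⊤ := by
    have hbot : K ⊓ LinearMap.range (ρ s * ρ t - 1) = ⊥ := by
      rw [eq_bot_iff]
      rintro k ⟨hk, n, hn⟩
      rw [Submodule.mem_bot]
      rw [SetLike.mem_coe, hK, mem_FX] at hk
      refine hfix n k ?_ hk
      rw [LinearMap.sub_apply, Module.End.mul_apply, Module.End.one_apply] at hn
      rw [← hn]; abel
    have hker : K = LinearMap.ker (ρ s * ρ t - 1) := by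
      ext m
      rw [hK, mem_FX, LinearMap.mem_ker, LinearMap.sub_apply, Module.End.mul_apply,
        Module.End.one_apply, sub_eq_zero]
      constructor
      · intro h; rw [← h, hinv]
      · intro h
        have := congrArg (ρ s) h
        rw [hinv] at this
        exact this.symm
    have hdim := Submodule.finrank_sup_add_finrank_inf_eq K (LinearMap.range (ρ s * ρ t - 1))
    rw [hbot, finrank_bot, add_zero] at hdim
    have hrn := LinearMap.finrank_range_add_finrank_ker (ρ s * ρ t - 1)
    rw [← hker] at hrn
    exact Submodule.eq_top_of_finrank_eq (by omega)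
  have B3 : beta G (fun v => K.mapQ K (ρ v) (hKinv v)) Set.univ ∅ i = 0 := by
    apply acyc V F (M ⧸ K) G (fun v => K.mapQ K (ρ v) (hKinv v)) s t hst hna hadj
    · intro u v huv m
      obtain ⟨m, rfl⟩ := Submodule.mkQ_surjective K m
      simp only [Submodule.mkQ_apply, Submodule.mapQ_apply]
      rw [hcomm u v huv]
    · intro m
      obtain ⟨m, rfl⟩ := Submodule.mkQ_surjective K m
      obtain ⟨k, hk, w, ⟨n, rfl⟩, rfl⟩ := Submodule.mem_sup.1 (htop ▸ Submodule.mem_top : m ∈ K ⊔ _)
      refine ⟨K.mkQ (ρ s (ρ t n) - ρ t n), K.mkQ (ρ t n - n), ?_, ?_, ?_⟩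
      · rw [map_add, Submodule.mkQ_apply K k, (Submodule.Quotient.mk_eq_zero K).2 hk, zero_add,
          ← map_add]
        congr 1
        rw [LinearMap.sub_apply, Module.End.mul_apply, Module.End.one_apply]
        abel
      · simp only [Submodule.mkQ_apply, Submodule.mapQ_apply]
        rw [← Submodule.Quotient.mk_neg]
        congr 1
        rw [map_sub, hinv]; abel
      · simp only [Submodule.mkQ_apply, Submodule.mapQ_apply]
        rw [← Submodule.Quotient.mk_neg]
        congr 1
        rw [map_sub, hinv]; abel
    · intro m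
      obtain ⟨m, rfl⟩ := Submodule.mkQ_surjective K m
      simp only [Submodule.mkQ_apply, Submodule.mapQ_apply]
      intro h3 h4
      rw [← Submodule.Quotient.mk_neg, Submodule.Quotient.eq] at h3 h4
      rw [Submodule.Quotient.mk_eq_zero]
      -- `ρ s m + m ∈ K`, `ρ t m + m ∈ K`
      have h5 : ρ s (ρ t m) = m + (ρ s (ρ t m + m) - (ρ s m + m)) := by
        rw [map_add]; abel
      have e3 : ρ s m + m ∈ K := by simpa using h3
      have e4 : ρ t m + m ∈ K := by simpa using h4
      have h6 : ρ s (ρ t m + m) - (ρ s m + m) ∈ K := K.sub_mem (hKinv s _ e4) e3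
      have h7 := hfix m _ h5 (mem_FX.1 h6)
      rw [h7, add_zero] at h5
      rw [hK, mem_FX]
      have := congrArg (ρ s) h5
      rw [hinv] at this
      exact this.symm
  omega

/-- the dimension of the fixed vectors on a permutation module, for free actions of a cyclic group of order `q` -/
theorem finrank_FX {V X F : Type} [Field F] [Fintype X] (a : V → X → X) (s t : V)
    (hinv : ∀ v x, a v (a v x) = x) (q : ℕ) (hfree : ∀ j, 0 < j → j < q → ∀ x, (fun y => a t (a s y))^[j] x ≠ x) :
    q * finrank F (FX (pull F a s) (pull F a t)) ≤ Fintype.card X := by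
  classical
  let σ : Equiv.Perm X := ⟨fun y => a t (a s y), fun y => a s (a t y), fun y => by simp only [hinv],
    fun y => by simp only [hinv]⟩
  have hσ : ∀ (j : ℕ) (x : X), (σ ^ j) x = (fun y => a t (a s y))^[j] x := by
    intro j
    induction j with
    | zero => intro x; rfl
    | succ j ih =>
      intro x
      rw [pow_succ, Equiv.Perm.mul_apply, Function.iterate_succ_apply, ih]
      rfl
  let S : Setoid X := Equiv.Perm.SameCycle.setoid σ
  letI : DecidableRel S.r := fun _ _ => Classical.propDecidable _
  have hQ : Fintype.card (Quotient S) * q ≤ Fintype.card X := by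
    have h1 : ∀ c : Quotient S, q ≤ (Finset.univ.filter (fun x : X => Quotient.mk S x = c)).card := by
      intro c
      induction c using Quotient.inductionOn with
      | h x =>
        have h3 : ((Finset.range q).image (fun j => (σ ^ j) x)).card = q := by
          rw [Finset.card_image_of_injOn, Finset.card_range]
          intro i hi j hj hij
          simp only [Finset.coe_range, Set.mem_Iio] at hi hj
          simp only at hij
          by_contra hne
          rcases lt_or_gt_of_ne hne with h | h
          · refine hfree (j - i) (by omega) (by omega) x ?_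
            rw [← hσ]
            have : (σ ^ i) ((σ ^ (j - i)) x) = (σ ^ i) x := by
              rw [← Equiv.Perm.mul_apply, ← pow_add, Nat.add_sub_cancel' h.le, hij]
            exact (σ ^ i).injective this
          · refine hfree (i - j) (by omega) (by omega) x ?_
            rw [← hσ]
            have : (σ ^ j) ((σ ^ (i - j)) x) = (σ ^ j) x := by
              rw [← Equiv.Perm.mul_apply, ← pow_add, Nat.add_sub_cancel' (le_of_lt h), hij]
            exact (σ ^ j).injective this
        have h4 : ((Finset.range q).image (fun j => (σ ^ j) x)) ⊆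
            Finset.univ.filter (fun y : X => Quotient.mk S y = Quotient.mk S x) := by
          intro y hy
          obtain ⟨j, -, rfl⟩ := Finset.mem_image.1 hy
          refine Finset.mem_filter.2 ⟨Finset.mem_univ _, Quotient.sound ?_⟩
          show σ.SameCycle ((σ ^ j) x) x
          exact (Equiv.Perm.sameCycle_pow_left (f := σ) (n := j)).2 (Equiv.Perm.SameCycle.refl σ x)
        calc q = _ := h3.symm
          _ ≤ _ := Finset.card_le_card h4
    have h2 := Finset.card_eq_sum_card_fiberwise (s := (Finset.univ : Finset X))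
      (t := (Finset.univ : Finset (Quotient S))) (f := fun x => Quotient.mk S x) (fun x _ => Finset.mem_coe.2 (Finset.mem_univ _))
    rw [Finset.card_univ] at h2
    rw [h2, ← Finset.card_univ, ← smul_eq_mul]
    exact Finset.card_nsmul_le_sum _ _ _ fun c _ => h1 c
  -- the fixed vectors are constant on the cycles
  have hcst : ∀ f ∈ FX (pull F a s) (pull F a t), ∀ x, f (σ x) = f x := by
    intro f hf x
    rw [mem_FX] at hf
    have h1 := congrFun hf (a s x)
    rw [pull_apply, pull_apply, hinv] at h1
    exact h1.symm
  let T : FX (pull F a s) (pull F a t) →ₗ[F] (Quotient S → F) :=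
    { toFun := fun f c => f.1 c.out
      map_add' := fun _ _ => rfl
      map_smul' := fun _ _ => rfl }
  have hT : Function.Injective T := by
    rw [injective_iff_map_eq_zero]
    intro f hf
    have hz : ∀ (n : ℕ) (x : X), f.1 ((σ ^ n) x) = f.1 x := by
      intro n
      induction n with
      | zero => intro x; rfl
      | succ n ih => intro x; rw [pow_succ, Equiv.Perm.mul_apply, ih, hcst f.1 f.2]
    apply Subtype.ext
    funext x
    have h1 : S.r (Quotient.mk S x).out x := Quotient.exact (Quotient.out_eq (Quotient.mk S x))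
    have h3 : σ.SameCycle (Quotient.mk S x).out x := h1
    have : Finite X := inferInstance
    obtain ⟨n, hn⟩ := h3.exists_nat_pow_eq
    have h4 : f.1 (Quotient.mk S x).out = 0 := congrFun hf (Quotient.mk S x)
    rw [← hz n, hn] at h4
    exact h4
  have h3 := LinearMap.finrank_le_finrank_of_injective hT
  rw [Module.finrank_fintype_fun_eq_card] at h3
  calc q * _ ≤ q * Fintype.card (Quotient S) := Nat.mul_le_mul_left _ h3
    _ ≤ _ := by rw [mul_comm]; exact hQ

end Pool.Agent.N504.TG
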