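import Pool.Agent.N504.TG.Cs
import Pool.Agent.N504.TG.PGrp

/-!
# Torsion growth of the square
-/

set_option autoImplicit false

namespace Pool.Agent.N504.TG

open Module Pool.Agent.W907.SG Pool.Agent.W461.SGN
open Pool.Agent.TH652.Join (join ordSum)
open Pool.Agent.R782.Bal (MF cs EmbX)
open Pool.Agent.Y132.SI (aa)

section
variable {V : Type} [Fintype V] [LinearOrder V] {G : SimpleGraph V} {H : Subgroup (W G)}

theorem log_tors [Fintype (QX G H)] {p : ℕ} [Fact p.Prime] {k : ℕ} {ι : Type} [Fintype ι] [DecidableEq ι]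
    (h : XSys p G (aa G H) k ι) : Real.log p * Fintype.card ι ≤ Real.log (tors G H k) := by
  obtain ⟨h1, h2⟩ := tors_ge h
  rw [← tors_eq] at h2
  have hp : (0 : ℝ) < p := by exact_mod_cast (Fact.out : p.Prime).pos
  have h3 : ((p : ℝ) ^ Fintype.card ι) ≤ tors G H k := by exact_mod_cast h2
  have h4 := Real.log_le_log (pow_pos hp _) h3
  rw [Real.log_pow] at h4
  linarith

end

theorem exists_q (p : ℕ) : ∃ q : ℕ, q.Prime ∧ q ≠ 2 ∧ p ≠ q := by
  by_cases hp : p = 3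
  · exact ⟨5, by norm_num, by norm_num, by omega⟩
  · exact ⟨3, by norm_num, by norm_num, hp⟩

section cs
variable {p d N n : ℕ} {X : Finset (Finset (Fin N))} {col : Fin N → Fin (d + 1)} {L : SimpleGraph (Fin n)}
  {κ : Fin n → Fin (d + 1)} {e : Fin n → Bool → Fin N} {z : (Fin (d + 1) → Fin n) → ZMod p}

/-- a residual chain with large torsion systems -/
theorem chain_tsys [Fact p.Prime] (hp : p ≠ 2)
    (hX : ∀ σ ∈ X, ∀ τ : Finset (Fin N), τ ⊆ σ → τ ∈ X)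
    (hm : ∀ σ ∈ X, ∀ c, (∀ v ∈ σ, col v = c) → σ.card ≤ 2) (hE : EmbX d X col)
    (h : OctIn p d X col L κ e z) [Fintype (MF X col)] [LinearOrder (MF X col)] :
    ∃ K : ℕ → Subgroup (W (cs X col)), Antitone K ∧
      (∀ i, (K i).Normal ∧ (K i).FiniteIndex ∧ K i ≤ (th (cs X col)).ker) ∧ (∀ g, (∀ i, g ∈ K i) → g = 1) ∧
      ∀ ε : ℝ, 0 < ε → ∃ i0, ∀ i, i0 ≤ i → ∀ [Fintype (QX (cs X col) (K i))],
        ∃ (ι : Type) (_ : Fintype ι) (_ : DecidableEq ι), TSys p (cs X col) (aa (cs X col) (K i)) d ι ∧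
          (1 - ε) * (K i).index ≤ Fintype.card ι := by
  obtain ⟨q, hq, hq2, hpq⟩ := exists_q p
  haveI : Fact q.Prime := ⟨hq⟩
  obtain ⟨K, k1, k2, k3⟩ := chain_exists (cs X col) q hq2
  refine ⟨K, k1, fun i => ⟨(k2 i).nor, (k2 i).fin, (k2 i).ker⟩, fun g hg => ?_, fun ε hε => ?_⟩
  · by_contra hne
    obtain ⟨i, hi⟩ := k3 {g} (by simpa using Ne.symm hne)
    exact hi i le_rfl g (Finset.mem_singleton_self g) (hg i)
  · obtain ⟨E, hE1, hE2⟩ := growth_tsys hp q hpq hX hm hE h ε hε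
    obtain ⟨i0, hi0⟩ := k3 E hE1
    exact ⟨i0, fun i hi _ => hE2 (K i) (k2 i) (hi0 i hi)⟩

end cs

end Pool.Agent.N504.TG
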